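import Pool.Agent.H728.Pert

/-!
# Contraction of joins with many points

If a `k`-dimensional complex, joined with sufficiently many points, embeds (linearly) in
`ℝ^(2k+3)`, then two of the points lie on the same sides of all the hyperplanes spanned by pairs of
simplices, and the complex embeds in the quotient by the span of these two points.
-/

namespace Pool.Agent.H728

open Finset

/-- The vectors `g v`, `v < N`, are in general position. -/
def Gen {D : ℕ} (g : ℕ → Fin D → ℝ) (N : ℕ) : Prop :=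
  ∀ t : Fin D → ℕ, Function.Injective t → (∀ i, t i < N) → LinearIndependent ℝ fun i => g (t i)

theorem Gen.finset {D N : ℕ} {g : ℕ → Fin D → ℝ} (h : Gen g N) {T : Finset ℕ} (hT : T.card ≤ D)
    (hTN : ∀ v ∈ T, v < N) (hN : D ≤ N) : LinearIndependent ℝ fun v : T => g v := by
  obtain ⟨U, hTU, hUN, hU⟩ := Finset.exists_subsuperset_card_eq (s := T) (t := range N) (n := D)
    (fun v hv => mem_range.2 (hTN v hv)) hT (by simpa using hN)
  have h1 := h (fun i => U.orderEmbOfFin hU i) (fun a b hab => (U.orderEmbOfFin hU).injective hab)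
    (fun i => mem_range.1 (hUN (U.orderEmbOfFin_mem hU i)))
  have h2 : ∀ v : T, ∃ i, U.orderEmbOfFin hU i = v := by
    intro v
    have : (v : ℕ) ∈ Set.range (U.orderEmbOfFin hU) := by
      rw [Finset.range_orderEmbOfFin]
      exact hTU v.2
    exact this
  choose e he using h2
  have h3 := h1.comp e (fun a b hab => Subtype.ext (by rw [← he a, ← he b, hab]))
  have h4 : ((fun i => g (U.orderEmbOfFin hU i)) ∘ e) = fun v : T => g v := by
    funext v
    simp only [Function.comp_apply, he]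
  rwa [h4] at h3

/-- A hyperplane through given vectors, which contains no other vector. -/
theorem Gen.exists_functional {n N : ℕ} {g : ℕ → Fin (n + 1) → ℝ} (h : Gen g N) {T : Finset ℕ}
    (hT : T.card = n) (hTN : ∀ v ∈ T, v < N) (hN : n + 1 ≤ N) :
    ∃ ℓ : (Fin (n + 1) → ℝ) →ₗ[ℝ] ℝ, (∀ v ∈ T, ℓ (g v) = 0) ∧
      ∀ w, w ∉ T → w < N → ℓ (g w) ≠ 0 := by
  have hlt : Submodule.span ℝ (Set.range fun v : T => g v) < ⊤ := by
    rw [lt_top_iff_ne_top]
    intro htop
    have h1 := finrank_span_eq_card (R := ℝ) (h.finset (T := T) (by omega) hTN hN)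
    rw [htop, finrank_top, Module.finrank_fin_fun, Fintype.card_coe] at h1
    omega
  obtain ⟨ℓ, hℓ0, hℓ⟩ := Submodule.exists_le_ker_of_lt_top _ hlt
  have hv : ∀ v ∈ T, ℓ (g v) = 0 := fun v hv => hℓ (Submodule.subset_span ⟨⟨v, hv⟩, rfl⟩)
  refine ⟨ℓ, hv, fun w hw hwN h0 => hℓ0 ?_⟩
  have h2 := h.finset (T := insert w T) (by rw [card_insert_of_notMem hw, hT])
    (fun v hv => by
      rcases mem_insert.1 hv with rfl | hv
      · exact hwN
      · exact hTN v hv) hN
  have h3 : Submodule.span ℝ (Set.range fun v : (insert w T : Finset ℕ) => g v) = ⊤ := by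
    apply h2.span_eq_top_of_card_eq_finrank'
    rw [Fintype.card_coe, card_insert_of_notMem hw, hT, Module.finrank_fin_fun]
  have h4 : (⊤ : Submodule ℝ (Fin (n + 1) → ℝ)) ≤ LinearMap.ker ℓ := by
    rw [← h3, Submodule.span_le]
    rintro _ ⟨⟨v, hv'⟩, rfl⟩
    rcases mem_insert.1 hv' with rfl | hv'
    · exact h0
    · exact hv v hv'
  exact LinearMap.ker_eq_top.1 (top_le_iff.1 h4)

/-- A bound for the number of cells. -/
def cellBound (D q : ℕ) : ℕ := (D + 1) * (q + 1) ^ D + 1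

theorem sum_choose_le (D q d : ℕ) (hd : d ≤ D) :
    ∑ k ∈ Iic d, q.choose k ≤ (D + 1) * (q + 1) ^ D := by
  calc ∑ k ∈ Iic d, q.choose k ≤ ∑ k ∈ Iic d, (q + 1) ^ D := by
        refine sum_le_sum fun k hk => ?_
        rw [mem_Iic] at hk
        calc q.choose k ≤ q ^ k := Nat.choose_le_pow q k
          _ ≤ (q + 1) ^ k := Nat.pow_le_pow_left (by omega) k
          _ ≤ (q + 1) ^ D := Nat.pow_le_pow_right (by omega) (by omega)
    _ = (d + 1) * (q + 1) ^ D := by simp
    _ ≤ (D + 1) * (q + 1) ^ D := Nat.mul_le_mul_right _ (by omega)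

/-- Among many points two are on the same sides of all given hyperplanes. -/
theorem exists_same_cell {D q m : ℕ} (ℓ : Fin q → (Fin D → ℝ) →ₗ[ℝ] ℝ) (x : Fin m → Fin D → ℝ)
    (hx : ∀ p u, ℓ p (x u) ≠ 0) (hm : cellBound D q ≤ m) :
    ∃ i j, i ≠ j ∧ ∀ p, 0 < ℓ p (x i) * ℓ p (x j) := by
  classical
  let A : Fin m → Finset (Fin q) := fun u => univ.filter fun p => 0 < ℓ p (x u)
  set 𝒜 : Finset (Finset (Fin q)) := univ.image A with h𝒜
  have hvc : 𝒜.vcDim ≤ D := by
    refine Finset.sup_le fun T hT => ?_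
    rw [Finset.mem_shatterer] at hT
    by_contra hcard
    rw [not_le] at hcard
    have hdep : ¬ LinearIndependent ℝ fun p : T => ℓ p := by
      intro hli
      have h1 := hli.fintype_card_le_finrank
      have h2 : Module.finrank ℝ ((Fin D → ℝ) →ₗ[ℝ] ℝ) = D := by
        have := Subspace.dual_finrank_eq (K := ℝ) (V := Fin D → ℝ)
        rw [Module.finrank_fin_fun] at this
        exact this
      rw [h2, Fintype.card_coe] at h1
      omega
    rw [Fintype.not_linearIndependent_iff] at hdep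
    obtain ⟨r, hr, p0, hp0⟩ := hdep
    obtain ⟨U, hU, hTU⟩ := hT (t := T.filter fun p => ∃ hp : p ∈ T, 0 < r ⟨p, hp⟩)
      (filter_subset _ _)
    rw [h𝒜, mem_image] at hU
    obtain ⟨u, -, rfl⟩ := hU
    have hsum : ∑ p : T, r p * ℓ p (x u) = 0 := by
      have := congrArg (fun φ : (Fin D → ℝ) →ₗ[ℝ] ℝ => φ (x u)) hr
      simpa using this
    have hiff : ∀ p : T, 0 < ℓ p (x u) ↔ 0 < r p := by
      intro p
      have h1 := Finset.ext_iff.1 hTU p
      rw [mem_inter, mem_filter] at h1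
      simp only [mem_filter, mem_univ, true_and] at h1
      constructor
      · intro h
        obtain ⟨-, hp, h3⟩ := h1.1 ⟨p.2, h⟩
        exact h3
      · intro h
        exact (h1.2 ⟨p.2, p.2, h⟩).2
    have hnn : ∀ p : T, 0 ≤ r p * ℓ p (x u) := by
      intro p
      by_cases hp : 0 < r p
      · exact (mul_pos hp ((hiff p).2 hp)).le
      · have h1 : ¬ 0 < ℓ p (x u) := fun h => hp ((hiff p).1 h)
        exact mul_nonneg_of_nonpos_of_nonpos (not_lt.1 hp) (not_lt.1 h1)
    have h0 := (sum_eq_zero_iff_of_nonneg fun p _ => hnn p).1 hsum p0 (mem_univ _)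
    rcases mul_eq_zero.1 h0 with h | h
    · exact hp0 h
    · exact hx _ _ h
  have hcard : 𝒜.card < m := by
    calc 𝒜.card ≤ 𝒜.shatterer.card := Finset.card_le_card_shatterer 𝒜
      _ ≤ ∑ k ∈ Iic 𝒜.vcDim, (Fintype.card (Fin q)).choose k :=
        Finset.card_shatterer_le_sum_vcDim
      _ ≤ (D + 1) * (q + 1) ^ D := by
        rw [Fintype.card_fin]
        exact sum_choose_le D q _ hvc
      _ < m := by unfold cellBound at hm; omega
  obtain ⟨i, -, j, -, hij, hAij⟩ := Finset.exists_ne_map_eq_of_card_lt_of_maps_to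
    (s := (univ : Finset (Fin m))) (t := 𝒜) (f := A) (by simpa using hcard)
    (fun u _ => mem_image_of_mem A (mem_univ u))
  refine ⟨i, j, hij, fun p => ?_⟩
  have h1 := Finset.ext_iff.1 hAij p
  simp only [A, mem_filter, mem_univ, true_and] at h1
  by_cases hp : 0 < ℓ p (x i)
  · exact mul_pos hp (h1.1 hp)
  · have h2 : ¬ 0 < ℓ p (x j) := fun h => hp (h1.2 h)
    exact mul_pos_of_neg_of_neg (lt_of_le_of_ne (not_lt.1 hp) (hx _ _))
      (lt_of_le_of_ne (not_lt.1 h2) (hx _ _))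

/-- Contraction of the join of a `k`-dimensional complex with many points. -/
theorem linEmb_of_bigJoin {k m : ℕ} {L : List (List ℕ)} (hL : ∀ F ∈ L, F.length ≤ k + 1)
    (hm : cellBound (2 * k + 3) (L.length * L.length) ≤ m) {g : ℕ → Fin (2 * k + 3) → ℝ}
    (h : LinEmb (joinN m L) g) : ∃ g' : ℕ → Fin (2 * k + 1) → ℝ, LinEmb L g' := by
  -- a bound for the vertices
  set B : ℕ := (verts L).sup id + 1 with hB
  have hBv : ∀ F ∈ L, ∀ v ∈ F, v < B := by
    intro F hF v hv
    have := Finset.le_sup (f := id) (mem_verts.2 ⟨F, hF, hv⟩)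
    simp only [id] at this
    omega
  set N : ℕ := 2 * (B + 2 * k + 3) + 2 * m + 2 with hN
  obtain ⟨g', h', hgen⟩ := h.exists_generic N
  replace hgen : Gen g' N := hgen
  -- the functionals
  have hfun : ∀ F ∈ L, ∀ G ∈ L, ∃ ℓ : (Fin (2 * k + 2 + 1) → ℝ) →ₗ[ℝ] ℝ,
      (∀ v ∈ F, ℓ (g' (2 * v)) = 0) ∧ (∀ v ∈ G, ℓ (g' (2 * v)) = 0) ∧
        ∀ u < m, ℓ (g' (2 * u + 1)) ≠ 0 := by
    intro F hF G hG
    have hsub : ((F.toFinset ∪ G.toFinset).image fun v => 2 * v) ⊆
        (range (B + 2 * k + 3)).image fun v => 2 * v := by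
      refine image_subset_image fun v hv => ?_
      rw [mem_union, List.mem_toFinset, List.mem_toFinset] at hv
      rw [mem_range]
      rcases hv with hv | hv
      · have := hBv F hF v hv; omega
      · have := hBv G hG v hv; omega
    have hc1 : ((F.toFinset ∪ G.toFinset).image fun v => 2 * v).card ≤ 2 * k + 2 := by
      have a1 := card_image_le (s := F.toFinset ∪ G.toFinset) (f := fun v => 2 * v)
      have a2 := card_union_le F.toFinset G.toFinset
      have a3 := F.toFinset_card_le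
      have a4 := G.toFinset_card_le
      have a5 := hL F hF
      have a6 := hL G hG
      omega
    obtain ⟨T, hT1, hT2, hT3⟩ := Finset.exists_subsuperset_card_eq hsub hc1 (by
      rw [card_image_of_injective _ two_mul_injective, card_range]; omega)
    obtain ⟨ℓ, hℓ1, hℓ2⟩ := hgen.exists_functional (n := 2 * k + 2) hT3 (fun v hv => by
      obtain ⟨w, hw, rfl⟩ := mem_image.1 (hT2 hv)
      rw [mem_range] at hw
      omega) (by omega)
    refine ⟨ℓ, fun v hv => hℓ1 _ (hT1 (mem_image_of_mem _ ?_)),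
      fun v hv => hℓ1 _ (hT1 (mem_image_of_mem _ ?_)), fun u hu => hℓ2 _ (fun hn => ?_) (by omega)⟩
    · rw [mem_union]; exact Or.inl (List.mem_toFinset.2 hv)
    · rw [mem_union]; exact Or.inr (List.mem_toFinset.2 hv)
    · obtain ⟨w, -, hw⟩ := mem_image.1 (hT2 hn)
      omega
  have hfun' : ∀ p : Fin L.length × Fin L.length, ∃ ℓ : (Fin (2 * k + 2 + 1) → ℝ) →ₗ[ℝ] ℝ,
      (∀ v ∈ L[p.1], ℓ (g' (2 * v)) = 0) ∧ (∀ v ∈ L[p.2], ℓ (g' (2 * v)) = 0) ∧
        ∀ u < m, ℓ (g' (2 * u + 1)) ≠ 0 := fun p =>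
    hfun _ (List.getElem_mem p.1.2) _ (List.getElem_mem p.2.2)
  choose ℓ hℓ1 hℓ2 hℓ3 using hfun'
  obtain ⟨i, j, hij, hs⟩ := exists_same_cell (D := 2 * k + 2 + 1) (q := L.length * L.length)
    (m := m) (fun p => ℓ (finProdFinEquiv.symm p)) (fun u => g' (2 * (u : ℕ) + 1))
    (fun p u => hℓ3 _ _ u.2) hm
  refine linEmb_of_join h' i.2 j.2 ?_ (fun F hF G hG => ?_) (D := 2 * k + 1) (by simp)
  · have hne : 2 * (i : ℕ) + 1 ≠ 2 * (j : ℕ) + 1 := by
      intro h
      exact hij (Fin.ext (by omega))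
    have h1 := hgen.finset (T := {2 * (i : ℕ) + 1, 2 * (j : ℕ) + 1})
      (by rw [card_pair hne]; omega) (fun v hv => by
        rw [mem_insert, mem_singleton] at hv
        have := i.2
        have := j.2
        omega) (by omega)
    have h2 := h1.comp (fun a : Fin 2 => if a = 0 then
      (⟨2 * (i : ℕ) + 1, by simp⟩ : ({2 * (i : ℕ) + 1, 2 * (j : ℕ) + 1} : Finset ℕ)) else
      ⟨2 * (j : ℕ) + 1, by simp⟩) (fun a b hab => by
        fin_cases a <;> fin_cases b
        · rfl
        · simp at hab; exact absurd hab (by omega)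
        · simp at hab; exact absurd hab (by omega)
        · rfl)
    have e : (![g' (2 * (i : ℕ) + 1), g' (2 * (j : ℕ) + 1)] : Fin 2 → Fin (2 * k + 3) → ℝ) =
        (fun v : ({2 * (i : ℕ) + 1, 2 * (j : ℕ) + 1} : Finset ℕ) => g' v) ∘
          (fun a : Fin 2 => if a = 0 then
      (⟨2 * (i : ℕ) + 1, by simp⟩ : ({2 * (i : ℕ) + 1, 2 * (j : ℕ) + 1} : Finset ℕ)) else
      ⟨2 * (j : ℕ) + 1, by simp⟩) := by
      funext a
      fin_cases a <;> simp
    rw [e]
    exact h2
  · obtain ⟨a, ha, rfl⟩ := List.getElem_of_mem hF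
    obtain ⟨b, hb, rfl⟩ := List.getElem_of_mem hG
    refine ⟨ℓ (⟨a, ha⟩, ⟨b, hb⟩), hℓ1 (⟨a, ha⟩, ⟨b, hb⟩), hℓ2 (⟨a, ha⟩, ⟨b, hb⟩), ?_⟩
    have := hs (finProdFinEquiv (⟨a, ha⟩, ⟨b, hb⟩))
    rwa [Equiv.symm_apply_apply] at this

end Pool.Agent.H728
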