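import Pool.Agent.H728.Gad

/-!
# Coordinates for the gadget of a column
-/

namespace Pool.Agent.H728

/-- The facets of the gadget, together with the triangles at a vertex above (`16`) and at a vertex
below (`17`). -/
def loc' : List (List ℕ) := loc ++ [[16, 5, 10], [16, 5, 11], [17, 5, 10], [17, 6, 10]]

/-- Homogeneous coordinates. The points `16` and `17` are at infinity. -/
def xs : List (ℤ × ℤ × ℤ × ℤ × ℤ) :=
  [(-7, 0, -1, 0, 1), (7, 0, 1, 0, 1), (0, 17, 0, 0, 1), (0, -1, 19, 0, 1), (4, 3, 4, 1, 1),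
   (0, 6, 6, 20, 1), (-1, 17, -3, 7, 1), (-8, 11, 9, 2, 1), (-4, 5, -5, 6, 1), (4, 1, -10, 5, 1),
   (0, 13, 2, -13, 1), (-11, -20, 9, -12, 1), (13, -13, 1, -5, 1), (-7, -2, 3, -3, 1),
   (-2, 0, 18, -4, 1), (16, -4, 1, 1, 1), (0, 0, 0, 1, 0), (0, 0, 0, -1, 0)]

/-- The homogeneous coordinates of a vertex. -/
def X (q : ℕ) : ℤ × ℤ × ℤ × ℤ × ℤ := xs.getD q (0, 0, 0, 0, 0)

/-- The pairing of a functional and a vector. -/
def dot (a b : ℤ × ℤ × ℤ × ℤ × ℤ) : ℤ :=
  a.1 * b.1 + a.2.1 * b.2.1 + a.2.2.1 * b.2.2.1 + a.2.2.2.1 * b.2.2.2.1 + a.2.2.2.2 * b.2.2.2.2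

/-- Functionals, with the sets of the vertices on their two sides. -/
def certs : List ((ℤ × ℤ × ℤ × ℤ × ℤ) × ℕ × ℕ) :=
  [((-676, 227, 207, 108, -4565), 90336, 171807), ((3, 13, 1, -18, 23), 189663, 72480),
   ((-55, -31, -23, 7, 400), 97265, 164878), ((-533, -258, -248, -40, 3920), 163809, 98334),
   ((-9, -4, 49, 44, -16), 92664, 169479), ((9, -74, -312, -142, -253), 139008, 123135),
   ((-700, -686, 100, 462, 7761), 97211, 164932), ((1, 28, 0, -49, -16), 158932, 103211),
   ((20, -6, -152, 574, -20), 99184, 162959), ((-214, -190, 1473, 16, -26), 97464, 164679),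
   ((3, 6, -9, -16, 24), 177751, 84392), ((-1094, -362, 116, -338, 7609), 159647, 102496),
   ((-96, -506, -39, 262, -757), 80416, 181727), ((46, -19, -15, -2, 257), 171826, 90317),
   ((1878, -179, 306, -275, -2849), 184858, 77285), ((-8, 144, 165, 225, 373), 115199, 146944),
   ((-48, 23, -18, -12, -400), 132288, 129855), ((3, 99, -2, -19, -23), 149492, 112651),
   ((11, 31, -14, -54, 7), 136406, 125737), ((-1314, -626, -674, 21, 9841), 98289, 163854),
   ((271, -406, -986, 30, 4119), 105299, 156844), ((29, -30, -120, -1, 515), 176983, 85160),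
   ((64, 11, 157, -12, -859), 184472, 77671), ((698, 338, -257, -888, 5680), 194399, 67744),
   ((51, -11, -1, 28, 464), 127871, 134272), ((-58, -38, -78, 1, 661), 80855, 181288),
   ((100, 143, 6, 85, -888), 99060, 163083), ((-522, -314, -299, -31, 4274), 162771, 99372),
   ((-17, 135, 104, 206, -31), 82940, 179203), ((-728, 283, 265, 319, -4869), 82400, 179743),
   ((-442, -263, 860, 246, 4792), 96703, 165440), ((73, -28, -27, 346, 448), 103410, 158733),
   ((-969, -569, 576, -182, 3501), 158105, 104038), ((8, -140, -463, 205, -432), 70496, 191647),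
   ((-13, -10, 169, -44, 29), 163002, 99141), ((-11, 18, 132, 46, 22), 92414, 169729),
   ((-24, -21, -19, -6, 248), 147347, 114796), ((63, -128, -34, -88, 387), 195090, 67053),
   ((-140, -239, -69, 551, 1043), 109553, 152590), ((-23, -3, -11, 21, 168), 76789, 185354),
   ((-82, -103, -36, 1, 808), 97179, 164964), ((-252, 1201, 22, -831, -1850), 157140, 105003),
   ((34, -22, -13, -7, 224), 179986, 82157), ((-108, 710, -436, -1565, 3207), 159447, 102696),
   ((-63, -190, 206, 626, -599), 82872, 179271), ((21, 4, 1, 7, -45), 103030, 159113),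
   ((363, 744, 182, -1677, -2732), 154772, 107371), ((4, 23, -7, 8, -32), 67572, 194571),
   ((0, 11, -12, -33, 60), 147159, 114984), ((280, -112, -107, 3, 1848), 106354, 155789),
   ((-10, -47, 19, 106, 56), 105403, 156740), ((-132, -238, -80, 142, -597), 76321, 185822),
   ((565, 740, -73, -1782, 293), 187478, 74665), ((-42, 324, 1509, 327, -3308), 84220, 177923),
   ((535, -223, -199, 27, 3544), 105330, 156813), ((193, 249, 1278, 974, 6818), 127487, 134656),
   ((84, -45, 487, -120, -2001), 153752, 108391), ((602, -429, -324, -156, 3881), 178962, 83181),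
   ((122, 40, 74, 140, -458), 115326, 146817), ((707, -116, 539, 304, 4183), 127742, 134401),
   ((-476, -208, -230, 5, 3267), 94177, 167966)]

theorem certs_ok : (certs.all fun c => (List.range 18).all fun q =>
    (!(c.2.1.testBit q) || decide (0 < dot c.1 (X q))) &&
      (!(c.2.2.testBit q) || decide (dot c.1 (X q) < 0))) = true := by
  decide +kernel

theorem certs_cover : (loc'.all fun F => loc'.all fun G => (F.any fun q => G.contains q) ||
    certs.any fun c => ((F.all fun q => c.2.1.testBit q) && (G.all fun q => c.2.2.testBit q)) ||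
      ((F.all fun q => c.2.2.testBit q) && (G.all fun q => c.2.1.testBit q))) = true := by
  decide +kernel

theorem loc'_lt : ∀ F ∈ loc', ∀ q ∈ F, q < 18 := by
  decide +kernel

theorem dot_neg (a b : ℤ × ℤ × ℤ × ℤ × ℤ) : dot (-a) b = - dot a b := by
  simp only [dot, Prod.fst_neg, Prod.snd_neg]
  ring

/-- Two disjoint triangles are separated. -/
theorem exists_cert : ∀ F ∈ loc', ∀ G ∈ loc', (∀ q ∈ F, q ∉ G) →
    ∃ φ : ℤ × ℤ × ℤ × ℤ × ℤ, (∀ q ∈ F, 0 < dot φ (X q)) ∧ (∀ q ∈ G, dot φ (X q) < 0) := by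
  intro F hF G hG hFG
  have h1 := certs_cover
  rw [List.all_eq_true] at h1
  have h2 := h1 F hF
  rw [List.all_eq_true] at h2
  have h3 := h2 G hG
  rw [Bool.or_eq_true] at h3
  rcases h3 with h3 | h3
  · rw [List.any_eq_true] at h3
    obtain ⟨q, hq, hq'⟩ := h3
    exact absurd (List.contains_iff_mem.1 hq') (hFG q hq)
  rw [List.any_eq_true] at h3
  obtain ⟨c, hc, h4⟩ := h3
  have h5 := certs_ok
  rw [List.all_eq_true] at h5
  have h6 := h5 c hc
  rw [List.all_eq_true] at h6
  have hpos : ∀ q < 18, c.2.1.testBit q = true → 0 < dot c.1 (X q) := by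
    intro q hq hb
    have := h6 q (List.mem_range.2 hq)
    rw [Bool.and_eq_true, hb] at this
    simpa using this.1
  have hneg : ∀ q < 18, c.2.2.testBit q = true → dot c.1 (X q) < 0 := by
    intro q hq hb
    have := h6 q (List.mem_range.2 hq)
    rw [Bool.and_eq_true, hb] at this
    simpa using this.2
  rw [Bool.or_eq_true, Bool.and_eq_true, Bool.and_eq_true, List.all_eq_true, List.all_eq_true,
    List.all_eq_true, List.all_eq_true] at h4
  rcases h4 with ⟨a, b⟩ | ⟨a, b⟩
  · exact ⟨c.1, fun q hq => hpos q (loc'_lt F hF q hq) (a q hq),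
      fun q hq => hneg q (loc'_lt G hG q hq) (b q hq)⟩
  · refine ⟨-c.1, fun q hq => ?_, fun q hq => ?_⟩
    · rw [dot_neg]
      have := hneg q (loc'_lt F hF q hq) (a q hq)
      omega
    · rw [dot_neg]
      have := hpos q (loc'_lt G hG q hq) (b q hq)
      omega

end Pool.Agent.H728
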