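import Pool.Agent.ER.Defs

/-!
# Geometric embeddings of simplicial complexes: definitions

Polynomial time, languages, reductions and the class `∃ℝ` are those of `Pool/Agent/NPC/Defs.lean`
and `Pool/Agent/ER/Defs.lean`.
-/

namespace Pool.Agent.H728

open Pool.Agent.NPC

/-- `σ` is a simplex of the complex generated by the list `L` (of lists of vertices): a nonempty
subset of a member of `L`. -/
def Simplex (L : List (List ℕ)) (σ : Finset ℕ) : Prop :=
  σ.Nonempty ∧ ∃ F ∈ L, σ ⊆ F.toFinset

/-- `L` is the list of the maximal simplices of a simplicial complex of dimension `k`: every member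
of `L` is a nonempty list of distinct vertices, none of the members (at different places of the
list) is contained in another one, every member has at most `k + 1` vertices, and some member has
exactly `k + 1` vertices. -/
structure IsComplex (k : ℕ) (L : List (List ℕ)) : Prop where
  ne_nil : ∀ F ∈ L, F ≠ []
  nodup : ∀ F ∈ L, F.Nodup
  maximal : L.Pairwise fun F G => ¬ F.toFinset ⊆ G.toFinset ∧ ¬ G.toFinset ⊆ F.toFinset
  dim_le : ∀ F ∈ L, F.length ≤ k + 1
  dim_eq : ∃ F ∈ L, F.length = k + 1

/-- `f` is a geometric embedding in `ℝ^d` of the complex generated by `L`: the vertices of every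
simplex are sent to affinely independent points, and
`conv f(σ) ∩ conv f(τ) = conv f(σ ∩ τ)` for all simplices `σ`, `τ`. -/
structure IsGeomEmb (d : ℕ) (L : List (List ℕ)) (f : ℕ → EuclideanSpace ℝ (Fin d)) : Prop where
  indep : ∀ σ, Simplex L σ → AffineIndependent ℝ fun v : σ => f v
  inter : ∀ σ τ, Simplex L σ → Simplex L τ →
    convexHull ℝ (f '' (σ : Set ℕ)) ∩ convexHull ℝ (f '' (τ : Set ℕ)) =
      convexHull ℝ (f '' ((σ ∩ τ : Finset ℕ) : Set ℕ))

/-- The decision problem `EMB(k, d)`: given (the list of the maximal simplices of) a complex of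
dimension `k`, does it have a geometric embedding in `ℝ^d`? -/
def EMB (k d : ℕ) : Set (List Bool) :=
  lang fun L : List (List ℕ) => IsComplex k L ∧ ∃ f, IsGeomEmb d L f

end Pool.Agent.H728
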