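import Pool.Agent.H728.Mem2
import Pool.Agent.NPC.Classes

/-!
# The pairs for which the embedding problem is trivial
-/

namespace Pool.Agent.H728

open Finset

theorem gen_mom (D N : ℕ) : Gen (mom D) N := by
  intro t ht _
  have e : (Matrix.of fun i j => mom D (t i) j) = Matrix.vandermonde fun i => ((t i : ℕ) : ℝ) := by
    ext i j
    simp [mom, Matrix.vandermonde]
  have hdet : (Matrix.of fun i j => mom D (t i) j).det ≠ 0 := by
    rw [e]
    exact Matrix.det_vandermonde_ne_zero_iff.2 (fun a b hab => ht (by exact_mod_cast hab))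
  exact Matrix.linearIndependent_rows_of_det_ne_zero hdet

/-- Vectors in general position in a space of large dimension. -/
theorem linEmb_of_gen {D k N : ℕ} {L : List (List ℕ)} {g : ℕ → Fin D → ℝ} (hgen : Gen g N)
    (hD : 2 * k + 2 ≤ D) (hN : D ≤ N) (hL : ∀ F ∈ L, F.length ≤ k + 1)
    (hv : ∀ F ∈ L, ∀ v ∈ F, v < N) : LinEmb L g := by
  rintro c ⟨F, hF, hcF⟩ ⟨G, hG, hcG⟩ h0
  have hsup : ∀ v, c v ≠ 0 → v ∈ F.toFinset ∪ G.toFinset := by
    intro v hv
    rw [mem_union, List.mem_toFinset, List.mem_toFinset]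
    rcases lt_or_gt_of_ne hv with h1 | h1
    · exact Or.inr (hcG v h1)
    · exact Or.inl (hcF v h1)
  have hcard : (F.toFinset ∪ G.toFinset).card ≤ D := by
    have h1 := card_union_le F.toFinset G.toFinset
    have h3 := F.toFinset_card_le
    have h4 := G.toFinset_card_le
    have h5 := hL F hF
    have h6 := hL G hG
    omega
  have hli := hgen.finset hcard (fun v hv' => by
    rw [mem_union, List.mem_toFinset, List.mem_toFinset] at hv'
    rcases hv' with h | h
    · exact hv F hF v h
    · exact hv G hG v h) hN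
  rw [Fintype.linearIndependent_iff] at hli
  have h1 := hli (fun v => c v) (by
    rw [sum_coe_sort (F.toFinset ∪ G.toFinset) (fun v => c v • g v), ← lc_eq_of_subset g c hsup]
    exact h0)
  ext v
  by_contra hv
  exact hv (h1 ⟨v, hsup v hv⟩)

/-- A `k`-dimensional complex embeds in dimension `2 k + 1` and above. -/
theorem affEmb_of_large {d k : ℕ} (hd : 2 * k + 1 ≤ d) {L : List (List ℕ)}
    (hL : ∀ F ∈ L, F.length ≤ k + 1) : ∃ f : ℕ → Fin d → ℝ, AffEmb L f := by
  refine ⟨fun v i => (v : ℝ) ^ ((i : ℕ) + 1), ?_⟩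
  let T : (Fin d → ℝ) × ℝ →ₗ[ℝ] (Fin (d + 1) → ℝ) :=
    { toFun := fun x => Fin.cons x.2 x.1
      map_add' := fun x y => by
        funext i
        refine Fin.cases ?_ (fun k => ?_) i
        · simp
        · simp
      map_smul' := fun r x => by
        funext i
        refine Fin.cases ?_ (fun k => ?_) i
        · simp
        · simp }
  refine LinEmb.of_map T ?_
  have e : (fun v : ℕ => T ((fun i : Fin d => (v : ℝ) ^ ((i : ℕ) + 1)), 1)) = mom (d + 1) := by
    funext v i
    refine Fin.cases ?_ (fun k => ?_) i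
    · change (1 : ℝ) = (v : ℝ) ^ 0
      rw [pow_zero]
    · rfl
  rw [e]
  set B : ℕ := (verts L).sup id + 1 with hB
  refine linEmb_of_gen (gen_mom (d + 1) (B + d + 1)) (by omega) (by omega) hL fun F hF v hv => ?_
  have := Finset.le_sup (f := id) (mem_verts.2 ⟨F, hF, hv⟩)
  simp only [id] at this
  omega

/-- A simplex of dimension larger than `d` does not embed in dimension `d`. -/
theorem not_isGeomEmb {d k : ℕ} (hd : d < k) {L : List (List ℕ)} (hL : IsComplex k L)
    {f : ℕ → EuclideanSpace ℝ (Fin d)} : ¬ IsGeomEmb d L f := by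
  intro h
  obtain ⟨F, hF, hk⟩ := hL.dim_eq
  have hcard : F.toFinset.card = k + 1 := by
    rw [List.toFinset_card_of_nodup (hL.nodup F hF), hk]
  have h1 := h.indep F.toFinset ⟨by rw [← card_pos, hcard]; omega, F, hF, Finset.Subset.refl _⟩
  have h2 := h1.card_le_finrank_succ
  rw [Fintype.card_coe, hcard] at h2
  have h3 : Module.finrank ℝ (vectorSpan ℝ (Set.range fun v : F.toFinset => f v)) ≤ d := by
    have := Submodule.finrank_le (vectorSpan ℝ (Set.range fun v : F.toFinset => f v))
    rwa [finrank_euclideanSpace_fin] at this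
  omega

end Pool.Agent.H728

namespace Pool.Agent.NPC.ER.H728

open Pool.Agent.NPC Pool.Agent.H728

/-- The embedding problem is in `P` if `k > d` or `d ≥ 2 k + 1`. -/
theorem emb_inP {k d : ℕ} (h : d < k ∨ 2 * k + 1 ≤ d) : InP (EMB k d) := by
  rcases h with h | h
  · refine inPP_of (P := fun L : List (List ℕ) => IsComplex k L ∧ ∃ f, IsGeomEmb d L f)
      (d := fun _ => false) (Poly.const false) fun L => ?_
    constructor
    · rintro ⟨hL, f, hf⟩
      exact absurd hf (not_isGeomEmb h hL)
    · intro h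
      simp at h
  · refine inPP_of (P := fun L : List (List ℕ) => IsComplex k L ∧ ∃ f, IsGeomEmb d L f)
      (poly_complexB k) fun L => ?_
    rw [complexB_iff, exists_isGeomEmb_iff]
    exact ⟨fun h => h.1, fun hL => ⟨hL, affEmb_of_large h hL.dim_le⟩⟩

end Pool.Agent.NPC.ER.H728
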