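import Pool.Agent.H728.Sep
import Pool.Agent.H728.Cert
import Pool.Agent.H625R2.SignM

/-!
# From a sign realization to an embedding
-/

namespace Pool.Agent.H728

open Finset Filter Topology Pool.Agent.NPC.ER.Pat

namespace Ex

/-- The equation of a hyperplane, in homogeneous coordinates. -/
def hh (a : ℕ → ℝ) (γ : ℝ) (x : Fin 5 → ℝ) : ℝ :=
  a 0 * x 0 + a 1 * x 1 + a 2 * x 2 + a 3 * x 3 + γ * x 4

/-- A linear functional. -/
def lf (w0 w1 w2 w3 w4 : ℝ) : (Fin 5 → ℝ) →ₗ[ℝ] ℝ where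
  toFun x := w0 * x 0 + w1 * x 1 + w2 * x 2 + w3 * x 3 + w4 * x 4
  map_add' x y := by simp only [Pi.add_apply]; ring
  map_smul' r x := by simp only [Pi.smul_apply, smul_eq_mul, RingHom.id_apply]; ring

theorem lf_apply (w0 w1 w2 w3 w4 : ℝ) (x : Fin 5 → ℝ) :
    lf w0 w1 w2 w3 w4 x = w0 * x 0 + w1 * x 1 + w2 * x 2 + w3 * x 3 + w4 * x 4 := rfl

/-- The position of a vertex of the gadget with the integral coordinates `x`, near the point `O`
of the hyperplane. -/
noncomputable def vtx (O : Fin 5 → ℝ) (a : ℕ → ℝ) (ε : ℝ) (x : ℤ × ℤ × ℤ × ℤ × ℤ) : Fin 5 → ℝ :=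
  ![O 0 + (ε ^ 2 * x.2.2.2.1 - ε * (a 1 * x.1 + a 2 * x.2.1 + a 3 * x.2.2.1)) / a 0,
    O 1 + ε * x.1, O 2 + ε * x.2.1, O 3 + ε * x.2.2.1, O 4]

/-- The functional which corresponds to `φ`. -/
noncomputable def Phi (O : Fin 5 → ℝ) (a : ℕ → ℝ) (γ : ℝ) (ε : ℝ) (φ : ℤ × ℤ × ℤ × ℤ × ℤ) :
    (Fin 5 → ℝ) →ₗ[ℝ] ℝ :=
  lf (φ.2.2.2.1 * a 0) (ε * φ.1 + φ.2.2.2.1 * a 1) (ε * φ.2.1 + φ.2.2.2.1 * a 2)
    (ε * φ.2.2.1 + φ.2.2.2.1 * a 3)
    (ε ^ 2 * φ.2.2.2.2 / O 4 - ε * (φ.1 * O 1 + φ.2.1 * O 2 + φ.2.2.1 * O 3) / O 4 +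
      φ.2.2.2.1 * γ)

theorem Phi_vtx {O : Fin 5 → ℝ} {a : ℕ → ℝ} {γ : ℝ} (ha : a 0 ≠ 0) (hO : O 4 ≠ 0)
    (h0 : hh a γ O = 0) (ε : ℝ) (φ x : ℤ × ℤ × ℤ × ℤ × ℤ) (hx : x.2.2.2.2 = 1) :
    Phi O a γ ε φ (vtx O a ε x) = ε ^ 2 * (dot φ x : ℤ) := by
  unfold Phi vtx dot
  rw [lf_apply]
  unfold hh at h0
  simp only [Matrix.cons_val]
  rw [hx]
  push_cast
  field_simp
  linear_combination (φ.2.2.2.1 : ℝ) * h0

theorem Phi_tendsto (O : Fin 5 → ℝ) (a : ℕ → ℝ) (γ : ℝ) (φ : ℤ × ℤ × ℤ × ℤ × ℤ) (P : Fin 5 → ℝ) :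
    Tendsto (fun ε => Phi O a γ ε φ P) (𝓝[>] 0) (𝓝 (φ.2.2.2.1 * hh a γ P)) := by
  have hc : Continuous fun ε => Phi O a γ ε φ P := by
    unfold Phi
    simp only [lf_apply]
    fun_prop
  have h := (hc.tendsto 0).mono_left (nhdsWithin_le_nhds (s := Set.Ioi 0))
  have e : Phi O a γ 0 φ P = φ.2.2.2.1 * hh a γ P := by
    unfold Phi hh
    rw [lf_apply]
    ring
  rwa [e] at h

/-- The vertex `v` is represented by `q`, for the row `i` and the column `j`. -/
def Real (M : List (List Bool)) (i j q v : ℕ) : Prop :=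
  (q < 16 ∧ v = enc j q) ∨ (q = 16 ∧ v = 2 * i ∧ i < M.length ∧ ent M i j = true) ∨
    (q = 17 ∧ v = 2 * i ∧ i < M.length ∧ ent M i j = false)

/-- The positions of all vertices. -/
noncomputable def place (B : ℕ → Fin 5 → ℝ) (η : ℕ → ℕ → ℝ) (ε : ℝ) (v : ℕ) : Fin 5 → ℝ :=
  if v % 2 = 0 then B v else
    vtx (B (2 * (v / 2 / 16) + 1)) (η (v / 2 / 16)) ε (X (v / 2 % 16))

theorem place_even (B : ℕ → Fin 5 → ℝ) (η : ℕ → ℕ → ℝ) (ε : ℝ) (i : ℕ) :
    place B η ε (2 * i) = B (2 * i) := by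
  unfold place
  rw [if_pos (by omega)]

theorem place_enc (B : ℕ → Fin 5 → ℝ) (η : ℕ → ℕ → ℝ) (ε : ℝ) (j : ℕ) {q : ℕ} (hq : q < 16) :
    place B η ε (enc j q) = vtx (B (2 * j + 1)) (η j) ε (X q) := by
  unfold place enc
  rw [if_neg (by omega), show (2 * (16 * j + q) + 1) / 2 / 16 = j by omega,
    show (2 * (16 * j + q) + 1) / 2 % 16 = q by omega]

theorem X_last : ∀ q < 16, (X q).2.2.2.2 = 1 := by decide

theorem X_16 (φ : ℤ × ℤ × ℤ × ℤ × ℤ) : dot φ (X 16) = φ.2.2.2.1 := by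
  have : X 16 = (0, 0, 0, 1, 0) := rfl
  rw [this, dot]
  simp

theorem X_17 (φ : ℤ × ℤ × ℤ × ℤ × ℤ) : dot φ (X 17) = - φ.2.2.2.1 := by
  have : X 17 = (0, 0, 0, -1, 0) := rfl
  rw [this, dot]
  simp

/-- The data of a sign realization in general position. -/
structure Base (M : List (List Bool)) (N : ℕ) (B : ℕ → Fin 5 → ℝ) (η : ℕ → ℕ → ℝ)
    (γ : ℕ → ℝ) : Prop where
  gen : Gen B N
  eta : ∀ j, 0 < η j 0
  pos : ∀ v < N, 0 < B v 4
  on : ∀ j, j < wid M → hh (η j) (γ j) (B (2 * j + 1)) = 0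
  sign : ∀ i < M.length, ∀ j < wid M, 0 < sgn (ent M i j) * hh (η j) (γ j) (B (2 * i))
  hN : 2 * M.length + 2 * wid M + 5 ≤ N

variable {M : List (List Bool)} {N : ℕ} {B : ℕ → Fin 5 → ℝ} {η : ℕ → ℕ → ℝ} {γ : ℕ → ℝ}

theorem Base.side (hB : Base M N B η γ) {i j q v : ℕ} (hj : j < wid M) (hr : Real M i j q v)
    (φ : ℤ × ℤ × ℤ × ℤ × ℤ) :
    (0 < dot φ (X q) → ∀ᶠ ε in 𝓝[>] (0 : ℝ),
      0 < Phi (B (2 * j + 1)) (η j) (γ j) ε φ (place B η ε v)) ∧
    (dot φ (X q) < 0 → ∀ᶠ ε in 𝓝[>] (0 : ℝ),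
      Phi (B (2 * j + 1)) (η j) (γ j) ε φ (place B η ε v) < 0) := by
  have hN := hB.hN
  have ha : η j 0 ≠ 0 := (hB.eta j).ne'
  have hO : B (2 * j + 1) 4 ≠ 0 := (hB.pos _ (by omega)).ne'
  rcases hr with ⟨hq, rfl⟩ | ⟨rfl, rfl, hi, he⟩ | ⟨rfl, rfl, hi, he⟩
  · constructor
    · intro h
      filter_upwards [self_mem_nhdsWithin] with ε hε
      rw [place_enc _ _ _ _ hq, Phi_vtx ha hO (hB.on j hj) _ _ _ (X_last q hq)]
      have h1 : (0 : ℝ) < ε := hε
      have h2 : (0 : ℝ) < ((dot φ (X q) : ℤ) : ℝ) := by exact_mod_cast h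
      positivity
    · intro h
      filter_upwards [self_mem_nhdsWithin] with ε hε
      rw [place_enc _ _ _ _ hq, Phi_vtx ha hO (hB.on j hj) _ _ _ (X_last q hq)]
      have h1 : (0 : ℝ) < ε ^ 2 := pow_pos hε 2
      have h2 : ((dot φ (X q) : ℤ) : ℝ) < 0 := by exact_mod_cast h
      exact mul_neg_of_pos_of_neg h1 h2
  · have ht := Phi_tendsto (B (2 * j + 1)) (η j) (γ j) φ (B (2 * i))
    have hs := hB.sign i hi j hj
    rw [he, sgn, if_pos rfl, one_mul] at hs
    simp only [place_even]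
    rw [X_16]
    constructor
    · intro h
      have h2 : (0 : ℝ) < (φ.2.2.2.1 : ℝ) := by exact_mod_cast h
      exact ht.eventually_const_lt (mul_pos h2 hs)
    · intro h
      have h2 : (φ.2.2.2.1 : ℝ) < 0 := by exact_mod_cast h
      exact ht.eventually_lt_const (mul_neg_of_neg_of_pos h2 hs)
  · have ht := Phi_tendsto (B (2 * j + 1)) (η j) (γ j) φ (B (2 * i))
    have hs := hB.sign i hi j hj
    rw [he, sgn, if_neg (by simp)] at hs
    have hs' : hh (η j) (γ j) (B (2 * i)) < 0 := by linarith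
    simp only [place_even]
    rw [X_17]
    constructor
    · intro h
      have h1 : φ.2.2.2.1 < 0 := by omega
      have h2 : (φ.2.2.2.1 : ℝ) < 0 := by exact_mod_cast h1
      exact ht.eventually_const_lt (mul_pos_of_neg_of_neg h2 hs')
    · intro h
      have h1 : 0 < φ.2.2.2.1 := by omega
      have h2 : (0 : ℝ) < (φ.2.2.2.1 : ℝ) := by exact_mod_cast h1
      exact ht.eventually_lt_const (mul_neg_of_pos_of_neg h2 hs')

theorem loc'_16 : ∀ F ∈ loc', 16 ∈ F → 5 ∈ F := by decide +kernel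

theorem loc'_17 : ∀ F ∈ loc', 17 ∈ F → 10 ∈ F := by decide +kernel

theorem loc_lt : ∀ F ∈ loc, ∀ q ∈ F, q < 16 := by decide +kernel

/-- Every facet is represented by a facet of the extended gadget. -/
theorem exists_rep {F : List ℕ} (hF : F ∈ KM M) : ∃ j < wid M, ∃ i, ∃ F' ∈ loc',
    (∀ v ∈ F, ∃ q ∈ F', Real M i j q v) ∧ (∀ q ∈ F', ∃ v ∈ F, Real M i j q v) := by
  obtain ⟨j, hj, hF⟩ := mem_KM.1 hF
  refine ⟨j, hj, ?_⟩
  rcases hF with ⟨G, hG, rfl⟩ | ⟨i, hi, hF⟩
  · refine ⟨0, G, List.mem_append_left _ hG, fun v hv => ?_, fun q hq => ?_⟩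
    · obtain ⟨q, hq, rfl⟩ := List.mem_map.1 hv
      exact ⟨q, hq, Or.inl ⟨loc_lt G hG q hq, rfl⟩⟩
    · exact ⟨_, List.mem_map_of_mem hq, Or.inl ⟨loc_lt G hG q hq, rfl⟩⟩
  · refine ⟨i, ?_⟩
    unfold pagesAt at hF
    cases he : ent M i j
    · rw [he, if_neg (by simp)] at hF
      have r16 : Real M i j 17 (2 * i) := Or.inr (Or.inr ⟨rfl, rfl, hi, he⟩)
      have r : ∀ q < 16, Real M i j q (enc j q) := fun q hq => Or.inl ⟨hq, rfl⟩
      rcases List.mem_cons.1 hF with rfl | hF
      · refine ⟨[17, 5, 10], by decide, ?_, ?_⟩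
        · simp only [List.forall_mem_cons]
          exact ⟨⟨17, by simp, r16⟩, ⟨5, by simp, r 5 (by norm_num)⟩,
            ⟨10, by simp, r 10 (by norm_num)⟩, by simp⟩
        · simp only [List.forall_mem_cons]
          exact ⟨⟨_, by simp, r16⟩, ⟨_, by simp, r 5 (by norm_num)⟩,
            ⟨_, by simp, r 10 (by norm_num)⟩, by simp⟩
      · rw [List.mem_singleton] at hF
        subst hF
        refine ⟨[17, 6, 10], by decide, ?_, ?_⟩
        · simp only [List.forall_mem_cons]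
          exact ⟨⟨17, by simp, r16⟩, ⟨6, by simp, r 6 (by norm_num)⟩,
            ⟨10, by simp, r 10 (by norm_num)⟩, by simp⟩
        · simp only [List.forall_mem_cons]
          exact ⟨⟨_, by simp, r16⟩, ⟨_, by simp, r 6 (by norm_num)⟩,
            ⟨_, by simp, r 10 (by norm_num)⟩, by simp⟩
    · rw [he, if_pos rfl] at hF
      have r16 : Real M i j 16 (2 * i) := Or.inr (Or.inl ⟨rfl, rfl, hi, he⟩)
      have r : ∀ q < 16, Real M i j q (enc j q) := fun q hq => Or.inl ⟨hq, rfl⟩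
      rcases List.mem_cons.1 hF with rfl | hF
      · refine ⟨[16, 5, 10], by decide, ?_, ?_⟩
        · simp only [List.forall_mem_cons]
          exact ⟨⟨16, by simp, r16⟩, ⟨5, by simp, r 5 (by norm_num)⟩,
            ⟨10, by simp, r 10 (by norm_num)⟩, by simp⟩
        · simp only [List.forall_mem_cons]
          exact ⟨⟨_, by simp, r16⟩, ⟨_, by simp, r 5 (by norm_num)⟩,
            ⟨_, by simp, r 10 (by norm_num)⟩, by simp⟩
      · rw [List.mem_singleton] at hF
        subst hF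
        refine ⟨[16, 5, 11], by decide, ?_, ?_⟩
        · simp only [List.forall_mem_cons]
          exact ⟨⟨16, by simp, r16⟩, ⟨5, by simp, r 5 (by norm_num)⟩,
            ⟨11, by simp, r 11 (by norm_num)⟩, by simp⟩
        · simp only [List.forall_mem_cons]
          exact ⟨⟨_, by simp, r16⟩, ⟨_, by simp, r 5 (by norm_num)⟩,
            ⟨_, by simp, r 11 (by norm_num)⟩, by simp⟩

/-- The place of a vertex for `ε = 0`. -/
def base (v : ℕ) : ℕ := if v % 2 = 0 then v else 2 * (v / 2 / 16) + 1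

theorem base_even (i : ℕ) : base (2 * i) = 2 * i := by
  unfold base
  rw [if_pos (by omega)]

theorem base_enc (j : ℕ) {q : ℕ} (hq : q < 16) : base (enc j q) = 2 * j + 1 := by
  unfold base enc
  rw [if_neg (by omega)]
  omega

theorem Real.base {i j q v : ℕ} (h : Real M i j q v) :
    (Ex.base v = 2 * i ∧ v = 2 * i ∧ i < M.length) ∨ Ex.base v = 2 * j + 1 := by
  rcases h with ⟨hq, rfl⟩ | ⟨rfl, rfl, hi, he⟩ | ⟨rfl, rfl, hi, he⟩
  · exact Or.inr (base_enc j hq)
  · exact Or.inl ⟨base_even i, rfl, hi⟩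
  · exact Or.inl ⟨base_even i, rfl, hi⟩

theorem vtx_zero (O : Fin 5 → ℝ) (a : ℕ → ℝ) (x : ℤ × ℤ × ℤ × ℤ × ℤ) : vtx O a 0 x = O := by
  funext k
  unfold vtx
  fin_cases k <;> simp

theorem place_zero (B : ℕ → Fin 5 → ℝ) (η : ℕ → ℕ → ℝ) (v : ℕ) :
    place B η 0 v = B (base v) := by
  unfold place base
  split_ifs
  · rfl
  · rw [vtx_zero]

theorem continuous_place (B : ℕ → Fin 5 → ℝ) (η : ℕ → ℕ → ℝ) (v : ℕ) :
    Continuous fun ε => place B η ε v := by
  unfold place
  split_ifs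
  · exact continuous_const
  · unfold vtx
    refine continuous_pi fun k => ?_
    fin_cases k
    · simp only [Fin.zero_eta, Matrix.cons_val_zero]
      fun_prop
    · simp only [Fin.mk_one, Matrix.cons_val_one]
      fun_prop
    · simp only [Fin.reduceFinMk, Matrix.cons_val]
      fun_prop
    · simp only [Fin.reduceFinMk, Matrix.cons_val]
      fun_prop
    · simp only [Fin.reduceFinMk, Matrix.cons_val]
      fun_prop

/-- Pairs which are separated for `ε = 0`. -/
theorem Base.sep_far (hB : Base M N B η γ) {F G : List ℕ} {A A' : Finset ℕ}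
    (hF : ∀ v ∈ F, base v ∈ A) (hG : ∀ v ∈ G, base v ∈ A') (hA : Disjoint A A')
    (hcard : (A ∪ A').card ≤ 5) (hlt : ∀ v ∈ A ∪ A', v < N) :
    ∀ᶠ ε in 𝓝[>] (0 : ℝ), ∃ φ : (Fin 5 → ℝ) →ₗ[ℝ] ℝ, (∀ v ∈ F, 0 < φ (place B η ε v)) ∧
      (∀ v ∈ G, φ (place B η ε v) < 0) := by
  have hN := hB.hN
  obtain ⟨φ, h1, h2⟩ := hB.gen.sep (by omega) hA hcard hlt
  have hc : ∀ v, Tendsto (fun ε => φ (place B η ε v)) (𝓝[>] 0) (𝓝 (φ (B (base v)))) := by
    intro v
    have h := (((continuous_lin φ).comp (continuous_place B η v)).tendsto 0).mono_left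
      (nhdsWithin_le_nhds (s := Set.Ioi 0))
    simp only [Function.comp_apply, place_zero] at h
    exact h
  have e1 : ∀ᶠ ε in 𝓝[>] (0 : ℝ), ∀ v ∈ F, 0 < φ (place B η ε v) :=
    eventually_list F fun v hv => (hc v).eventually_const_lt (h1 _ (hF v hv))
  have e2 : ∀ᶠ ε in 𝓝[>] (0 : ℝ), ∀ v ∈ G, φ (place B η ε v) < 0 :=
    eventually_list G fun v hv => (hc v).eventually_lt_const (h2 _ (hG v hv))
  filter_upwards [e1, e2] with ε h3 h4
  exact ⟨φ, h3, h4⟩

theorem Base.sep_pair (hB : Base M N B η γ) {F G : List ℕ} (hF : F ∈ KM M) (hG : G ∈ KM M)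
    (hFG : ∀ v ∈ F, v ∉ G) :
    ∀ᶠ ε in 𝓝[>] (0 : ℝ), ∃ φ : (Fin 5 → ℝ) →ₗ[ℝ] ℝ, (∀ v ∈ F, 0 < φ (place B η ε v)) ∧
      (∀ v ∈ G, φ (place B η ε v) < 0) := by
  have hN := hB.hN
  obtain ⟨j, hj, i, F', hF', hF1, hF2⟩ := exists_rep hF
  obtain ⟨j', hj', i', G', hG', hG1, hG2⟩ := exists_rep hG
  by_cases hjj : j = j'
  · subst hjj
    have hdis : ∀ q ∈ F', q ∉ G' := by
      have hlow : ∀ q < 16, q ∈ F' → q ∉ G' := by
        intro q hq h1 h2
        obtain ⟨v, hv, hr⟩ := hF2 q h1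
        obtain ⟨v', hv', hr'⟩ := hG2 q h2
        have e1 : v = enc j q := by
          rcases hr with ⟨-, h⟩ | ⟨h, -⟩ | ⟨h, -⟩
          · exact h
          · omega
          · omega
        have e2 : v' = enc j q := by
          rcases hr' with ⟨-, h⟩ | ⟨h, -⟩ | ⟨h, -⟩
          · exact h
          · omega
          · omega
        rw [e1] at hv
        rw [e2] at hv'
        exact hFG _ hv hv'
      intro q h1 h2
      have hq := loc'_lt F' hF' q h1
      by_cases h16 : q < 16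
      · exact hlow q h16 h1 h2
      · rcases (show q = 16 ∨ q = 17 by omega) with rfl | rfl
        · exact hlow 5 (by norm_num) (loc'_16 _ hF' h1) (loc'_16 _ hG' h2)
        · exact hlow 10 (by norm_num) (loc'_17 _ hF' h1) (loc'_17 _ hG' h2)
    obtain ⟨φ, h1, h2⟩ := exists_cert F' hF' G' hG' hdis
    have e1 : ∀ᶠ ε in 𝓝[>] (0 : ℝ), ∀ v ∈ F,
        0 < Phi (B (2 * j + 1)) (η j) (γ j) ε φ (place B η ε v) := by
      refine eventually_list F fun v hv => ?_
      obtain ⟨q, hq, hr⟩ := hF1 v hv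
      exact (hB.side hj hr φ).1 (h1 q hq)
    have e2 : ∀ᶠ ε in 𝓝[>] (0 : ℝ), ∀ v ∈ G,
        Phi (B (2 * j + 1)) (η j) (γ j) ε φ (place B η ε v) < 0 := by
      refine eventually_list G fun v hv => ?_
      obtain ⟨q, hq, hr⟩ := hG1 v hv
      exact (hB.side hj hr φ).2 (h2 q hq)
    filter_upwards [e1, e2] with ε h3 h4
    exact ⟨_, h3, h4⟩
  · -- different columns
    by_cases hi1 : ∃ v ∈ F, v = 2 * i ∧ i < M.length
    · obtain ⟨v, hv, rfl, hi⟩ := hi1
      by_cases hi2 : ∃ v ∈ G, v = 2 * i' ∧ i' < M.length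
      · obtain ⟨v', hv', rfl, hi'⟩ := hi2
        have hii : i ≠ i' := by
          rintro rfl
          exact hFG _ hv hv'
        refine hB.sep_far (A := {2 * i, 2 * j + 1}) (A' := {2 * i', 2 * j' + 1})
          (fun v hv => ?_) (fun v hv => ?_) ?_ ?_ ?_
        · obtain ⟨q, -, hr⟩ := hF1 v hv
          rw [mem_insert, mem_singleton]
          exact hr.base.imp (fun h => h.1) id
        · obtain ⟨q, -, hr⟩ := hG1 v hv
          rw [mem_insert, mem_singleton]
          exact hr.base.imp (fun h => h.1) id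
        · rw [disjoint_left]
          intro a ha ha'
          simp only [mem_insert, mem_singleton] at ha ha'
          omega
        · refine (card_union_le _ _).trans ?_
          have a1 := card_le_two (a := 2 * i) (b := 2 * j + 1)
          have a2 := card_le_two (a := 2 * i') (b := 2 * j' + 1)
          omega
        · intro a ha
          simp only [mem_union, mem_insert, mem_singleton] at ha
          omega
      · refine hB.sep_far (A := {2 * i, 2 * j + 1}) (A' := {2 * j' + 1})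
          (fun v hv => ?_) (fun v hv => ?_) ?_ ?_ ?_
        · obtain ⟨q, -, hr⟩ := hF1 v hv
          rw [mem_insert, mem_singleton]
          exact hr.base.imp (fun h => h.1) id
        · obtain ⟨q, -, hr⟩ := hG1 v hv
          rw [mem_singleton]
          rcases hr.base with h | h
          · exact absurd ⟨v, hv, h.2⟩ hi2
          · exact h
        · rw [disjoint_left]
          intro a ha ha'
          simp only [mem_insert, mem_singleton] at ha ha'
          omega
        · refine (card_union_le _ _).trans ?_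
          have a1 := card_le_two (a := 2 * i) (b := 2 * j + 1)
          rw [card_singleton]
          omega
        · intro a ha
          simp only [mem_union, mem_insert, mem_singleton] at ha
          omega
    · by_cases hi2 : ∃ v ∈ G, v = 2 * i' ∧ i' < M.length
      · obtain ⟨v', hv', rfl, hi'⟩ := hi2
        refine hB.sep_far (A := {2 * j + 1}) (A' := {2 * i', 2 * j' + 1})
          (fun v hv => ?_) (fun v hv => ?_) ?_ ?_ ?_
        · obtain ⟨q, -, hr⟩ := hF1 v hv
          rw [mem_singleton]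
          rcases hr.base with h | h
          · exact absurd ⟨v, hv, h.2⟩ hi1
          · exact h
        · obtain ⟨q, -, hr⟩ := hG1 v hv
          rw [mem_insert, mem_singleton]
          exact hr.base.imp (fun h => h.1) id
        · rw [disjoint_left]
          intro a ha ha'
          simp only [mem_insert, mem_singleton] at ha ha'
          omega
        · refine (card_union_le _ _).trans ?_
          have a1 := card_le_two (a := 2 * i') (b := 2 * j' + 1)
          rw [card_singleton]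
          omega
        · intro a ha
          simp only [mem_union, mem_insert, mem_singleton] at ha
          omega
      · refine hB.sep_far (A := {2 * j + 1}) (A' := {2 * j' + 1})
          (fun v hv => ?_) (fun v hv => ?_) ?_ ?_ ?_
        · obtain ⟨q, -, hr⟩ := hF1 v hv
          rw [mem_singleton]
          rcases hr.base with h | h
          · exact absurd ⟨v, hv, h.2⟩ hi1
          · exact h
        · obtain ⟨q, -, hr⟩ := hG1 v hv
          rw [mem_singleton]
          rcases hr.base with h | h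
          · exact absurd ⟨v, hv, h.2⟩ hi2
          · exact h
        · rw [disjoint_left]
          intro a ha ha'
          simp only [mem_singleton] at ha ha'
          omega
        · refine (card_union_le _ _).trans ?_
          rw [card_singleton, card_singleton]
          omega
        · intro a ha
          simp only [mem_union, mem_singleton] at ha
          omega

/-- The complex is embedded near the base configuration. -/
theorem Base.exists_sep (hB : Base M N B η γ) : ∃ g : ℕ → Fin 5 → ℝ, Sep (KM M) g ∧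
    ∀ v ∈ verts (KM M), 0 < g v 4 := by
  have h1 : ∀ᶠ ε in 𝓝[>] (0 : ℝ), Sep (KM M) (place B η ε) := by
    refine eventually_list _ fun F hF => eventually_list _ fun G hG => ?_
    by_cases hFG : ∀ v ∈ F, v ∉ G
    · filter_upwards [hB.sep_pair hF hG hFG] with ε h _ using h
    · exact Eventually.of_forall fun ε h => absurd h hFG
  obtain ⟨ε, hε⟩ := h1.exists
  refine ⟨place B η ε, hε, fun v hv => ?_⟩
  have hN := hB.hN
  obtain ⟨F, hF, hvF⟩ := mem_verts.1 hv
  obtain ⟨j, hj, i, F', hF', hF1, hF2⟩ := exists_rep hF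
  obtain ⟨q, -, hr⟩ := hF1 v hvF
  rcases hr with ⟨hq, rfl⟩ | ⟨rfl, rfl, hi, he⟩ | ⟨rfl, rfl, hi, he⟩
  · rw [place_enc _ _ _ _ hq]
    exact hB.pos _ (by omega)
  · rw [place_even]
    exact hB.pos _ (by omega)
  · rw [place_even]
    exact hB.pos _ (by omega)

/-- A base configuration. -/
theorem exists_base {m : ℕ} (hM : Rect m M) (h : SRN 4 M) :
    ∃ N B η γ, Base M N B η γ := by
  obtain ⟨y, η, c, hη, hs⟩ := h
  set N : ℕ := 2 * M.length + 2 * wid M + 5 with hN
  let B0 : ℕ → Fin 5 → ℝ := fun v => if v % 2 = 0 then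
    ![y (v / 2) 0, y (v / 2) 1, y (v / 2) 2, y (v / 2) 3, 1] else
    ![- c (v / 2) / η (v / 2) 0, 0, 0, 0, 1]
  let G : (ℕ → Fin 5 → ℝ) → ℕ → ℝ := fun B j =>
    - (η j 0 * B (2 * j + 1) 0 + η j 1 * B (2 * j + 1) 1 + η j 2 * B (2 * j + 1) 2 +
      η j 3 * B (2 * j + 1) 3) / B (2 * j + 1) 4
  have hB04 : ∀ v, B0 v 4 = 1 := by
    intro v
    simp only [B0]
    split_ifs <;> rfl
  have hG0 : ∀ j, G B0 j = c j := by
    intro j
    have e : B0 (2 * j + 1) = ![- c j / η j 0, 0, 0, 0, 1] := by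
      simp only [B0]
      rw [if_neg (by omega), show (2 * j + 1) / 2 = j by omega]
    simp only [G, e, Matrix.cons_val]
    have := (hη j).ne'
    field_simp
    ring
  have hBeven : ∀ i, B0 (2 * i) = ![y i 0, y i 1, y i 2, y i 3, 1] := by
    intro i
    simp only [B0]
    rw [if_pos (by omega), show 2 * i / 2 = i by omega]
  have hcoord : ∀ (v : ℕ) (k : Fin 5), ContinuousAt (fun B : ℕ → Fin 5 → ℝ => B v k) B0 :=
    fun v k => ((continuous_apply k).comp (continuous_apply v)).continuousAt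
  have h1 : ∀ᶠ B in 𝓝 B0, ∀ v ∈ List.range N, 0 < B v 4 := by
    refine eventually_list _ fun v _ => ?_
    refine (hcoord v 4).eventually_const_lt ?_
    beta_reduce
    rw [hB04]
    exact one_pos
  have h2 : ∀ᶠ B in 𝓝 B0, ∀ i ∈ List.range M.length, ∀ j ∈ List.range (wid M),
      0 < sgn (ent M i j) * hh (η j) (G B j) (B (2 * i)) := by
    refine eventually_list _ fun i hi => eventually_list _ fun j hj => ?_
    rw [List.mem_range] at hi hj
    have hcont : ContinuousAt (fun B : ℕ → Fin 5 → ℝ =>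
        sgn (ent M i j) * hh (η j) (G B j) (B (2 * i))) B0 := by
      have hd : B0 (2 * j + 1) 4 ≠ 0 := by rw [hB04]; exact one_ne_zero
      simp only [hh, G]
      refine continuousAt_const.mul ?_
      refine ContinuousAt.add (ContinuousAt.add (ContinuousAt.add (ContinuousAt.add
        (continuousAt_const.mul (hcoord _ _)) (continuousAt_const.mul (hcoord _ _)))
        (continuousAt_const.mul (hcoord _ _))) (continuousAt_const.mul (hcoord _ _))) ?_
      refine ContinuousAt.mul (ContinuousAt.div (ContinuousAt.neg ?_) (hcoord _ _) hd)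
        (hcoord _ _)
      exact ContinuousAt.add (ContinuousAt.add (ContinuousAt.add
        (continuousAt_const.mul (hcoord _ _)) (continuousAt_const.mul (hcoord _ _)))
        (continuousAt_const.mul (hcoord _ _))) (continuousAt_const.mul (hcoord _ _))
    refine hcont.eventually_const_lt ?_
    have hj' : j < M[i].length := by rwa [wid_eq hM hi]
    have h3 := hs i hi j hj'
    rw [← ent_eq hi hj'] at h3
    beta_reduce
    rw [hG0, hBeven]
    simp only [hh, Matrix.cons_val]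
    rw [sum_range_succ, sum_range_succ, sum_range_succ, sum_range_one] at h3
    have e : η j 0 * y i 0 + η j 1 * y i 1 + η j 2 * y i 2 + η j 3 * y i 3 + c j * 1 =
        c j + (y i 0 * η j 0 + y i 1 * η j 1 + y i 2 * η j 2 + y i 3 * η j 3) := by ring
    rw [e]
    exact h3
  have h3 : ∀ᶠ s in 𝓝[≠] (0 : ℝ), (∀ v ∈ List.range N, 0 < path B0 s v 4) ∧
      ∀ i ∈ List.range M.length, ∀ j ∈ List.range (wid M),
      0 < sgn (ent M i j) * hh (η j) (G (path B0 s) j) (path B0 s (2 * i)) :=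
    nhdsWithin_le_nhds ((tendsto_path B0).eventually (h1.and h2))
  obtain ⟨s, ⟨hs1, hs2⟩, hs3⟩ := (h3.and (eventually_generic B0 N)).exists
  refine ⟨N, path B0 s, η, G (path B0 s), ⟨hs3, hη, fun v hv => hs1 v (List.mem_range.2 hv),
    fun j hj => ?_, fun i hi j hj => hs2 i (List.mem_range.2 hi) j (List.mem_range.2 hj),
    le_refl _⟩⟩
  have hpos := (hs1 (2 * j + 1) (List.mem_range.2 (by omega))).ne'
  simp only [hh, G]
  field_simp
  ring

theorem length_KM : ∀ F ∈ KM M, F.length = 3 := by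
  intro F hF
  have hloc : ∀ F ∈ loc, F.length = 3 := by decide
  obtain ⟨j, hj, ⟨G, hG, rfl⟩ | ⟨i, hi, hF⟩⟩ := mem_KM.1 hF
  · rw [List.length_map]
    exact hloc G hG
  · unfold pagesAt at hF
    split_ifs at hF
    · rcases List.mem_cons.1 hF with rfl | hF
      · rfl
      · rw [List.mem_singleton] at hF
        rw [hF]
        rfl
    · rcases List.mem_cons.1 hF with rfl | hF
      · rfl
      · rw [List.mem_singleton] at hF
        rw [hF]
        rfl

end Ex

/-- A sign realization in dimension four gives an embedding of the complex. -/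
theorem affEmb_of_SRN {m : ℕ} {M : List (List Bool)} (hM : Rect m M) (h : SRN 4 M) :
    ∃ f : ℕ → Fin 4 → ℝ, AffEmb (KM M) f := by
  obtain ⟨N, B, η, γ, hB⟩ := Ex.exists_base hM h
  obtain ⟨g, hsep, hpos⟩ := hB.exists_sep
  set N' : ℕ := (verts (KM M)).sup id + 6 with hN'
  have hlt : ∀ F ∈ KM M, ∀ v ∈ F, v < N' := by
    intro F hF v hv
    have := Finset.le_sup (f := id) (mem_verts.2 ⟨F, hF, hv⟩)
    simp only [id] at this
    omega
  have h1 : ∀ᶠ g' in 𝓝 g, ∀ v ∈ (KM M).flatten, 0 < g' v 4 := by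
    refine eventually_list _ fun v hv => ?_
    have hc : ContinuousAt (fun g' : ℕ → Fin 5 → ℝ => g' v 4) g :=
      ((continuous_apply (4 : Fin 5)).comp (continuous_apply v)).continuousAt
    exact hc.eventually_const_lt (hpos v (by simpa [verts] using hv))
  have h2 : ∀ᶠ s in 𝓝[≠] (0 : ℝ), Sep (KM M) (path g s) ∧
      ∀ v ∈ (KM M).flatten, 0 < path g s v 4 :=
    nhdsWithin_le_nhds ((tendsto_path g).eventually (hsep.eventually.and h1))
  obtain ⟨s, ⟨hs1, hs2⟩, hs3⟩ := (h2.and (eventually_generic g N')).exists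
  have h3 : LinEmb (KM M) (path g s) := linEmb_of_sep hs1 hs3 (by omega)
    (fun F hF => (Ex.length_KM F hF).le) hlt
  exact h3.toAff fun v hv => hs2 v (by simpa [verts] using hv)

end Pool.Agent.H728
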