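import Pool.Agent.H728.Gad

/-!
# From an embedding to a sign realization

If the complex of a sign matrix has a spherical embedding in dimension four, then the matrix is the
sign pattern of a matrix of rank at most five.
-/

namespace Pool.Agent.H728

open Finset Pool.Agent.NPC.ER.Pat

section General

variable {V : Type*} [AddCommGroup V] [Module ℝ V]

/-- A dependency indexed by a finite type. -/
theorem LinEmb.fin {ι : Type*} [Fintype ι] {L : List (List ℕ)} {g : ℕ → V} (h : LinEmb L g)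
    (lab : ι → ℕ) (hlab : Function.Injective lab) (c : ι → ℝ)
    (hp : ∃ F ∈ L, ∀ i, 0 < c i → lab i ∈ F) (hn : ∃ F ∈ L, ∀ i, c i < 0 → lab i ∈ F)
    (h0 : ∑ i, c i • g (lab i) = 0) : c = 0 := by
  obtain ⟨F, hF, hp⟩ := hp
  obtain ⟨G, hG, hn⟩ := hn
  have key := h ((Finsupp.equivFunOnFinite.symm c).mapDomain lab) ⟨F, hF, fun v hv => ?_⟩
    ⟨G, hG, fun v hv => ?_⟩ ?_
  · have h1 : Finsupp.equivFunOnFinite.symm c = 0 :=
      Finsupp.mapDomain_injective hlab (by rw [key, Finsupp.mapDomain_zero])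
    funext i
    have := DFunLike.congr_fun h1 i
    simpa using this
  · by_cases hr : v ∈ Set.range lab
    · obtain ⟨i, rfl⟩ := hr
      rw [Finsupp.mapDomain_apply hlab] at hv
      exact hp i (by simpa using hv)
    · rw [Finsupp.mapDomain_of_notMem_range _ _ hr] at hv
      exact absurd hv (lt_irrefl _)
  · by_cases hr : v ∈ Set.range lab
    · obtain ⟨i, rfl⟩ := hr
      rw [Finsupp.mapDomain_apply hlab] at hv
      exact hn i (by simpa using hv)
    · rw [Finsupp.mapDomain_of_notMem_range _ _ hr] at hv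
      exact absurd hv (lt_irrefl _)
  · rw [Finsupp.linearCombination_mapDomain, Finsupp.linearCombination_apply,
      Finsupp.sum_fintype _ _ (by intro i; simp), ← h0]
    exact sum_congr rfl fun i _ => by simp

/-- The segment `u v` meets the interior of the tetrahedron `T`. -/
def Wd (T : Fin 4 → V) (u v : V) : Prop :=
  ∃ (p q : ℝ) (m : Fin 4 → ℝ), 0 < p ∧ 0 < q ∧ (∀ κ, 0 < m κ) ∧ p • u + q • v = ∑ κ, m κ • T κ

theorem Wd.symm {T : Fin 4 → V} {u v : V} (h : Wd T u v) : Wd T v u := by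
  obtain ⟨p, q, m, h1, h2, h3, h4⟩ := h
  exact ⟨q, p, m, h2, h1, h3, by rw [add_comm, h4]⟩

theorem wd_comm {T : Fin 4 → V} {u v : V} : Wd T u v ↔ Wd T v u := ⟨Wd.symm, Wd.symm⟩

/-- Coordinates with respect to a basis which consists of `T` and `e`. -/
structure Frame (T : Fin 4 → V) (e : V) (ℓ : V →ₗ[ℝ] ℝ) (τ : Fin 4 → V →ₗ[ℝ] ℝ) : Prop where
  dec : ∀ v, v = ∑ κ, τ κ v • T κ + ℓ v • e
  ell : ∀ κ, ℓ (T κ) = 0
  tau : ∀ κ κ', τ κ (T κ') = if κ = κ' then 1 else 0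

theorem exists_frame (hV : Module.finrank ℝ V = 5) {x : Fin 5 → V} (hx : LinearIndependent ℝ x) :
    ∃ (ℓ : V →ₗ[ℝ] ℝ) (τ : Fin 4 → V →ₗ[ℝ] ℝ), Frame (fun κ => x κ.castSucc) (x (Fin.last 4)) ℓ τ := by
  let B := basisOfLinearIndependentOfCardEqFinrank hx (by rw [hV, Fintype.card_fin])
  have hB : ∀ i, B i = x i := fun i => by
    rw [coe_basisOfLinearIndependentOfCardEqFinrank]
  refine ⟨B.coord (Fin.last 4), fun κ => B.coord κ.castSucc, fun v => ?_, fun κ => ?_,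
    fun κ κ' => ?_⟩
  · conv_lhs => rw [← B.sum_repr v, Fin.sum_univ_castSucc]
    simp only [hB, Module.Basis.coord_apply]
  · rw [← hB, Module.Basis.coord_apply, B.repr_self, Finsupp.single_apply, if_neg]
    exact (Fin.castSucc_lt_last κ).ne
  · rw [← hB, Module.Basis.coord_apply, B.repr_self, Finsupp.single_apply]
    simp only [Fin.castSucc_inj, eq_comm]

variable {T : Fin 4 → V} {e : V} {ℓ : V →ₗ[ℝ] ℝ} {τ : Fin 4 → V →ₗ[ℝ] ℝ}

theorem Frame.tau_sum (hf : Frame T e ℓ τ) (m : Fin 4 → ℝ) (κ : Fin 4) :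
    τ κ (∑ κ', m κ' • T κ') = m κ := by
  rw [map_sum]
  simp only [map_smul, hf.tau, smul_eq_mul, mul_ite, mul_one, mul_zero]
  rw [sum_ite_eq]
  simp

theorem Frame.ell_sum (hf : Frame T e ℓ τ) (m : Fin 4 → ℝ) : ℓ (∑ κ', m κ' • T κ') = 0 := by
  rw [map_sum]
  simp only [map_smul, hf.ell, smul_zero, sum_const_zero]

theorem Frame.smul_dec (hf : Frame T e ℓ τ) (c : ℝ) (v : V) :
    c • v = ∑ κ, (c * τ κ v) • T κ + (c * ℓ v) • e := by
  conv_lhs => rw [hf.dec v]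
  simp only [smul_add, smul_sum, smul_smul]

theorem opp_abs {a b p q : ℝ} (ha : a ≠ 0) (hp : 0 < p) (hq : 0 < q)
    (h : p * a + q * b = 0) : a * b < 0 ∧ p * |a| = q * |b| := by
  have hb : b = - (p * a) / q := by field_simp; linarith
  have h1 : a * b = - (p / q * (a * a)) := by rw [hb]; field_simp
  constructor
  · rw [h1]
    have := mul_self_pos.2 ha
    have : 0 < p / q * (a * a) := by positivity
    linarith
  · have h2 : p * a = - (q * b) := by linarith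
    have h3 : |p * a| = p * |a| := by rw [abs_mul, abs_of_pos hp]
    have h4 : |q * b| = q * |b| := by rw [abs_mul, abs_of_pos hq]
    rw [← h3, ← h4, h2, abs_neg]

theorem norm_add {a b : ℝ} (h : a * b < 0) : |a|⁻¹ * a + |b|⁻¹ * b = 0 := by
  rcases mul_neg_iff.1 h with ⟨h1, h2⟩ | ⟨h1, h2⟩
  · rw [abs_of_pos h1, abs_of_neg h2, inv_mul_cancel₀ h1.ne', inv_neg, neg_mul,
      inv_mul_cancel₀ h2.ne]
    norm_num
  · rw [abs_of_neg h1, abs_of_pos h2, inv_mul_cancel₀ h2.ne', inv_neg, neg_mul,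
      inv_mul_cancel₀ h1.ne]
    norm_num

theorem Frame.wd_iff (hf : Frame T e ℓ τ) {u v : V} (hu : ℓ u ≠ 0) (hv : ℓ v ≠ 0) :
    Wd T u v ↔ ℓ u * ℓ v < 0 ∧ ∀ κ, 0 < |ℓ u|⁻¹ * τ κ u + |ℓ v|⁻¹ * τ κ v := by
  constructor
  · rintro ⟨p, q, m, hp, hq, hm, h⟩
    have h1 : p * ℓ u + q * ℓ v = 0 := by
      have := congrArg ℓ h
      rw [hf.ell_sum, map_add, map_smul, map_smul] at this
      exact this
    obtain ⟨h2, h3⟩ := opp_abs hu hp hq h1
    refine ⟨h2, fun κ => ?_⟩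
    have h4 : p * τ κ u + q * τ κ v = m κ := by
      have := congrArg (τ κ) h
      rw [hf.tau_sum, map_add, map_smul, map_smul] at this
      exact this
    have hu' := abs_pos.2 hu
    have hv' := abs_pos.2 hv
    have h5 : (p * |ℓ u|) * (|ℓ u|⁻¹ * τ κ u + |ℓ v|⁻¹ * τ κ v) = m κ := by
      rw [mul_add]
      conv_lhs =>
        arg 2
        rw [h3]
      rw [← h4]
      field_simp
    have h6 : 0 < p * |ℓ u| := mul_pos hp hu'
    by_contra hn
    have := mul_nonpos_of_nonneg_of_nonpos h6.le (not_lt.1 hn)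
    rw [h5] at this
    exact absurd (hm κ) (not_lt.2 this)
  · rintro ⟨h1, h2⟩
    refine ⟨|ℓ u|⁻¹, |ℓ v|⁻¹, fun κ => |ℓ u|⁻¹ * τ κ u + |ℓ v|⁻¹ * τ κ v,
      inv_pos.2 (abs_pos.2 hu), inv_pos.2 (abs_pos.2 hv), h2, ?_⟩
    rw [hf.smul_dec _ u, hf.smul_dec _ v]
    have h3 := norm_add h1
    have h4 : (|ℓ u|⁻¹ * ℓ u) • e + (|ℓ v|⁻¹ * ℓ v) • e = 0 := by
      rw [← add_smul, h3, zero_smul]
    rw [add_add_add_comm, h4, add_zero, ← sum_add_distrib]
    exact sum_congr rfl fun κ _ => (add_smul _ _ _).symm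

/-- The hypothesis that the triangle `x y z` does not meet the faces of the tetrahedron. -/
def NoHit (T : Fin 4 → V) (x y z : V) : Prop :=
  ∀ (p q r : ℝ) (m : Fin 4 → ℝ) (κ : Fin 4), 0 ≤ p → 0 ≤ q → 0 ≤ r → (∀ κ, 0 ≤ m κ) → m κ = 0 →
    p • x + q • y + r • z = ∑ κ, m κ • T κ → p = 0 ∧ q = 0 ∧ r = 0

theorem NoHit.swap12 {x y z : V} (h : NoHit T x y z) : NoHit T y x z := by
  intro p q r m κ hp hq hr hm hk hs
  obtain ⟨a, b, c⟩ := h q p r m κ hq hp hr hm hk (by rw [← hs]; abel)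
  exact ⟨b, a, c⟩

theorem NoHit.swap23 {x y z : V} (h : NoHit T x y z) : NoHit T x z y := by
  intro p q r m κ hp hq hr hm hk hs
  obtain ⟨a, b, c⟩ := h p r q m κ hp hr hq hm hk (by rw [← hs]; abel)
  exact ⟨a, c, b⟩

/-- The segment between two crossing points does not leave the tetrahedron. -/
theorem Frame.move (hf : Frame T e ℓ τ) {x y z : V} (hx : ℓ x ≠ 0) (hy : ℓ y ≠ 0) (hz : ℓ z ≠ 0)
    (hyz : ℓ y * ℓ z < 0) (hno : NoHit T x y z) (h : Wd T x z) :
    Wd T y z := by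
  rw [hf.wd_iff hx hz] at h
  obtain ⟨hxz, hpos⟩ := h
  rw [hf.wd_iff hy hz]
  refine ⟨hyz, ?_⟩
  by_contra hn
  push Not at hn
  obtain ⟨κ0, hκ0⟩ := hn
  set P : Fin 4 → ℝ := fun κ => |ℓ x|⁻¹ * τ κ x + |ℓ z|⁻¹ * τ κ z with hP
  set Q : Fin 4 → ℝ := fun κ => |ℓ y|⁻¹ * τ κ y + |ℓ z|⁻¹ * τ κ z with hQ
  obtain ⟨κ, hκ, hmin⟩ := exists_min_image (univ.filter fun κ => Q κ ≤ 0)
    (fun κ => P κ / (P κ - Q κ)) ⟨κ0, by rw [mem_filter]; exact ⟨mem_univ _, hκ0⟩⟩
  rw [mem_filter] at hκ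
  have hκQ := hκ.2
  have hpos' : ∀ κ, 0 < P κ := hpos
  set θ : ℝ := P κ / (P κ - Q κ) with hθ
  have hd : 0 < P κ - Q κ := by have := hpos' κ; linarith
  have hθ0 : 0 < θ := div_pos (hpos' κ) hd
  have hθ1 : θ ≤ 1 := by rw [hθ, div_le_one hd]; linarith
  have hm0 : ∀ κ', 0 ≤ (1 - θ) * P κ' + θ * Q κ' := by
    intro κ'
    by_cases hQ' : Q κ' ≤ 0
    · have h1 := hmin κ' (by rw [mem_filter]; exact ⟨mem_univ _, hQ'⟩)
      have hd' : 0 < P κ' - Q κ' := by have := hpos' κ'; linarith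
      rw [le_div_iff₀ hd'] at h1
      nlinarith
    · have h1 := hpos' κ'
      have h2 := not_le.1 hQ'
      have h3 : 0 ≤ (1 - θ) * P κ' := mul_nonneg (by linarith) h1.le
      have h4 : 0 ≤ θ * Q κ' := mul_nonneg hθ0.le h2.le
      linarith
  have hmκ : (1 - θ) * P κ + θ * Q κ = 0 := by
    have : θ * (P κ - Q κ) = P κ := div_mul_cancel₀ _ hd.ne'
    linarith
  have key := hno ((1 - θ) * |ℓ x|⁻¹) (θ * |ℓ y|⁻¹) |ℓ z|⁻¹
    (fun κ => (1 - θ) * P κ + θ * Q κ) κ (mul_nonneg (by linarith) (inv_nonneg.2 (abs_nonneg _)))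
    (mul_nonneg hθ0.le (inv_nonneg.2 (abs_nonneg _))) (inv_nonneg.2 (abs_nonneg _)) hm0 hmκ ?_
  · have := key.2.2
    rw [inv_eq_zero, abs_eq_zero] at this
    exact hz this
  · rw [hf.smul_dec _ x, hf.smul_dec _ y, hf.smul_dec _ z]
    have h3 := norm_add hxz
    have h3' := norm_add hyz
    have h4 : ((1 - θ) * |ℓ x|⁻¹ * ℓ x) • e + (θ * |ℓ y|⁻¹ * ℓ y) • e + (|ℓ z|⁻¹ * ℓ z) • e = 0 := by
      rw [← add_smul, ← add_smul]
      have : (1 - θ) * |ℓ x|⁻¹ * ℓ x + θ * |ℓ y|⁻¹ * ℓ y + |ℓ z|⁻¹ * ℓ z =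
          (1 - θ) * (|ℓ x|⁻¹ * ℓ x + |ℓ z|⁻¹ * ℓ z) + θ * (|ℓ y|⁻¹ * ℓ y + |ℓ z|⁻¹ * ℓ z) := by ring
      rw [this, h3, h3', mul_zero, mul_zero, add_zero, zero_smul]
    have h5 : ∀ κ, ((1 - θ) * P κ + θ * Q κ) • T κ = ((1 - θ) * |ℓ x|⁻¹ * τ κ x) • T κ +
        (θ * |ℓ y|⁻¹ * τ κ y) • T κ + (|ℓ z|⁻¹ * τ κ z) • T κ := by
      intro κ
      rw [← add_smul, ← add_smul]
      congr 1
      simp only [hP, hQ]
      ring
    simp only [h5, sum_add_distrib]
    rw [show ∀ a b c a' b' c' : V, (a + a') + (b + b') + (c + c') = (a + b + c) + (a' + b' + c') by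
      intros; abel, h4, add_zero]

open Classical in
/-- The linking number of an edge. -/
noncomputable def wb (T : Fin 4 → V) (u v : V) : Bool := decide (Wd T u v)

theorem wb_true {u v : V} : wb T u v = true ↔ Wd T u v := by
  simp [wb]

theorem wb_comm {u v : V} : wb T u v = wb T v u := by
  rw [Bool.eq_iff_iff, wb_true, wb_true, wd_comm]

theorem Frame.wb_eq (hf : Frame T e ℓ τ) {x y z : V} (hx : ℓ x ≠ 0) (hy : ℓ y ≠ 0) (hz : ℓ z ≠ 0)
    (hxz : ℓ x * ℓ z < 0) (hyz : ℓ y * ℓ z < 0) (hno : NoHit T x y z) : wb T x z = wb T y z := by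
  rw [Bool.eq_iff_iff, wb_true, wb_true]
  exact ⟨hf.move hx hy hz hyz hno, hf.move hy hx hz hxz hno.swap12⟩

theorem Frame.wb_false (hf : Frame T e ℓ τ) {x y : V} (hx : ℓ x ≠ 0) (hy : ℓ y ≠ 0)
    (hxy : 0 < ℓ x * ℓ y) : wb T x y = false := by
  rw [← Bool.not_eq_true, wb_true, hf.wd_iff hx hy]
  exact fun h => absurd h.1 (not_lt.2 hxy.le)

/-- The linking numbers of the edges of a triangle add up to zero. -/
theorem Frame.tri (hf : Frame T e ℓ τ) {x y z : V} (hx : ℓ x ≠ 0) (hy : ℓ y ≠ 0) (hz : ℓ z ≠ 0)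
    (hno : NoHit T x y z) : xor (xor (wb T x y) (wb T y z)) (wb T x z) = false := by
  rcases lt_or_gt_of_ne (mul_ne_zero hx hy) with hxy | hxy
  · rcases lt_or_gt_of_ne (mul_ne_zero hy hz) with hyz | hyz
    · -- y is alone
      have hxz : 0 < ℓ x * ℓ z := by
        rcases lt_or_gt_of_ne (mul_ne_zero hx hz) with h | h
        · exfalso
          have h1 := mul_pos_of_neg_of_neg (mul_neg_of_neg_of_pos hxy (mul_self_pos.2 hz)) hyz
          nlinarith [mul_pos_of_neg_of_neg hxy hyz, mul_self_pos.2 hy]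
        · exact h
      rw [hf.wb_false hx hz hxz, wb_comm (u := y) (v := z),
        hf.wb_eq hx hz hy hxy (by rwa [mul_comm]) hno.swap23]
      simp
    · -- x is alone
      have hxz : ℓ x * ℓ z < 0 := by
        rcases lt_or_gt_of_ne (mul_ne_zero hx hz) with h | h
        · exact h
        · exfalso
          nlinarith [mul_pos hyz h, mul_self_pos.2 hz]
      rw [hf.wb_false hy hz hyz, wb_comm (u := x) (v := y), wb_comm (u := x) (v := z),
        hf.wb_eq hy hz hx (by rwa [mul_comm]) (by rwa [mul_comm]) hno.swap12.swap23]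
      simp
  · rcases lt_or_gt_of_ne (mul_ne_zero hy hz) with hyz | hyz
    · -- z is alone
      have hxz : ℓ x * ℓ z < 0 := by
        rcases lt_or_gt_of_ne (mul_ne_zero hx hz) with h | h
        · exact h
        · exfalso
          nlinarith [mul_pos hxy h, mul_self_pos.2 hx]
      rw [hf.wb_false hx hy hxy, hf.wb_eq hx hy hz hxz hyz hno]
      simp
    · have hxz : 0 < ℓ x * ℓ z := by
        rcases lt_or_gt_of_ne (mul_ne_zero hx hz) with h | h
        · exfalso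
          nlinarith [mul_pos hxy hyz, mul_self_pos.2 hy]
        · exact h
      rw [hf.wb_false hx hy hxy, hf.wb_false hy hz hyz, hf.wb_false hx hz hxz]
      simp

end General

end Pool.Agent.H728
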