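import Pool.Agent.H728.Force

/-!
# From an embedding to a sign realization, second part
-/

namespace Pool.Agent.H728

open Finset Pool.Agent.NPC.ER.Pat

theorem LinEmb.noHit {V : Type*} [AddCommGroup V] [Module ℝ V] {L : List (List ℕ)} {g : ℕ → V}
    (h : LinEmb L g) (tv : Fin 4 → ℕ) (htv : Function.Injective tv)
    (hT : ∀ κ, ∃ F ∈ L, ∀ κ', κ' ≠ κ → tv κ' ∈ F) {u v w : ℕ} (huv : u ≠ v) (hvw : v ≠ w)
    (huw : u ≠ w) (hu : ∀ κ, tv κ ≠ u) (hv : ∀ κ, tv κ ≠ v) (hw : ∀ κ, tv κ ≠ w)
    (hF : ∃ F ∈ L, u ∈ F ∧ v ∈ F ∧ w ∈ F) :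
    NoHit (fun κ => g (tv κ)) (g u) (g v) (g w) := by
  intro p q r m κ hp hq hr hm hk hs
  have hinj : Function.Injective (Sum.elim tv ![u, v, w]) := by
    refine Function.Injective.sumElim htv ?_ ?_
    · intro a b hab
      fin_cases a <;> fin_cases b <;> simp_all
    · intro κ b
      fin_cases b
      · exact hu κ
      · exact hv κ
      · exact hw κ
  obtain ⟨G, hG, hGT⟩ := hT κ
  obtain ⟨F, hF, hFu, hFv, hFw⟩ := hF
  have key := h.fin (ι := Fin 4 ⊕ Fin 3) (Sum.elim tv ![u, v, w]) hinj
    (Sum.elim (fun κ => - m κ) ![p, q, r]) ⟨F, hF, ?_⟩ ⟨G, hG, ?_⟩ ?_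
  · have e0 := congrFun key (Sum.inr 0)
    have e1 := congrFun key (Sum.inr 1)
    have e2 := congrFun key (Sum.inr 2)
    exact ⟨e0, e1, e2⟩
  · rintro (κ' | b) hpos
    · simp only [Sum.elim_inl] at hpos
      have := hm κ'
      linarith
    · fin_cases b
      · exact hFu
      · exact hFv
      · exact hFw
  · rintro (κ' | b) hneg
    · refine hGT κ' ?_
      rintro rfl
      simp [hk] at hneg
    · exfalso
      fin_cases b
      · exact absurd hneg (not_lt.2 hp)
      · exact absurd hneg (not_lt.2 hq)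
      · exact absurd hneg (not_lt.2 hr)
  · rw [Fintype.sum_sum_type, Fin.sum_univ_three]
    simp only [Sum.elim_inl, Sum.elim_inr, neg_smul, sum_neg_distrib]
    rw [← hs]
    simp only [Matrix.cons_val_zero, Matrix.cons_val_one, Matrix.cons_val_two]
    exact neg_add_cancel _

theorem Gen.seven {N : ℕ} {g : ℕ → Fin 5 → ℝ} (hgen : Gen g N) (hN : 5 ≤ N) (lab : Fin 7 → ℕ)
    (hlab : Function.Injective lab) (hlt : ∀ i, lab i < N) (c : Fin 7 → ℝ)
    (h0 : ∑ v, c v • g (lab v) = 0) (u w : Fin 7) (huw : u ≠ w) (hu : c u = 0) (hw : c w = 0) :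
    c = 0 := by
  set S : Finset (Fin 7) := (univ.erase u).erase w with hS
  have hScard : S.card = 5 := by
    rw [hS, card_erase_of_mem (mem_erase.2 ⟨huw.symm, mem_univ _⟩), card_erase_of_mem (mem_univ _)]
    simp
  have h1 := hgen.finset (T := S.image lab) (by rw [card_image_of_injective _ hlab, hScard])
    (fun v hv => by
      obtain ⟨i, -, rfl⟩ := mem_image.1 hv
      exact hlt i) hN
  have h2 := h1.comp (fun i : S => (⟨lab i, mem_image_of_mem _ i.2⟩ : (S.image lab : Finset ℕ)))
    (fun a b hab => Subtype.ext (hlab (by simpa using hab)))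
  rw [Fintype.linearIndependent_iff] at h2
  have h3 := h2 (fun i => c i) (by
    simp only [Function.comp_apply]
    rw [sum_coe_sort S (fun i => c i • g (lab i)), ← h0]
    refine sum_subset (subset_univ _) fun v _ hv => ?_
    rw [hS, mem_erase, mem_erase] at hv
    have : v = u ∨ v = w := by
      by_contra hn
      push Not at hn
      exact hv ⟨hn.2, hn.1, mem_univ _⟩
    rcases this with rfl | rfl
    · rw [hu, zero_smul]
    · rw [hw, zero_smul])
  funext v
  by_cases hvu : v = u
  · rw [hvu, hu]; rfl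
  by_cases hvw : v = w
  · rw [hvw, hw]; rfl
  exact h3 ⟨v, by rw [hS, mem_erase, mem_erase]; exact ⟨hvw, hvu, mem_univ _⟩⟩

/-- The van Kampen obstruction. -/
theorem LinEmb.vk {N : ℕ} {L : List (List ℕ)} {g : ℕ → Fin 5 → ℝ} (h : LinEmb L g)
    (hgen : Gen g N) (hN : 5 ≤ N) (lab : Fin 7 → ℕ) (hlab : Function.Injective lab)
    (hlt : ∀ i, lab i < N)
    (hL : ∀ x y z : Fin 7, x ≠ y → x ≠ z → y ≠ z → ¬ (4 ≤ x ∧ 4 ≤ y ∧ 4 ≤ z) →
      ∃ F ∈ L, lab x ∈ F ∧ lab y ∈ F ∧ lab z ∈ F) {T : Fin 4 → Fin 5 → ℝ}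
    (hT : T = ![g (lab 0), g (lab 1), g (lab 2), g (lab 3)]) :
    xor (xor (wb T (g (lab 4)) (g (lab 5))) (wb T (g (lab 5)) (g (lab 6))))
      (wb T (g (lab 4)) (g (lab 6))) = true := by
  classical
  set a : Fin 7 → Bool := fun v => decide (4 ≤ v) with ha
  have hS : ∀ S : Finset (Fin 7), S.card = 3 → (∀ v, v ∈ S ↔ 4 ≤ v) ∨
      ∃ F ∈ L, ∀ v ∈ S, lab v ∈ F := by
    intro S hS
    obtain ⟨x, y, z, hxy, hxz, hyz, rfl⟩ := card_eq_three.1 hS
    by_cases hx : 4 ≤ x ∧ 4 ≤ y ∧ 4 ≤ z
    · left
      revert hxy hxz hyz hx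
      clear hS
      revert x y z
      decide +kernel
    · right
      obtain ⟨F, hF, h1, h2, h3⟩ := hL x y z hxy hxz hyz hx
      refine ⟨F, hF, fun v hv => ?_⟩
      simp only [mem_insert, mem_singleton] at hv
      rcases hv with rfl | rfl | rfl
      · exact h1
      · exact h2
      · exact h3
  have hodd := VK.parity (V := Fin 5 → ℝ) (by simp) (fun v => g (lab v))
    (fun c h0 u w huw hu hw => hgen.seven hN lab hlab hlt c h0 u w huw hu hw) a (by decide)
    (fun c h0 w hw hne hcard => by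
      have hcard' : (univ.filter fun v => c v < 0).card = 3 := by
        have e1 : (univ.filter fun v => c v < 0) = (univ.filter fun v => ¬ 0 < c v).erase w := by
          ext v
          simp only [mem_filter, mem_univ, true_and, mem_erase, not_lt]
          constructor
          · intro h1
            refine ⟨?_, h1.le⟩
            rintro rfl
            rw [hw] at h1
            exact lt_irrefl _ h1
          · rintro ⟨h1, h2⟩
            exact lt_of_le_of_ne h2 (hne v h1)
        have e2 := card_filter_add_card_filter_not (s := (univ : Finset (Fin 7)))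
          (fun v => 0 < c v)
        rw [hcard, card_univ, Fintype.card_fin] at e2
        rw [e1, card_erase_of_mem (by simp [hw])]
        omega
      rcases hS _ hcard with h1 | ⟨F, hF, h1⟩
      · simp only [mem_filter, mem_univ, true_and] at h1
        refine ⟨?_, Or.inl fun v _ => by simp [h1 v, ha]⟩
        simp only [ha, decide_eq_false_iff_not]
        rw [← h1 w, hw]
        exact lt_irrefl _
      rcases hS _ hcard' with h2 | ⟨G, hG, h2⟩
      · simp only [mem_filter, mem_univ, true_and] at h2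
        refine ⟨?_, Or.inr fun v hv => ?_⟩
        · simp only [ha, decide_eq_false_iff_not]
          rw [← h2 w, hw]
          exact lt_irrefl _
        · simp only [ha, decide_eq_false_iff_not]
          rw [← h2 v, not_lt]
          exact ⟨fun h => h.le, fun h => lt_of_le_of_ne h (hne v hv).symm⟩
      exfalso
      have h3 := h.fin lab hlab c ⟨F, hF, fun i hi => h1 i (by simp [hi])⟩
        ⟨G, hG, fun i hi => h2 i (by simp [hi])⟩ h0
      obtain ⟨v, hv⟩ := exists_ne w
      exact hne v hv (congrFun h3 v))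
  have hsum : ∀ p q r m0 m1 m2 m3 : ℝ,
      (∑ v, (![m0, m1, m2, m3, p, q, r] : Fin 7 → ℝ) v • g (lab v)) =
      m0 • g (lab 0) + m1 • g (lab 1) + m2 • g (lab 2) + m3 • g (lab 3) + p • g (lab 4) +
        q • g (lab 5) + r • g (lab 6) := by
    intro p q r m0 m1 m2 m3
    rw [Fin.sum_univ_seven]
    rfl
  have hsumT : ∀ m : Fin 4 → ℝ, ∑ κ, m κ • T κ = m 0 • g (lab 0) + m 1 • g (lab 1) +
      m 2 • g (lab 2) + m 3 • g (lab 3) := by
    intro m
    rw [Fin.sum_univ_four, hT]
    rfl
  have q4 : (∃ c : Fin 7 → ℝ, ∑ v, c v • g (lab v) = 0 ∧ c 4 = 0 ∧ ∀ v, v ≠ 4 → c v ≠ 0 ∧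
      (0 < c v ↔ a v = true)) ↔ Wd T (g (lab 5)) (g (lab 6)) := by
    constructor
    · rintro ⟨c, h0, h1, h2⟩
      have hneg : ∀ κ : Fin 7, κ < 4 → 0 < - c κ := by
        intro κ hκ
        have h3 := h2 κ hκ.ne
        have h4 : ¬ 0 < c κ := by
          rw [h3.2]
          simpa [ha] using hκ
        have := lt_of_le_of_ne (not_lt.1 h4) h3.1
        linarith
      refine ⟨c 5, c 6, ![- c 0, - c 1, - c 2, - c 3], (h2 5 (by decide)).2.2 (by decide),
        (h2 6 (by decide)).2.2 (by decide), fun κ => ?_, ?_⟩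
      · fin_cases κ
        · exact hneg 0 (by decide)
        · exact hneg 1 (by decide)
        · exact hneg 2 (by decide)
        · exact hneg 3 (by decide)
      · rw [Fin.sum_univ_seven, h1] at h0
        rw [hsumT]
        simp only [Matrix.cons_val]
        linear_combination (norm := module) h0
    · rintro ⟨p, q, m, hp, hq, hm, hs⟩
      refine ⟨![-m 0, -m 1, -m 2, -m 3, 0, p, q], ?_, rfl, fun v hv => ?_⟩
      · rw [hsum]
        rw [hsumT] at hs
        linear_combination (norm := module) hs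
      · have := hm 0
        have := hm 1
        have := hm 2
        have := hm 3
        fin_cases v
        · refine ⟨(neg_lt_zero.2 (hm 0)).ne, ?_⟩
          exact iff_of_false (not_lt.2 (neg_nonpos.2 (hm 0).le)) (by decide)
        · refine ⟨(neg_lt_zero.2 (hm 1)).ne, ?_⟩
          exact iff_of_false (not_lt.2 (neg_nonpos.2 (hm 1).le)) (by decide)
        · refine ⟨(neg_lt_zero.2 (hm 2)).ne, ?_⟩
          exact iff_of_false (not_lt.2 (neg_nonpos.2 (hm 2).le)) (by decide)
        · refine ⟨(neg_lt_zero.2 (hm 3)).ne, ?_⟩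
          exact iff_of_false (not_lt.2 (neg_nonpos.2 (hm 3).le)) (by decide)
        · exact absurd rfl hv
        · exact ⟨hp.ne', iff_of_true hp (by decide)⟩
        · exact ⟨hq.ne', iff_of_true hq (by decide)⟩
  have q5 : (∃ c : Fin 7 → ℝ, ∑ v, c v • g (lab v) = 0 ∧ c 5 = 0 ∧ ∀ v, v ≠ 5 → c v ≠ 0 ∧
      (0 < c v ↔ a v = true)) ↔ Wd T (g (lab 4)) (g (lab 6)) := by
    constructor
    · rintro ⟨c, h0, h1, h2⟩
      have hneg : ∀ κ : Fin 7, κ < 4 → 0 < - c κ := by
        intro κ hκ
        have h3 := h2 κ (by rintro rfl; exact absurd hκ (by decide))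
        have h4 : ¬ 0 < c κ := by
          rw [h3.2]
          simpa [ha] using hκ
        have := lt_of_le_of_ne (not_lt.1 h4) h3.1
        linarith
      refine ⟨c 4, c 6, ![- c 0, - c 1, - c 2, - c 3], (h2 4 (by decide)).2.2 (by decide),
        (h2 6 (by decide)).2.2 (by decide), fun κ => ?_, ?_⟩
      · fin_cases κ
        · exact hneg 0 (by decide)
        · exact hneg 1 (by decide)
        · exact hneg 2 (by decide)
        · exact hneg 3 (by decide)
      · rw [Fin.sum_univ_seven, h1] at h0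
        rw [hsumT]
        simp only [Matrix.cons_val]
        linear_combination (norm := module) h0
    · rintro ⟨p, q, m, hp, hq, hm, hs⟩
      refine ⟨![-m 0, -m 1, -m 2, -m 3, p, 0, q], ?_, rfl, fun v hv => ?_⟩
      · rw [hsum]
        rw [hsumT] at hs
        linear_combination (norm := module) hs
      · fin_cases v
        · refine ⟨(neg_lt_zero.2 (hm 0)).ne, ?_⟩
          exact iff_of_false (not_lt.2 (neg_nonpos.2 (hm 0).le)) (by decide)
        · refine ⟨(neg_lt_zero.2 (hm 1)).ne, ?_⟩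
          exact iff_of_false (not_lt.2 (neg_nonpos.2 (hm 1).le)) (by decide)
        · refine ⟨(neg_lt_zero.2 (hm 2)).ne, ?_⟩
          exact iff_of_false (not_lt.2 (neg_nonpos.2 (hm 2).le)) (by decide)
        · refine ⟨(neg_lt_zero.2 (hm 3)).ne, ?_⟩
          exact iff_of_false (not_lt.2 (neg_nonpos.2 (hm 3).le)) (by decide)
        · exact ⟨hp.ne', iff_of_true hp (by decide)⟩
        · exact absurd rfl hv
        · exact ⟨hq.ne', iff_of_true hq (by decide)⟩
  have q6 : (∃ c : Fin 7 → ℝ, ∑ v, c v • g (lab v) = 0 ∧ c 6 = 0 ∧ ∀ v, v ≠ 6 → c v ≠ 0 ∧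
      (0 < c v ↔ a v = true)) ↔ Wd T (g (lab 4)) (g (lab 5)) := by
    constructor
    · rintro ⟨c, h0, h1, h2⟩
      have hneg : ∀ κ : Fin 7, κ < 4 → 0 < - c κ := by
        intro κ hκ
        have h3 := h2 κ (by rintro rfl; exact absurd hκ (by decide))
        have h4 : ¬ 0 < c κ := by
          rw [h3.2]
          simpa [ha] using hκ
        have := lt_of_le_of_ne (not_lt.1 h4) h3.1
        linarith
      refine ⟨c 4, c 5, ![- c 0, - c 1, - c 2, - c 3], (h2 4 (by decide)).2.2 (by decide),
        (h2 5 (by decide)).2.2 (by decide), fun κ => ?_, ?_⟩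
      · fin_cases κ
        · exact hneg 0 (by decide)
        · exact hneg 1 (by decide)
        · exact hneg 2 (by decide)
        · exact hneg 3 (by decide)
      · rw [Fin.sum_univ_seven, h1] at h0
        rw [hsumT]
        simp only [Matrix.cons_val]
        linear_combination (norm := module) h0
    · rintro ⟨p, q, m, hp, hq, hm, hs⟩
      refine ⟨![-m 0, -m 1, -m 2, -m 3, p, q, 0], ?_, rfl, fun v hv => ?_⟩
      · rw [hsum]
        rw [hsumT] at hs
        linear_combination (norm := module) hs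
      · fin_cases v
        · refine ⟨(neg_lt_zero.2 (hm 0)).ne, ?_⟩
          exact iff_of_false (not_lt.2 (neg_nonpos.2 (hm 0).le)) (by decide)
        · refine ⟨(neg_lt_zero.2 (hm 1)).ne, ?_⟩
          exact iff_of_false (not_lt.2 (neg_nonpos.2 (hm 1).le)) (by decide)
        · refine ⟨(neg_lt_zero.2 (hm 2)).ne, ?_⟩
          exact iff_of_false (not_lt.2 (neg_nonpos.2 (hm 2).le)) (by decide)
        · refine ⟨(neg_lt_zero.2 (hm 3)).ne, ?_⟩
          exact iff_of_false (not_lt.2 (neg_nonpos.2 (hm 3).le)) (by decide)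
        · exact ⟨hp.ne', iff_of_true hp (by decide)⟩
        · exact ⟨hq.ne', iff_of_true hq (by decide)⟩
        · exact absurd rfl hv
  set R : Fin 7 → Prop := fun w => ∃ c : Fin 7 → ℝ, ∑ v, c v • g (lab v) = 0 ∧ c w = 0 ∧
      ∀ v, v ≠ w → c v ≠ 0 ∧ (0 < c v ↔ a v = true) with hR
  have e4 : wb T (g (lab 5)) (g (lab 6)) = decide (R 4) := by
    rw [Bool.eq_iff_iff, wb_true, decide_eq_true_iff]
    exact q4.symm
  have e5 : wb T (g (lab 4)) (g (lab 6)) = decide (R 5) := by
    rw [Bool.eq_iff_iff, wb_true, decide_eq_true_iff]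
    exact q5.symm
  have e6 : wb T (g (lab 4)) (g (lab 5)) = decide (R 6) := by
    rw [Bool.eq_iff_iff, wb_true, decide_eq_true_iff]
    exact q6.symm
  rw [e4, e5, e6]
  have hcount : (univ.filter fun w => a w = true ∧ R w).card =
      (if R 4 then 1 else 0) + (if R 5 then 1 else 0) + (if R 6 then 1 else 0) := by
    rw [card_filter, Fin.sum_univ_seven]
    have a0 : ¬ (a 0 = true) := by decide
    have a1 : ¬ (a 1 = true) := by decide
    have a2 : ¬ (a 2 = true) := by decide
    have a3 : ¬ (a 3 = true) := by decide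
    have a4 : a 4 = true := by decide
    have a5 : a 5 = true := by decide
    have a6 : a 6 = true := by decide
    simp only [a0, a1, a2, a3, a4, a5, a6, Bool.false_eq_true, false_and, true_and, if_false,
      zero_add]
  have hodd' : Odd ((if R 4 then 1 else 0) + (if R 5 then 1 else 0) + (if R 6 then 1 else 0)) := by
    rw [← hcount]
    convert hodd using 2
  by_cases h4 : R 4 <;> by_cases h5 : R 5 <;> by_cases h6 : R 6 <;>
    simp only [h4, h5, h6, if_true, if_false] at hodd' ⊢ <;> revert hodd' <;> decide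

end Pool.Agent.H728
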