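import Pool.Agent.H728.Force2

/-!
# From an embedding to a sign realization, third part
-/

namespace Pool.Agent.H728

open Finset Pool.Agent.NPC.ER.Pat

theorem enc_injective (j : ℕ) : Function.Injective (enc j) := by
  intro a b h
  unfold enc at h
  omega

theorem enc_inj {j q j' q' : ℕ} (hq : q < 16) (hq' : q' < 16) (h : enc j q = enc j' q') :
    j = j' ∧ q = q' := by
  unfold enc at h
  omega

theorem loc_tetra : ∀ κ : Fin 4, ∃ F ∈ loc, ∀ κ' : Fin 4, κ' ≠ κ → (κ' : ℕ) ∈ F := by
  decide +kernel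

theorem loc_seven : ∀ x y z : Fin 7, x ≠ y → x ≠ z → y ≠ z → ¬ (4 ≤ x ∧ 4 ≤ y ∧ 4 ≤ z) →
    ∃ F ∈ loc, [0, 1, 2, 3, 4, 10, 15].getD x.val 0 ∈ F ∧ [0, 1, 2, 3, 4, 10, 15].getD y.val 0 ∈ F ∧
      [0, 1, 2, 3, 4, 10, 15].getD z.val 0 ∈ F := by
  decide +kernel

theorem loc_lt : ∀ F ∈ loc, ∀ q ∈ F, q < 16 := by
  decide +kernel

theorem Gen.ell_ne {N : ℕ} {g : ℕ → Fin 5 → ℝ} (hgen : Gen g N) {tv : Fin 4 → ℕ} {e : Fin 5 → ℝ}
    {ℓ : (Fin 5 → ℝ) →ₗ[ℝ] ℝ} {τ : Fin 4 → (Fin 5 → ℝ) →ₗ[ℝ] ℝ}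
    (hf : Frame (fun κ => g (tv κ)) e ℓ τ) (htv : Function.Injective tv) (hlt : ∀ κ, tv κ < N)
    {v : ℕ} (hv : v < N) (hne : ∀ κ, tv κ ≠ v) : ℓ (g v) ≠ 0 := by
  intro h0
  have h1 := hgen (Fin.snoc tv v) (by
    rw [Fin.snoc_injective_iff]
    exact ⟨htv, fun ⟨κ, hκ⟩ => hne κ hκ⟩) (fun i => by
      refine Fin.lastCases ?_ (fun κ => ?_) i
      · rw [Fin.snoc_last]; exact hv
      · rw [Fin.snoc_castSucc]; exact hlt κ)
  rw [Fintype.linearIndependent_iff] at h1
  have h2 := h1 (Fin.snoc (fun κ => τ κ (g v)) (-1)) (by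
    rw [Fin.sum_univ_castSucc]
    simp only [Fin.snoc_castSucc, Fin.snoc_last]
    have := hf.dec (g v)
    rw [h0, zero_smul, add_zero] at this
    rw [← this]
    simp) (Fin.last 4)
  rw [Fin.snoc_last] at h2
  norm_num at h2

/-- The functional of a column. -/
theorem column {N : ℕ} {M : List (List Bool)} {g : ℕ → Fin 5 → ℝ} (h : LinEmb (KM M) g)
    (hgen : Gen g N) {j : ℕ} (hj : j < wid M) (hN1 : 2 * M.length ≤ N) (hN2 : 32 * wid M ≤ N) :
    ∃ φ : (Fin 5 → ℝ) →ₗ[ℝ] ℝ, ∀ i < M.length, 0 < sgn (ent M i j) * φ (g (2 * i)) := by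
  have hlocM : ∀ F ∈ loc, F.map (enc j) ∈ KM M := fun F hF =>
    mem_KM.2 ⟨j, hj, Or.inl ⟨F, hF, rfl⟩⟩
  have henc : ∀ q < 16, enc j q < N := by
    intro q hq
    have : 32 * (j + 1) ≤ 32 * wid M := Nat.mul_le_mul_left _ hj
    unfold enc
    omega
  have h5N : 5 ≤ N := by
    have : 32 * (j + 1) ≤ 32 * wid M := Nat.mul_le_mul_left _ hj
    omega
  set tv : Fin 4 → ℕ := fun κ => enc j κ with htvdef
  have htv : Function.Injective tv := fun a b hab => Fin.ext (enc_injective j hab)
  have htvN : ∀ κ, tv κ < N := fun κ => henc κ (by omega)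
  have hT : ∀ κ, ∃ F ∈ KM M, ∀ κ', κ' ≠ κ → tv κ' ∈ F := by
    intro κ
    obtain ⟨F, hF, hF'⟩ := loc_tetra κ
    exact ⟨_, hlocM F hF, fun κ' hκ' => List.mem_map_of_mem (hF' κ' hκ')⟩
  obtain ⟨ℓ, τ, hf⟩ := exists_frame (V := Fin 5 → ℝ) (by simp)
    (hgen (fun i : Fin 5 => enc j i) (fun a b hab => Fin.ext (enc_injective j hab))
      (fun i => henc i (by omega)))
  replace hf : Frame (fun κ => g (tv κ)) (g (enc j (Fin.last 4))) ℓ τ := hf
  set T : Fin 4 → Fin 5 → ℝ := fun κ => g (tv κ) with hTdef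
  have htvq : ∀ q, 4 ≤ q → ∀ κ, tv κ ≠ enc j q := by
    intro q hq κ hκ
    have := enc_injective j hκ
    omega
  have hℓ : ∀ q, 4 ≤ q → q < 16 → ℓ (g (enc j q)) ≠ 0 := fun q h4 h16 =>
    hgen.ell_ne hf htv htvN (henc q h16) (htvq q h4)
  have hℓr : ∀ i < M.length, ℓ (g (2 * i)) ≠ 0 := fun i hi =>
    hgen.ell_ne hf htv htvN (by omega) (fun κ => by
      simp only [htvdef, enc]
      omega)
  -- the linking numbers
  set w : ℕ → ℕ → Bool := fun p q => wb T (g (enc j p)) (g (enc j q)) with hw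
  set s : ℕ → Bool := fun q => decide (0 < ℓ (g (enc j q))) with hs
  have hsym : ∀ p q, w p q = w q p := fun p q => wb_comm
  have tri : ∀ p q r, Gad.triOK p q r = true → xor (xor (w p q) (w q r)) (w p r) = false := by
    intro p q r hpqr
    unfold Gad.triOK at hpqr
    rw [Bool.and_eq_true, Bool.and_eq_true, List.any_eq_true] at hpqr
    obtain ⟨⟨⟨F, hF, h1⟩, h2⟩, h3⟩ := hpqr
    simp only [Bool.and_eq_true, List.contains_iff_mem, decide_eq_true_iff, bne_iff_ne] at h1 h2 h3
    have hp16 := loc_lt F hF p h1.1.1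
    have hq16 := loc_lt F hF q h1.1.2
    have hr16 := loc_lt F hF r h1.2
    refine hf.tri (hℓ p h2.1.1 hp16) (hℓ q h2.1.2 hq16) (hℓ r h2.2 hr16) ?_
    exact h.noHit tv htv hT (fun h => h3.1.1 (enc_injective j h))
      (fun h => h3.1.2 (enc_injective j h)) (fun h => h3.2 (enc_injective j h)) (htvq p h2.1.1)
      (htvq q h2.1.2) (htvq r h2.2) ⟨_, hlocM F hF, List.mem_map_of_mem h1.1.1,
        List.mem_map_of_mem h1.1.2, List.mem_map_of_mem h1.2⟩
  have vk : xor (xor (w 4 10) (w 10 15)) (w 4 15) = true := by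
    have h7 : ∀ i : Fin 7, [0, 1, 2, 3, 4, 10, 15].getD i.val 0 < 16 := by decide
    have h7i : Function.Injective fun i : Fin 7 => [0, 1, 2, 3, 4, 10, 15].getD i.val 0 := by
      decide
    exact h.vk hgen h5N (fun i : Fin 7 => enc j ([0, 1, 2, 3, 4, 10, 15].getD i.val 0))
      (fun a b hab => h7i (enc_injective j hab)) (fun i => henc _ (h7 i))
      (fun x y z hxy hxz hyz hn => by
        obtain ⟨F, hF, h1, h2, h3⟩ := loc_seven x y z hxy hxz hyz hn
        exact ⟨_, hlocM F hF, List.mem_map_of_mem h1, List.mem_map_of_mem h2,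
          List.mem_map_of_mem h3⟩) (by
        funext κ
        fin_cases κ <;> rfl)
  have hopp : ∀ {u v : Fin 5 → ℝ}, ℓ u ≠ 0 → ℓ v ≠ 0 → wb T u v = true → ℓ u * ℓ v < 0 := by
    intro u v hu hv huv
    rw [wb_true, hf.wd_iff hu hv] at huv
    exact huv.1
  have hne_of : ∀ {u v : Fin 5 → ℝ}, ℓ u * ℓ v < 0 → decide (0 < ℓ u) ≠ decide (0 < ℓ v) := by
    intro u v huv
    rcases mul_neg_iff.1 huv with ⟨h1, h2⟩ | ⟨h1, h2⟩
    · simp [h1, not_lt.2 h2.le]
    · simp [not_lt.2 h1.le, h2]
  have hE : ∀ e ∈ Gad.edges, 4 ≤ e.1 ∧ e.1 < 16 ∧ 4 ≤ e.2 ∧ e.2 < 16 := by decide +kernel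
  rcases Gad.comb w s hsym tri vk (fun e he hwe => by
      obtain ⟨a1, a2, a3, a4⟩ := hE e he
      exact hne_of (hopp (hℓ _ a1 a2) (hℓ _ a3 a4) hwe)) with hgood | hbad
  · obtain ⟨w1, w2, w3, s1, s2, s3⟩ := hgood
    have hrow : ∀ i < M.length, ∀ p q, 4 ≤ p → p < 16 → 4 ≤ q → q < 16 → p ≠ q →
        (∃ F ∈ KM M, 2 * i ∈ F ∧ enc j p ∈ F ∧ enc j q ∈ F) →
        xor (xor (wb T (g (2 * i)) (g (enc j p))) (w p q)) (wb T (g (2 * i)) (g (enc j q))) =
          false := by
      intro i hi p q hp hp' hq hq' hpq hF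
      refine hf.tri (hℓr i hi) (hℓ p hp hp') (hℓ q hq hq') ?_
      exact h.noHit tv htv hT (by unfold enc; omega) (fun h => hpq (enc_injective j h))
        (by unfold enc; omega) (fun κ => by simp only [htvdef, enc]; omega) (htvq p hp) (htvq q hq)
        hF
    have hs5 : ∀ q, 4 ≤ q → q < 16 → ∀ i < M.length,
        wb T (g (2 * i)) (g (enc j q)) = true → decide (0 < ℓ (g (2 * i))) ≠ s q :=
      fun q h4 h16 i hi h1 => hne_of (hopp (hℓr i hi) (hℓ q h4 h16) h1)
    have hpage1 : ∀ i < M.length, ∃ F ∈ KM M, 2 * i ∈ F ∧ enc j 5 ∈ F ∧ enc j 10 ∈ F :=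
      fun i hi => ⟨_, mem_KM.2 ⟨j, hj, Or.inr ⟨i, hi, List.mem_cons_self⟩⟩, by simp, by simp,
        by simp⟩
    have hpage2 : ∀ i < M.length, ent M i j = true →
        ∃ F ∈ KM M, 2 * i ∈ F ∧ enc j 5 ∈ F ∧ enc j 11 ∈ F :=
      fun i hi he => ⟨[2 * i, enc j 5, enc j 11], mem_KM.2 ⟨j, hj, Or.inr ⟨i, hi, by
        simp [pagesAt, he]⟩⟩, by simp, by simp, by simp⟩
    have hpage3 : ∀ i < M.length, ent M i j = false →
        ∃ F ∈ KM M, 2 * i ∈ F ∧ enc j 6 ∈ F ∧ enc j 10 ∈ F :=
      fun i hi he => ⟨[2 * i, enc j 6, enc j 10], mem_KM.2 ⟨j, hj, Or.inr ⟨i, hi, by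
        simp [pagesAt, he]⟩⟩, by simp, by simp, by simp⟩
    -- the side of the rows
    have hside : ∀ i < M.length, decide (0 < ℓ (g (2 * i))) =
        (if ent M i j = true then !(s 10) else s 10) := by
      intro i hi
      have p1 := hrow i hi 5 10 (by norm_num) (by norm_num) (by norm_num) (by norm_num)
        (by norm_num) (hpage1 i hi)
      have o5 := hs5 5 (by norm_num) (by norm_num) i hi
      have o10 := hs5 10 (by norm_num) (by norm_num) i hi
      rw [w1] at p1
      cases he : ent M i j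
      · have p3 := hrow i hi 6 10 (by norm_num) (by norm_num) (by norm_num) (by norm_num)
          (by norm_num) (hpage3 i hi he)
        have o6 := hs5 6 (by norm_num) (by norm_num) i hi
        rw [w3] at p3
        rw [if_neg (by simp)]
        rw [s2] at o6
        revert p1 p3 o5 o6 o10 s1
        generalize wb T (g (2 * i)) (g (enc j 5)) = x5
        generalize wb T (g (2 * i)) (g (enc j 6)) = x6
        generalize wb T (g (2 * i)) (g (enc j 10)) = x10
        generalize decide (0 < ℓ (g (2 * i))) = y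
        generalize s 5 = z5
        generalize s 10 = z10
        revert x5 x6 x10 y z5 z10
        decide
      · have p2 := hrow i hi 5 11 (by norm_num) (by norm_num) (by norm_num) (by norm_num)
          (by norm_num) (hpage2 i hi he)
        have o11 := hs5 11 (by norm_num) (by norm_num) i hi
        rw [w2] at p2
        rw [if_pos rfl]
        rw [s3] at o11
        revert p1 p2 o5 o11 o10 s1
        generalize wb T (g (2 * i)) (g (enc j 5)) = x5
        generalize wb T (g (2 * i)) (g (enc j 11)) = x6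
        generalize wb T (g (2 * i)) (g (enc j 10)) = x10
        generalize decide (0 < ℓ (g (2 * i))) = y
        generalize s 5 = z5
        generalize s 10 = z10
        revert x5 x6 x10 y z5 z10
        decide
    have hcase : ∀ i < M.length, (s 10 = true → 0 < sgn (ent M i j) * - ℓ (g (2 * i))) ∧
        (s 10 = false → 0 < sgn (ent M i j) * ℓ (g (2 * i))) := by
      intro i hi
      have h1 := hside i hi
      have h2 := hℓr i hi
      constructor
      · intro h10
        rw [h10] at h1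
        cases he : ent M i j
        · rw [he, if_neg (by simp), decide_eq_true_iff] at h1
          simp only [sgn, Bool.false_eq_true, if_false]
          linarith
        · rw [he, if_pos rfl, Bool.not_true, decide_eq_false_iff_not, not_lt] at h1
          have := lt_of_le_of_ne h1 h2
          simp only [sgn, if_true]
          linarith
      · intro h10
        rw [h10] at h1
        cases he : ent M i j
        · rw [he, if_neg (by simp), decide_eq_false_iff_not, not_lt] at h1
          have := lt_of_le_of_ne h1 h2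
          simp only [sgn, Bool.false_eq_true, if_false]
          linarith
        · rw [he, if_pos rfl, Bool.not_false, decide_eq_true_iff] at h1
          simp only [sgn, if_true]
          linarith
    cases h10 : s 10
    · exact ⟨ℓ, fun i hi => (hcase i hi).2 h10⟩
    · exact ⟨-ℓ, fun i hi => (hcase i hi).1 h10⟩
  · exfalso
    have hneg : ∀ i < 5, ∀ k < 5, i ≠ k → ℓ (g (enc j (5 + i))) * ℓ (g (enc j (10 + k))) < 0 := by
      intro i hi k hk hik
      refine hopp (hℓ _ (by omega) (by omega)) (hℓ _ (by omega) (by omega)) ?_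
      have := hbad i hi k hk
      simp only [hw] at this
      rw [this]
      simpa using hik
    have hneg' : ∀ i < 5, ℓ (g (enc j (5 + i))) * ℓ (g (enc j (10 + i))) < 0 := by
      intro i hi
      obtain ⟨k, hk, hki⟩ : ∃ k, k < 5 ∧ k ≠ i := by
        by_cases h0 : i = 0
        · exact ⟨1, by norm_num, by omega⟩
        · exact ⟨0, by norm_num, by omega⟩
      obtain ⟨l, hl, hlk, hli⟩ : ∃ l, l < 5 ∧ l ≠ k ∧ l ≠ i := by
        interval_cases i <;> interval_cases k <;> first | exact absurd rfl hki | skip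
        all_goals first
          | exact ⟨0, by decide, by decide, by decide⟩
          | exact ⟨1, by decide, by decide, by decide⟩
          | exact ⟨2, by decide, by decide, by decide⟩
      have h1 := hneg i hi k hk hki.symm
      have h2 := hneg l hl k hk hlk
      have h3 := hneg l hl i hi hli
      have h4 := hℓ (5 + l) (by omega) (by omega)
      have h5 := hℓ (10 + k) (by omega) (by omega)
      set A := ℓ (g (enc j (5 + i)))
      set B := ℓ (g (enc j (10 + k)))
      set C := ℓ (g (enc j (5 + l)))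
      set D := ℓ (g (enc j (10 + i)))
      rcases lt_or_gt_of_ne h4 with h6 | h6
      · have hB : 0 < B := by by_contra hn; nlinarith [mul_nonneg_of_nonpos_of_nonpos h6.le (not_lt.1 hn)]
        have hD : 0 < D := by by_contra hn; nlinarith [mul_nonneg_of_nonpos_of_nonpos h6.le (not_lt.1 hn)]
        have hA : A < 0 := by by_contra hn; nlinarith [mul_nonneg (not_lt.1 hn) hB.le]
        exact mul_neg_of_neg_of_pos hA hD
      · have hB : B < 0 := by by_contra hn; nlinarith [mul_nonneg h6.le (not_lt.1 hn)]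
        have hD : D < 0 := by by_contra hn; nlinarith [mul_nonneg h6.le (not_lt.1 hn)]
        have hA : 0 < A := by
          by_contra hn; nlinarith [mul_nonneg_of_nonpos_of_nonpos (not_lt.1 hn) hB.le]
        exact mul_neg_of_pos_of_neg hA hD
    have hk : ∀ i : Fin 5, ∃ κ : Fin 4, |ℓ (g (enc j (5 + i)))|⁻¹ * τ κ (g (enc j (5 + i))) +
        |ℓ (g (enc j (10 + i)))|⁻¹ * τ κ (g (enc j (10 + i))) ≤ 0 := by
      intro i
      by_contra hn
      push Not at hn
      have h1 : wb T (g (enc j (5 + i))) (g (enc j (10 + i))) = true := by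
        rw [wb_true, hf.wd_iff (hℓ _ (by omega) (by omega)) (hℓ _ (by omega) (by omega))]
        exact ⟨hneg' i i.2, hn⟩
      have := hbad i i.2 i i.2
      simp only [hw] at this
      rw [h1] at this
      simp at this
    choose κ hκ using hk
    obtain ⟨a, b, hab, hκab⟩ := Fintype.exists_ne_map_eq_of_card_lt κ (by simp)
    have hpos : ∀ i k : Fin 5, i ≠ k → 0 < |ℓ (g (enc j (5 + i)))|⁻¹ * τ (κ a) (g (enc j (5 + i))) +
        |ℓ (g (enc j (10 + k)))|⁻¹ * τ (κ a) (g (enc j (10 + k))) := by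
      intro i k hik
      have h1 : w (5 + i) (10 + k) = true := by
        rw [hbad i i.2 k k.2]
        simpa using fun h => hik (Fin.ext h)
      simp only [hw] at h1
      rw [wb_true, hf.wd_iff (hℓ _ (by omega) (by omega)) (hℓ _ (by omega) (by omega))] at h1
      exact h1.2 (κ a)
    have h1 := hpos a b hab
    have h2 := hpos b a hab.symm
    have h3 := hκ a
    have h4 := hκ b
    rw [← hκab] at h4
    linarith

/-- An embedding of the complex gives a sign realization of the matrix. -/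
theorem SR_of_linEmb {m : ℕ} {M : List (List Bool)} (hM : Rect m M) {g : ℕ → Fin 5 → ℝ}
    (h : LinEmb (KM M) g) : SR 5 M := by
  obtain ⟨g', h', hgen⟩ := h.exists_generic (2 * M.length + 32 * wid M)
  replace hgen : Gen g' _ := hgen
  have hcol : ∀ j, ∃ φ : (Fin 5 → ℝ) →ₗ[ℝ] ℝ, j < wid M →
      ∀ i < M.length, 0 < sgn (ent M i j) * φ (g' (2 * i)) := by
    intro j
    by_cases hj : j < wid M
    · obtain ⟨φ, hφ⟩ := column h' hgen hj (by omega) (by omega)
      exact ⟨φ, fun _ => hφ⟩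
    · exact ⟨0, fun h => absurd h hj⟩
  choose φ hφ using hcol
  refine ⟨fun i => g' (2 * i), fun j k => φ j (Pi.single k 1), fun i hi j hj => ?_⟩
  have h1 := hφ j (by rwa [← wid_eq hM hi]) i hi
  rw [ent_eq hi hj] at h1
  have h2 : g' (2 * i) ⬝ᵥ (fun k => φ j (Pi.single k 1)) = φ j (g' (2 * i)) := by
    have h3 : g' (2 * i) = ∑ k, g' (2 * i) k • (Pi.single k 1 : Fin 5 → ℝ) := by
      ext l
      simp [Finset.sum_apply, Pi.single_apply]
    conv_rhs => rw [h3]
    rw [map_sum, dotProduct]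
    apply Finset.sum_congr rfl
    intro k _
    rw [map_smul, smul_eq_mul]
  rw [h2]
  exact h1

end Pool.Agent.H728
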