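import Pool.Agent.H728.VK
import Pool.Agent.H625R2.BallG

/-!
# The gadget of a column and the complex of a sign matrix
-/

namespace Pool.Agent.H728

open Finset Pool.Agent.NPC.ER.Pat

/-- The facets of the gadget of a column. The vertices `0, 1, 2, 3` form the tetrahedron whose
boundary is linked, `4` is the centre, `5, ..., 9` and `10, ..., 14` are the two sides of the
matching, and `15` is the auxiliary vertex. -/
def loc : List (List ℕ) :=
  [[4, 5, 10], [4, 6, 11], [4, 7, 12], [4, 8, 13], [4, 9, 14], [4, 5, 6], [4, 5, 7], [4, 5, 8],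
   [4, 5, 9], [4, 6, 7], [4, 10, 11], [4, 10, 12], [4, 10, 13], [4, 13, 14], [5, 6, 12],
   [5, 6, 13], [5, 6, 14], [5, 7, 11], [5, 7, 13], [5, 7, 14], [5, 8, 11], [5, 8, 12], [5, 8, 14],
   [5, 9, 11], [5, 9, 12], [5, 9, 13], [6, 7, 10], [6, 7, 13], [6, 7, 14], [7, 10, 11],
   [8, 10, 11], [9, 10, 11], [8, 10, 12], [9, 10, 12], [9, 10, 13], [5, 13, 14], [6, 13, 14],
   [7, 13, 14], [4, 6, 15], [6, 10, 15], [0, 1, 2], [0, 1, 3], [0, 1, 4], [0, 1, 10], [0, 1, 15],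
   [0, 2, 3], [0, 2, 4], [0, 2, 10], [0, 2, 15], [0, 3, 4], [0, 3, 10], [0, 3, 15], [0, 4, 10],
   [0, 4, 15], [0, 10, 15], [1, 2, 3], [1, 2, 4], [1, 2, 10], [1, 2, 15], [1, 3, 4], [1, 3, 10],
   [1, 3, 15], [1, 4, 10], [1, 4, 15], [1, 10, 15], [2, 3, 4], [2, 3, 10], [2, 3, 15], [2, 4, 10],
   [2, 4, 15], [2, 10, 15], [3, 4, 10], [3, 4, 15], [3, 10, 15]]

/-- The name of the vertex `q` of the gadget of the column `j`. -/
def enc (j q : ℕ) : ℕ := 2 * (16 * j + q) + 1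

/-- The two triangles at the row `i` and the column `j`. -/
def pagesAt (M : List (List Bool)) (i j : ℕ) : List (List ℕ) :=
  [[2 * i, enc j 5, enc j 10],
    if ent M i j = true then [2 * i, enc j 5, enc j 11] else [2 * i, enc j 6, enc j 10]]

/-- The complex of the sign matrix `M`. -/
def KM (M : List (List Bool)) : List (List ℕ) :=
  (List.range (wid M)).flatMap fun j => loc.map (List.map (enc j)) ++
    (List.range M.length).flatMap fun i => pagesAt M i j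

theorem mem_KM {M : List (List Bool)} {F : List ℕ} : F ∈ KM M ↔ ∃ j < wid M,
    (∃ G ∈ loc, G.map (enc j) = F) ∨ ∃ i < M.length, F ∈ pagesAt M i j := by
  simp only [KM, List.mem_flatMap, List.mem_range, List.mem_append, List.mem_map]

namespace Gad

/-- Three different vertices of a facet, outside the tetrahedron. -/
def triOK (p q r : ℕ) : Bool :=
  (loc.any fun F => F.contains p && F.contains q && F.contains r) &&
    (decide (4 ≤ p) && decide (4 ≤ q) && decide (4 ≤ r)) && (p != q && q != r && p != r)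

theorem edge {x y z a b : Bool} (h : xor (xor x y) z = false) (hx : x = a) (hy : y = b) :
    z = xor a b := by
  subst hx hy
  revert h
  cases x <;> cases y <;> cases z <;> decide

theorem stepA {x y z a b c : Bool} (h : xor (xor x y) z = false) (hx : x = xor a b)
    (hy : y = !(xor b c)) : z = !(xor a c) := by
  subst hx hy
  revert h
  cases a <;> cases b <;> cases c <;> cases z <;> decide

theorem stepB {x y z a b c : Bool} (h : xor (xor x y) z = false) (hx : x = !(xor a b))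
    (hy : y = xor b c) : z = !(xor a c) := by
  subst hx hy
  revert h
  cases a <;> cases b <;> cases c <;> cases z <;> decide

theorem start {x1 x2 x3 x4 x5 x6 x7 : Bool} (h1 : xor (xor x1 x2) x3 = true)
    (h2 : xor (xor x3 x4) x5 = false) (h3 : xor (xor x2 x4) x6 = false) (h7 : x7 = x6) :
    x7 = !(xor x5 x1) := by
  subst h7
  revert h1 h2 h3
  cases x1 <;> cases x2 <;> cases x3 <;> cases x4 <;> cases x5 <;> cases x7 <;> decide

/-- The value of the linking number of an edge, in terms of those at the centre. -/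
def wf (α β : ℕ → Bool) (p q : ℕ) : Bool :=
  if p = 4 then (if q ≤ 9 then α (q - 4) else β (q - 9)) else
  if q ≤ 9 then xor (α (p - 4)) (α (q - 4)) else
  if 10 ≤ p then xor (β (p - 9)) (β (q - 9)) else
  if q = p + 5 then xor (α (p - 4)) (β (q - 9)) else !(xor (α (p - 4)) (β (q - 9)))

/-- The edges used below. -/
def edges : List (ℕ × ℕ) :=
  [(4, 5), (4, 6), (4, 7), (4, 8), (4, 9), (4, 10), (4, 11), (4, 12), (4, 13), (4, 14), (5, 6),
   (5, 7), (5, 8), (5, 9), (5, 10), (5, 11), (5, 12), (5, 13), (5, 14), (6, 7), (6, 10), (6, 11),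
   (6, 12), (6, 13), (6, 14), (7, 10), (7, 11), (7, 12), (7, 13), (7, 14), (8, 10), (8, 11),
   (8, 12), (8, 13), (8, 14), (9, 10), (9, 11), (9, 12), (9, 13), (9, 14), (10, 11), (10, 12),
   (10, 13), (13, 14)]

/-- Triangles. -/
def cyc3 : List (ℕ × ℕ × ℕ) :=
  [(4, 5, 11), (4, 5, 12), (4, 5, 13), (4, 5, 14), (4, 6, 10), (4, 6, 12), (4, 6, 13), (4, 6, 14),
   (4, 7, 10), (4, 7, 11), (4, 7, 13), (4, 7, 14), (4, 8, 10), (4, 8, 11), (4, 8, 12), (4, 8, 14),
   (4, 9, 10), (4, 9, 11), (4, 9, 12), (4, 9, 13), (6, 10, 11), (5, 11, 10), (7, 10, 12),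
   (5, 12, 10), (8, 10, 13), (5, 13, 10), (9, 13, 14), (8, 14, 13), (5, 6, 11), (6, 5, 10),
   (5, 7, 12), (7, 5, 10), (5, 8, 13), (8, 5, 10), (5, 9, 14), (9, 5, 10), (6, 7, 12), (7, 6, 11)]

/-- Pentagons. -/
def cyc5 : List (ℕ × ℕ × ℕ × ℕ × ℕ) :=
  [(5, 4, 10, 12, 6), (6, 4, 11, 10, 7), (7, 4, 12, 10, 6), (8, 4, 13, 14, 5), (9, 4, 14, 13, 5)]

/-- `wf` for unordered pairs. -/
def wg (α β : ℕ → Bool) (p q : ℕ) : Bool := if p < q then wf α β p q else wf α β q p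

/-- The case analysis. -/
def fin (α β : ℕ → Bool) : Bool :=
  (([1, 2, 3, 4, 5].all fun i => !α i && β i) || ([1, 2, 3, 4, 5].all fun i => α i && !β i) ||
    ([1, 2, 3, 4, 5].all fun i => !α i && !β i)) ||
  (cyc3.any fun c => wg α β c.1 c.2.1 && wg α β c.2.1 c.2.2 && wg α β c.1 c.2.2) ||
  (cyc5.any fun c => wg α β c.1 c.2.1 && wg α β c.2.1 c.2.2.1 && wg α β c.2.2.1 c.2.2.2.1 &&
    wg α β c.2.2.2.1 c.2.2.2.2 && wg α β c.1 c.2.2.2.2)

theorem fin_true : ∀ a1 a2 a3 a4 a5 b1 b2 b3 b4 b5 : Bool,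
    fin (fun i => [a1, a2, a3, a4, a5].getD (i - 1) false)
      (fun i => [b1, b2, b3, b4, b5].getD (i - 1) false) = true := by
  decide +kernel

/-- The linking numbers of the edges. -/
theorem all_edges (w : ℕ → ℕ → Bool) (hsym : ∀ p q, w p q = w q p)
    (tri : ∀ p q r, triOK p q r = true → xor (xor (w p q) (w q r)) (w p r) = false)
    (vk : xor (xor (w 4 10) (w 10 15)) (w 4 15) = true) :
    ∀ e ∈ edges, w e.1 e.2 = wf (fun i => [w 4 5, w 4 6, w 4 7, w 4 8, w 4 9].getD (i - 1) false)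
      (fun i => [w 4 10, w 4 11, w 4 12, w 4 13, w 4 14].getD (i - 1) false) e.1 e.2 := by
  have e_5_6 : w 5 6 = xor (w 4 5) (w 4 6) := edge (tri 5 4 6 rfl) (hsym _ _) rfl
  have e_6_5 : w 6 5 = xor (w 4 6) (w 4 5) := edge (tri 6 4 5 rfl) (hsym _ _) rfl
  have e_5_7 : w 5 7 = xor (w 4 5) (w 4 7) := edge (tri 5 4 7 rfl) (hsym _ _) rfl
  have e_7_5 : w 7 5 = xor (w 4 7) (w 4 5) := edge (tri 7 4 5 rfl) (hsym _ _) rfl
  have e_5_8 : w 5 8 = xor (w 4 5) (w 4 8) := edge (tri 5 4 8 rfl) (hsym _ _) rfl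
  have e_8_5 : w 8 5 = xor (w 4 8) (w 4 5) := edge (tri 8 4 5 rfl) (hsym _ _) rfl
  have e_5_9 : w 5 9 = xor (w 4 5) (w 4 9) := edge (tri 5 4 9 rfl) (hsym _ _) rfl
  have e_9_5 : w 9 5 = xor (w 4 9) (w 4 5) := edge (tri 9 4 5 rfl) (hsym _ _) rfl
  have e_6_7 : w 6 7 = xor (w 4 6) (w 4 7) := edge (tri 6 4 7 rfl) (hsym _ _) rfl
  have e_7_6 : w 7 6 = xor (w 4 7) (w 4 6) := edge (tri 7 4 6 rfl) (hsym _ _) rfl
  have e_10_11 : w 10 11 = xor (w 4 10) (w 4 11) := edge (tri 10 4 11 rfl) (hsym _ _) rfl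
  have e_11_10 : w 11 10 = xor (w 4 11) (w 4 10) := edge (tri 11 4 10 rfl) (hsym _ _) rfl
  have e_10_12 : w 10 12 = xor (w 4 10) (w 4 12) := edge (tri 10 4 12 rfl) (hsym _ _) rfl
  have e_12_10 : w 12 10 = xor (w 4 12) (w 4 10) := edge (tri 12 4 10 rfl) (hsym _ _) rfl
  have e_10_13 : w 10 13 = xor (w 4 10) (w 4 13) := edge (tri 10 4 13 rfl) (hsym _ _) rfl
  have e_13_10 : w 13 10 = xor (w 4 13) (w 4 10) := edge (tri 13 4 10 rfl) (hsym _ _) rfl
  have e_13_14 : w 13 14 = xor (w 4 13) (w 4 14) := edge (tri 13 4 14 rfl) (hsym _ _) rfl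
  have e_14_13 : w 14 13 = xor (w 4 14) (w 4 13) := edge (tri 14 4 13 rfl) (hsym _ _) rfl
  have e_5_10 : w 5 10 = xor (w 4 5) (w 4 10) := edge (tri 5 4 10 rfl) (hsym _ _) rfl
  have e_6_11 : w 6 11 = xor (w 4 6) (w 4 11) := edge (tri 6 4 11 rfl) (hsym _ _) rfl
  have e_7_12 : w 7 12 = xor (w 4 7) (w 4 12) := edge (tri 7 4 12 rfl) (hsym _ _) rfl
  have e_8_13 : w 8 13 = xor (w 4 8) (w 4 13) := edge (tri 8 4 13 rfl) (hsym _ _) rfl
  have e_9_14 : w 9 14 = xor (w 4 9) (w 4 14) := edge (tri 9 4 14 rfl) (hsym _ _) rfl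
  have h_6_10 : w 6 10 = !(xor (w 4 6) (w 4 10)) := start vk (tri 4 15 6 rfl) (tri 10 15 6 rfl) (hsym _ _)
  have h_7_10 : w 7 10 = !(xor (w 4 7) (w 4 10)) := stepA (tri 7 6 10 rfl) e_7_6 h_6_10
  have h_7_11 : w 7 11 = !(xor (w 4 7) (w 4 11)) := stepB (tri 7 10 11 rfl) h_7_10 e_10_11
  have h_5_11 : w 5 11 = !(xor (w 4 5) (w 4 11)) := stepA (tri 5 7 11 rfl) e_5_7 h_7_11
  have h_8_11 : w 8 11 = !(xor (w 4 8) (w 4 11)) := stepA (tri 8 5 11 rfl) e_8_5 h_5_11
  have h_9_11 : w 9 11 = !(xor (w 4 9) (w 4 11)) := stepA (tri 9 5 11 rfl) e_9_5 h_5_11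
  have h_8_10 : w 8 10 = !(xor (w 4 8) (w 4 10)) := stepB (tri 8 11 10 rfl) h_8_11 e_11_10
  have h_9_10 : w 9 10 = !(xor (w 4 9) (w 4 10)) := stepB (tri 9 11 10 rfl) h_9_11 e_11_10
  have h_8_12 : w 8 12 = !(xor (w 4 8) (w 4 12)) := stepB (tri 8 10 12 rfl) h_8_10 e_10_12
  have h_9_12 : w 9 12 = !(xor (w 4 9) (w 4 12)) := stepB (tri 9 10 12 rfl) h_9_10 e_10_12
  have h_9_13 : w 9 13 = !(xor (w 4 9) (w 4 13)) := stepB (tri 9 10 13 rfl) h_9_10 e_10_13
  have h_5_12 : w 5 12 = !(xor (w 4 5) (w 4 12)) := stepA (tri 5 8 12 rfl) e_5_8 h_8_12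
  have h_6_12 : w 6 12 = !(xor (w 4 6) (w 4 12)) := stepA (tri 6 5 12 rfl) e_6_5 h_5_12
  have h_5_13 : w 5 13 = !(xor (w 4 5) (w 4 13)) := stepA (tri 5 9 13 rfl) e_5_9 h_9_13
  have h_6_13 : w 6 13 = !(xor (w 4 6) (w 4 13)) := stepA (tri 6 5 13 rfl) e_6_5 h_5_13
  have h_7_13 : w 7 13 = !(xor (w 4 7) (w 4 13)) := stepA (tri 7 5 13 rfl) e_7_5 h_5_13
  have h_5_14 : w 5 14 = !(xor (w 4 5) (w 4 14)) := stepB (tri 5 13 14 rfl) h_5_13 e_13_14
  have h_6_14 : w 6 14 = !(xor (w 4 6) (w 4 14)) := stepB (tri 6 13 14 rfl) h_6_13 e_13_14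
  have h_7_14 : w 7 14 = !(xor (w 4 7) (w 4 14)) := stepB (tri 7 13 14 rfl) h_7_13 e_13_14
  have h_8_14 : w 8 14 = !(xor (w 4 8) (w 4 14)) := stepA (tri 8 5 14 rfl) e_8_5 h_5_14
  simp only [edges, List.forall_mem_cons]
  exact ⟨rfl, rfl, rfl, rfl, rfl, rfl, rfl, rfl, rfl, rfl, e_5_6, e_5_7, e_5_8, e_5_9, e_5_10, h_5_11,
    h_5_12, h_5_13, h_5_14, e_6_7, h_6_10, e_6_11, h_6_12, h_6_13, h_6_14, h_7_10, h_7_11, e_7_12,
    h_7_13, h_7_14, h_8_10, h_8_11, h_8_12, e_8_13, h_8_14, h_9_10, h_9_11, h_9_12, h_9_13,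
    e_9_14, e_10_11, e_10_12, e_10_13, e_13_14, by simp⟩

theorem cyc3_edges : ∀ c ∈ cyc3, (∀ e ∈ [(c.1, c.2.1), (c.2.1, c.2.2), (c.1, c.2.2)],
    e ∈ edges ∨ (e.2, e.1) ∈ edges) := by
  decide +kernel

theorem cyc5_edges : ∀ c ∈ cyc5, (∀ e ∈ [(c.1, c.2.1), (c.2.1, c.2.2.1), (c.2.2.1, c.2.2.2.1),
    (c.2.2.2.1, c.2.2.2.2), (c.1, c.2.2.2.2)], e ∈ edges ∨ (e.2, e.1) ∈ edges) := by
  decide +kernel

theorem edges_lt : ∀ e ∈ edges, e.1 < e.2 := by
  decide +kernel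

theorem bool3 {x y z : Bool} (h1 : x ≠ y) (h2 : y ≠ z) (h3 : x ≠ z) : False := by
  revert h1 h2 h3
  cases x <;> cases y <;> cases z <;> decide

theorem bool5 {x y z u v : Bool} (h1 : x ≠ y) (h2 : y ≠ z) (h3 : z ≠ u) (h4 : u ≠ v)
    (h5 : x ≠ v) : False := by
  revert h1 h2 h3 h4 h5
  cases x <;> cases y <;> cases z <;> cases u <;> cases v <;> decide

/-- The two possible behaviours of the gadget. -/
theorem comb (w : ℕ → ℕ → Bool) (s : ℕ → Bool) (hsym : ∀ p q, w p q = w q p)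
    (tri : ∀ p q r, triOK p q r = true → xor (xor (w p q) (w q r)) (w p r) = false)
    (vk : xor (xor (w 4 10) (w 10 15)) (w 4 15) = true)
    (hs : ∀ e ∈ edges, w e.1 e.2 = true → s e.1 ≠ s e.2) :
    (w 5 10 = true ∧ w 5 11 = false ∧ w 6 10 = false ∧ s 5 ≠ s 10 ∧ s 6 = s 5 ∧ s 11 = s 10) ∨
    (∀ i < 5, ∀ j < 5, w (5 + i) (10 + j) = !(i == j)) := by
  set α : ℕ → Bool := fun i => [w 4 5, w 4 6, w 4 7, w 4 8, w 4 9].getD (i - 1) false with hα
  set β : ℕ → Bool := fun i => [w 4 10, w 4 11, w 4 12, w 4 13, w 4 14].getD (i - 1) false with hβ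
  have hE : ∀ e ∈ edges, w e.1 e.2 = wf α β e.1 e.2 := all_edges w hsym tri vk
  have hG : ∀ p q, ((p, q) ∈ edges ∨ (q, p) ∈ edges) → wg α β p q = true → s p ≠ s q := by
    intro p q h h1
    rcases h with h | h
    · have hlt := edges_lt _ h
      simp only at hlt
      rw [wg, if_pos hlt] at h1
      exact hs _ h (by rw [hE _ h]; exact h1)
    · have hlt := edges_lt _ h
      simp only at hlt
      rw [wg, if_neg (not_lt.2 hlt.le)] at h1
      exact (hs _ h (by rw [hE _ h]; exact h1)).symm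
  have hfin := fin_true (w 4 5) (w 4 6) (w 4 7) (w 4 8) (w 4 9) (w 4 10) (w 4 11) (w 4 12)
    (w 4 13) (w 4 14)
  change fin α β = true at hfin
  unfold fin at hfin
  rw [Bool.or_eq_true, Bool.or_eq_true] at hfin
  rcases hfin with (h | h) | h
  · have m1 : (5, 10) ∈ edges := by decide
    have m2 : (5, 11) ∈ edges := by decide
    have m3 : (6, 10) ∈ edges := by decide
    have m4 : (6, 11) ∈ edges := by decide
    rw [Bool.or_eq_true, Bool.or_eq_true] at h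
    rcases h with (h | h) | h
    · left
      simp only [List.all_cons, List.all_nil, Bool.and_true, Bool.and_eq_true,
        Bool.not_eq_true'] at h
      obtain ⟨⟨a1, b1⟩, ⟨a2, b2⟩, -⟩ := h
      have w1 := hE _ m1
      have w2 := hE _ m2
      have w3 := hE _ m3
      have w4 := hE _ m4
      simp only [wf, Nat.reduceEqDiff, Nat.reduceLeDiff, Nat.reduceSub, if_false, if_true,
        Nat.reduceAdd, a1, a2, b1, b2] at w1 w2 w3 w4
      have s1 := hs _ m1 w1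
      have s4 := hs _ m4 w4
      have m5 : (4, 10) ∈ edges := by decide
      have m6 : (4, 11) ∈ edges := by decide
      have s5 := hs _ m5 (by rw [hE _ m5]; exact b1)
      have s6 := hs _ m6 (by rw [hE _ m6]; exact b2)
      refine ⟨w1, w2, w3, s1, ?_, ?_⟩
      · revert s1 s4 s5 s6
        simp only
        cases s 4 <;> cases s 5 <;> cases s 6 <;> cases s 10 <;> cases s 11 <;> decide
      · revert s1 s4 s5 s6
        simp only
        cases s 4 <;> cases s 5 <;> cases s 6 <;> cases s 10 <;> cases s 11 <;> decide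
    · left
      simp only [List.all_cons, List.all_nil, Bool.and_true, Bool.and_eq_true,
        Bool.not_eq_true'] at h
      obtain ⟨⟨a1, b1⟩, ⟨a2, b2⟩, -⟩ := h
      have w1 := hE _ m1
      have w2 := hE _ m2
      have w3 := hE _ m3
      have w4 := hE _ m4
      simp only [wf, Nat.reduceEqDiff, Nat.reduceLeDiff, Nat.reduceSub, if_false, if_true,
        Nat.reduceAdd, a1, a2, b1, b2] at w1 w2 w3 w4
      have s1 := hs _ m1 w1
      have s4 := hs _ m4 w4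
      have m5 : (4, 5) ∈ edges := by decide
      have m6 : (4, 6) ∈ edges := by decide
      have s5 := hs _ m5 (by rw [hE _ m5]; exact a1)
      have s6 := hs _ m6 (by rw [hE _ m6]; exact a2)
      refine ⟨w1, w2, w3, s1, ?_, ?_⟩
      · revert s1 s4 s5 s6
        simp only
        cases s 4 <;> cases s 5 <;> cases s 6 <;> cases s 10 <;> cases s 11 <;> decide
      · revert s1 s4 s5 s6
        simp only
        cases s 4 <;> cases s 5 <;> cases s 6 <;> cases s 10 <;> cases s 11 <;> decide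
    · right
      simp only [List.all_cons, List.all_nil, Bool.and_true, Bool.and_eq_true,
        Bool.not_eq_true'] at h
      obtain ⟨⟨a1, b1⟩, ⟨a2, b2⟩, ⟨a3, b3⟩, ⟨a4, b4⟩, a5, b5⟩ := h
      intro i hi j hj
      have m : (5 + i, 10 + j) ∈ edges := by
        interval_cases i <;> interval_cases j <;> decide
      rw [hE _ m]
      interval_cases i <;> interval_cases j <;> simp [wf, a1, a2, a3, a4, a5, b1, b2, b3, b4, b5]
  · exfalso
    rw [List.any_eq_true] at h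
    obtain ⟨c, hc, h⟩ := h
    have hce := cyc3_edges c hc
    simp only [List.forall_mem_cons] at hce
    rw [Bool.and_eq_true, Bool.and_eq_true] at h
    exact bool3 (hG _ _ hce.1 h.1.1) (hG _ _ hce.2.1 h.1.2) (hG _ _ hce.2.2.1 h.2)
  · exfalso
    rw [List.any_eq_true] at h
    obtain ⟨c, hc, h⟩ := h
    have hce := cyc5_edges c hc
    simp only [List.forall_mem_cons] at hce
    rw [Bool.and_eq_true, Bool.and_eq_true, Bool.and_eq_true, Bool.and_eq_true] at h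
    exact bool5 (hG _ _ hce.1 h.1.1.1.1) (hG _ _ hce.2.1 h.1.1.1.2) (hG _ _ hce.2.2.1 h.1.1.2)
      (hG _ _ hce.2.2.2.1 h.1.2) (hG _ _ hce.2.2.2.2.1 h.2)

end Gad

end Pool.Agent.H728
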