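import Pool.Agent.H728.PolyR
import Pool.Agent.H625R2.BallFin

/-!
# Hardness
-/

namespace Pool.Agent.NPC.ER.H728

open Pool.Agent.NPC Pool.Agent.NPC.ER.Pat Pool.Agent.H728

theorem exists_isGeomEmb_iff {d : ℕ} {L : List (List ℕ)} :
    (∃ f, IsGeomEmb d L f) ↔ ∃ f : ℕ → Fin d → ℝ, AffEmb L f := by
  constructor
  · rintro ⟨f, hf⟩
    have h := AffEmb.map (isGeomEmb_iff.1 hf) (WithLp.linearEquiv 2 ℝ (Fin d → ℝ)).toLinearMap
      (WithLp.linearEquiv 2 ℝ (Fin d → ℝ)).injective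
    exact ⟨_, h⟩
  · rintro ⟨f, hf⟩
    have h := AffEmb.map hf (WithLp.linearEquiv 2 ℝ (Fin d → ℝ)).symm.toLinearMap
      (WithLp.linearEquiv 2 ℝ (Fin d → ℝ)).symm.injective
    exact ⟨_, isGeomEmb_iff.2 h⟩

theorem hard_of {patOf : List Con → Pat} (h : IsPatOf patOf) {k d : ℕ} (hd : 4 ≤ d) (hkd : k ≤ d)
    (hdk : d ≤ 2 * k) : ERHard (EMB k d) := by
  refine ERHard.of_sys (f := fun S => KF k d (matOf patOf 2 S))
    ((poly_KF k d).comp (h.poly_matOf 2)) fun S => ?_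
  obtain ⟨m, hm⟩ := rect_matOf patOf 2 S
  rw [exists_isGeomEmb_iff]
  constructor
  · intro hS
    exact ⟨isComplex_KF hd hdk _, KF_yes hd hkd hm (h.srn hS)⟩
  · rintro ⟨-, f, hf⟩
    exact h.sat (KF_no hd hm hf)

end Pool.Agent.NPC.ER.H728
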