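import Pool.Agent.H728.Lin

/-!
# Joins with finite sets of points

`joinN m L` is the join of the complex `L` with `m` points. The vertex `v` of `L` becomes `2 v`, the
new points are the odd numbers `2 u + 1`, `u < m`.
-/

namespace Pool.Agent.H728

open Finset

variable {E : Type*} [AddCommGroup E] [Module ℝ E]

/-! ### Relabelling -/

theorem two_mul_injective : Function.Injective fun v : ℕ => 2 * v := fun a b h => by
  simpa using h

theorem linEmb_relabel {e : ℕ → ℕ} (he : Function.Injective e) {L : List (List ℕ)} {g : ℕ → E} :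
    LinEmb (L.map (List.map e)) g ↔ LinEmb L (g ∘ e) := by
  constructor
  · rintro h c ⟨F, hF, hcF⟩ ⟨G, hG, hcG⟩ h0
    have key := h (c.mapDomain e) ⟨F.map e, List.mem_map.2 ⟨F, hF, rfl⟩, fun v hv => ?_⟩
      ⟨G.map e, List.mem_map.2 ⟨G, hG, rfl⟩, fun v hv => ?_⟩ ?_
    · exact Finsupp.mapDomain_injective he (by rw [key, Finsupp.mapDomain_zero])
    · by_cases hr : v ∈ Set.range e
      · obtain ⟨w, rfl⟩ := hr
        rw [Finsupp.mapDomain_apply he] at hv
        exact List.mem_map.2 ⟨w, hcF w hv, rfl⟩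
      · rw [Finsupp.mapDomain_of_notMem_range _ _ hr] at hv
        exact absurd hv (lt_irrefl _)
    · by_cases hr : v ∈ Set.range e
      · obtain ⟨w, rfl⟩ := hr
        rw [Finsupp.mapDomain_apply he] at hv
        exact List.mem_map.2 ⟨w, hcG w hv, rfl⟩
      · rw [Finsupp.mapDomain_of_notMem_range _ _ hr] at hv
        exact absurd hv (lt_irrefl _)
    · rw [Finsupp.linearCombination_mapDomain]
      exact h0
  · rintro h c ⟨F', hF', hcF⟩ ⟨G', hG', hcG⟩ h0
    obtain ⟨F, hF, rfl⟩ := List.mem_map.1 hF'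
    obtain ⟨G, hG, rfl⟩ := List.mem_map.1 hG'
    have hsup : (c.support : Set ℕ) ⊆ Set.range e := by
      intro v hv
      have hv' : c v ≠ 0 := by simpa using hv
      rcases lt_or_gt_of_ne hv' with h1 | h1
      · obtain ⟨w, -, hw⟩ := List.mem_map.1 (hcG v h1)
        exact ⟨w, hw⟩
      · obtain ⟨w, -, hw⟩ := List.mem_map.1 (hcF v h1)
        exact ⟨w, hw⟩
    have hc : c = (c.comapDomain e he.injOn).mapDomain e :=
      (Finsupp.mapDomain_comapDomain e he c hsup).symm
    rw [hc] at h0 ⊢
    rw [Finsupp.linearCombination_mapDomain] at h0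
    rw [h (c.comapDomain e he.injOn) ⟨F, hF, fun v hv => ?_⟩ ⟨G, hG, fun v hv => ?_⟩ h0,
      Finsupp.mapDomain_zero]
    · obtain ⟨w, hw, hwv⟩ := List.mem_map.1 (hcF (e v) hv)
      rwa [← he hwv]
    · obtain ⟨w, hw, hwv⟩ := List.mem_map.1 (hcG (e v) hv)
      rwa [← he hwv]

theorem LinEmb.mono {L L' : List (List ℕ)} {g : ℕ → E} (h : LinEmb L g)
    (hL : ∀ F ∈ L', ∃ G ∈ L, F ⊆ G) : LinEmb L' g := by
  rintro c ⟨F, hF, hcF⟩ ⟨G, hG, hcG⟩ h0
  obtain ⟨F', hF', hFF⟩ := hL F hF
  obtain ⟨G', hG', hGG⟩ := hL G hG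
  exact h c ⟨F', hF', fun v hv => hFF (hcF v hv)⟩ ⟨G', hG', fun v hv => hGG (hcG v hv)⟩ h0

/-- Restriction to a smaller dimension. -/
theorem LinEmb.to_fin {E : Type*} [AddCommGroup E] [Module ℝ E] [FiniteDimensional ℝ E]
    {L : List (List ℕ)} {g : ℕ → E} (h : LinEmb L g) {D : ℕ} (hD : Module.finrank ℝ E ≤ D) :
    ∃ g' : ℕ → Fin D → ℝ, LinEmb L g' := by
  obtain ⟨T, hT⟩ : ∃ T : E →ₗ[ℝ] (Fin D → ℝ), Function.Injective T := by
    exact finrank_le_iff_exists_linearMap.1 (by simpa using hD)
  exact ⟨_, h.map T hT⟩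

/-! ### The join -/

/-- The join with `m` points. -/
def joinN (m : ℕ) (L : List (List ℕ)) : List (List ℕ) :=
  L.flatMap fun F => (List.range m).map fun u => (2 * u + 1) :: F.map fun v => 2 * v

theorem mem_joinN {m : ℕ} {L : List (List ℕ)} {F' : List ℕ} : F' ∈ joinN m L ↔
    ∃ F ∈ L, ∃ u < m, (2 * u + 1) :: F.map (fun v => 2 * v) = F' := by
  simp [joinN]

/-- The position of the vertices of a join. -/
noncomputable def joinPos (f : ℕ → E) (v : ℕ) : E × ℝ × ℝ :=
  if v % 2 = 0 then (f (v / 2), 0, 0) else (0, ((v / 2 : ℕ) : ℝ), 1)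

/-- The join with finitely many points embeds in two dimensions more. -/
theorem AffEmb.join {L : List (List ℕ)} {f : ℕ → E} (h : AffEmb L f) (m : ℕ) :
    AffEmb (joinN m L) (joinPos f) := by
  intro c hpos hneg h0
  obtain ⟨F', hF', hcF⟩ := hpos
  obtain ⟨F, hF, u, hu, rfl⟩ := mem_joinN.1 hF'
  obtain ⟨G', hG', hcG⟩ := hneg
  obtain ⟨G, hG, w, hw, rfl⟩ := mem_joinN.1 hG'
  -- the odd part
  have hodd : ∀ v, v % 2 = 1 → c v ≠ 0 → v = 2 * u + 1 ∨ v = 2 * w + 1 := by
    intro v hv hc
    rcases lt_or_gt_of_ne hc with h1 | h1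
    · have := hcG v h1
      rw [List.mem_cons, List.mem_map] at this
      rcases this with h | ⟨x, -, h⟩
      · exact Or.inr h
      · omega
    · have := hcF v h1
      rw [List.mem_cons, List.mem_map] at this
      rcases this with h | ⟨x, -, h⟩
      · exact Or.inl h
      · omega
  have hwpos : u ≠ w → 0 ≤ c (2 * u + 1) := by
    intro huw
    by_contra hc
    have := hcG _ (not_le.1 hc)
    rw [List.mem_cons, List.mem_map] at this
    rcases this with h | ⟨x, -, h⟩
    · omega
    · omega
  -- the three linear relations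
  have r1 := congrArg (fun x : (E × ℝ × ℝ) × ℝ => x.1.1) h0
  have r2 := congrArg (fun x : (E × ℝ × ℝ) × ℝ => x.1.2.1) h0
  have r3 := congrArg (fun x : (E × ℝ × ℝ) × ℝ => x.1.2.2) h0
  have r4 := congrArg (fun x : (E × ℝ × ℝ) × ℝ => x.2) h0
  simp only [lc_eq] at r1 r2 r3 r4
  simp only [Prod.fst_sum, Prod.snd_sum, Prod.smul_fst, Prod.smul_snd, Prod.fst_zero,
    Prod.snd_zero, smul_eq_mul, mul_one] at r1 r2 r3 r4
  have sub : ∀ φ : ℕ → ℝ, (∀ v, v % 2 = 0 → φ v = 0) → ∑ v ∈ c.support, c v * φ v =
      ∑ v ∈ ({2 * u + 1, 2 * w + 1} : Finset ℕ), c v * φ v := by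
    intro φ hφ
    have e1 : ∑ v ∈ c.support, c v * φ v =
        ∑ v ∈ c.support ∪ {2 * u + 1, 2 * w + 1}, c v * φ v := by
      refine sum_subset subset_union_left fun v _ hv => ?_
      rw [Finsupp.notMem_support_iff.1 hv, zero_mul]
    rw [e1]
    refine (sum_subset subset_union_right fun v _ hv => ?_).symm
    by_cases hv2 : v % 2 = 0
    · rw [hφ v hv2, mul_zero]
    · have : c v = 0 := by
        by_contra hne
        apply hv
        rcases hodd v (by omega) hne with h | h <;> simp [h]
      rw [this, zero_mul]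
  have s3 : ∑ v ∈ ({2 * u + 1, 2 * w + 1} : Finset ℕ), c v = 0 := by
    rw [sub _ (fun v hv => by simp [joinPos, hv])] at r3
    rw [← r3]
    refine sum_congr rfl fun v hv => ?_
    simp only [mem_insert, mem_singleton] at hv
    have : v % 2 ≠ 0 := by omega
    simp [joinPos, this]
  have s2 : ∑ v ∈ ({2 * u + 1, 2 * w + 1} : Finset ℕ), c v * ((v / 2 : ℕ) : ℝ) = 0 := by
    rw [sub _ (fun v hv => by simp [joinPos, hv])] at r2
    rw [← r2]
    refine sum_congr rfl fun v hv => ?_
    simp only [mem_insert, mem_singleton] at hv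
    have : v % 2 ≠ 0 := by omega
    simp [joinPos, this]
  have hz : ∀ v, v % 2 = 1 → c v = 0 := by
    intro v hv
    by_contra hne
    by_cases huw : u = w
    · subst huw
      rw [Finset.pair_eq_singleton, sum_singleton] at s3
      rcases hodd v hv hne with h | h <;> exact hne (h ▸ s3)
    · rw [sum_pair (by omega)] at s2 s3
      rw [show (2 * u + 1) / 2 = u by omega, show (2 * w + 1) / 2 = w by omega] at s2
      have huw' : (u : ℝ) ≠ w := by exact_mod_cast huw
      have e : c (2 * w + 1) = - c (2 * u + 1) := by linarith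
      rw [e] at s2
      have : c (2 * u + 1) * ((u : ℝ) - w) = 0 := by linarith
      rcases mul_eq_zero.1 this with h | h
      · rcases hodd v hv hne with h' | h'
        · exact hne (h' ▸ h)
        · exact hne (h' ▸ (by rw [e, h, neg_zero]))
      · exact huw' (by linarith)
  -- the even part
  have hsup : (c.support : Set ℕ) ⊆ Set.range fun v : ℕ => 2 * v := by
    intro v hv
    have hv' : c v ≠ 0 := by simpa using hv
    refine ⟨v / 2, ?_⟩
    simp only
    by_contra hne
    exact hv' (hz v (by omega))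
  have hc : c = (c.comapDomain _ two_mul_injective.injOn).mapDomain fun v => 2 * v :=
    (Finsupp.mapDomain_comapDomain _ two_mul_injective c hsup).symm
  rw [hc] at h0 ⊢
  rw [Finsupp.linearCombination_mapDomain] at h0
  have key := h (c.comapDomain _ two_mul_injective.injOn) ⟨F, hF, fun v hv => ?_⟩
    ⟨G, hG, fun v hv => ?_⟩ ?_
  · rw [key, Finsupp.mapDomain_zero]
  · have := hcF (2 * v) hv
    rw [List.mem_cons, List.mem_map] at this
    rcases this with h | ⟨x, hx, h⟩
    · omega
    · have : x = v := by omega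
      rwa [← this]
  · have := hcG (2 * v) hv
    rw [List.mem_cons, List.mem_map] at this
    rcases this with h | ⟨x, hx, h⟩
    · omega
    · have : x = v := by omega
      rwa [← this]
  · have e : ((fun v => (joinPos f v, (1 : ℝ))) ∘ fun v => 2 * v) =
        fun v => (LinearMap.inl ℝ E (ℝ × ℝ)).prodMap LinearMap.id (f v, (1 : ℝ)) := by
      funext v
      simp [joinPos]
    rw [e, lc_map] at h0
    have hinj : Function.Injective ((LinearMap.inl ℝ E (ℝ × ℝ)).prodMap
        (LinearMap.id : ℝ →ₗ[ℝ] ℝ)) :=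
      Function.Injective.prodMap LinearMap.inl_injective Function.injective_id
    exact hinj (by rw [h0, map_zero])

/-- The position of the vertices of a suspension. -/
noncomputable def suspPos (f : ℕ → E) (v : ℕ) : E × ℝ :=
  if v % 2 = 0 then (f (v / 2), 0) else (0, if v = 1 then 1 else -1)

/-- The suspension embeds in one dimension more. -/
theorem AffEmb.susp {L : List (List ℕ)} {f : ℕ → E} (h : AffEmb L f) :
    AffEmb (joinN 2 L) (suspPos f) := by
  intro c hpos hneg h0
  obtain ⟨F', hF', hcF⟩ := hpos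
  obtain ⟨F, hF, u, hu, rfl⟩ := mem_joinN.1 hF'
  obtain ⟨G', hG', hcG⟩ := hneg
  obtain ⟨G, hG, w, hw, rfl⟩ := mem_joinN.1 hG'
  have hoF : ∀ v, v % 2 = 1 → 0 < c v → v = 2 * u + 1 := by
    intro v hv hc
    have := hcF v hc
    rw [List.mem_cons, List.mem_map] at this
    rcases this with h | ⟨x, -, h⟩
    · exact h
    · omega
  have hoG : ∀ v, v % 2 = 1 → c v < 0 → v = 2 * w + 1 := by
    intro v hv hc
    have := hcG v hc
    rw [List.mem_cons, List.mem_map] at this
    rcases this with h | ⟨x, -, h⟩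
    · exact h
    · omega
  have hodd : ∀ v, v % 2 = 1 → c v ≠ 0 → v = 1 ∨ v = 3 := by
    intro v hv hc
    rcases lt_or_gt_of_ne hc with h1 | h1
    · have := hoG v hv h1; omega
    · have := hoF v hv h1; omega
  have r2 := congrArg (fun x : (E × ℝ) × ℝ => x.1.2) h0
  simp only [lc_eq] at r2
  simp only [Prod.fst_sum, Prod.snd_sum, Prod.smul_fst, Prod.smul_snd, Prod.fst_zero,
    Prod.snd_zero, smul_eq_mul] at r2
  have s2 : c 1 = c 3 := by
    have e1 : ∑ v ∈ c.support, c v * (suspPos f v).2 =
        ∑ v ∈ c.support ∪ {1, 3}, c v * (suspPos f v).2 := by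
      refine sum_subset subset_union_left fun v _ hv => ?_
      rw [Finsupp.notMem_support_iff.1 hv, zero_mul]
    have e2 : ∑ v ∈ ({1, 3} : Finset ℕ), c v * (suspPos f v).2 =
        ∑ v ∈ c.support ∪ {1, 3}, c v * (suspPos f v).2 := by
      refine sum_subset subset_union_right fun v _ hv => ?_
      by_cases hv2 : v % 2 = 0
      · simp [suspPos, hv2]
      · have : c v = 0 := by
          by_contra hne
          apply hv
          rcases hodd v (by omega) hne with h | h <;> simp [h]
        rw [this, zero_mul]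
    rw [e1, ← e2, sum_pair (by norm_num)] at r2
    simp [suspPos] at r2
    linarith
  have h1 : c 1 = 0 := by
    by_contra hne
    rcases lt_or_gt_of_ne hne with h1 | h1
    · have a := hoG 1 rfl h1
      have b := hoG 3 rfl (s2 ▸ h1)
      omega
    · have a := hoF 1 rfl h1
      have b := hoF 3 rfl (s2 ▸ h1)
      omega
  have hz : ∀ v, v % 2 = 1 → c v = 0 := by
    intro v hv
    by_contra hne
    rcases hodd v hv hne with h | h
    · rw [h] at hne; exact hne h1
    · rw [h] at hne; exact hne (by rw [← s2]; exact h1)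
  have hsup : (c.support : Set ℕ) ⊆ Set.range fun v : ℕ => 2 * v := by
    intro v hv
    have hv' : c v ≠ 0 := by simpa using hv
    refine ⟨v / 2, ?_⟩
    simp only
    by_contra hne
    exact hv' (hz v (by omega))
  have hc : c = (c.comapDomain _ two_mul_injective.injOn).mapDomain fun v => 2 * v :=
    (Finsupp.mapDomain_comapDomain _ two_mul_injective c hsup).symm
  rw [hc] at h0 ⊢
  rw [Finsupp.linearCombination_mapDomain] at h0
  have key := h (c.comapDomain _ two_mul_injective.injOn) ⟨F, hF, fun v hv => ?_⟩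
    ⟨G, hG, fun v hv => ?_⟩ ?_
  · rw [key, Finsupp.mapDomain_zero]
  · have := hcF (2 * v) hv
    rw [List.mem_cons, List.mem_map] at this
    rcases this with h | ⟨x, hx, h⟩
    · omega
    · have : x = v := by omega
      rwa [← this]
  · have := hcG (2 * v) hv
    rw [List.mem_cons, List.mem_map] at this
    rcases this with h | ⟨x, hx, h⟩
    · omega
    · have : x = v := by omega
      rwa [← this]
  · have e : ((fun v => (suspPos f v, (1 : ℝ))) ∘ fun v => 2 * v) =
        fun v => (LinearMap.inl ℝ E ℝ).prodMap LinearMap.id (f v, (1 : ℝ)) := by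
      funext v
      simp [suspPos]
    rw [e, lc_map] at h0
    have hinj : Function.Injective ((LinearMap.inl ℝ E ℝ).prodMap
        (LinearMap.id : ℝ →ₗ[ℝ] ℝ)) :=
      Function.Injective.prodMap LinearMap.inl_injective Function.injective_id
    exact hinj (by rw [h0, map_zero])

/-! ### From the join to the complex -/

/-- The key fact: a dependency of the complex modulo the span of two of the new points, with
coefficients of the new points of opposite signs. -/
theorem joinN_key {m : ℕ} {L : List (List ℕ)} {g : ℕ → E} (h : LinEmb (joinN m L) g) {i j : ℕ}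
    (hi : i < m) (hj : j < m) {c : ℕ →₀ ℝ} (hp : PosIn L c) (hn : NegIn L c)
    {α β : ℝ} (hα : 0 ≤ α) (hβ : 0 ≤ β)
    (h0 : Finsupp.linearCombination ℝ (g ∘ fun v => 2 * v) c =
      α • g (2 * i + 1) - β • g (2 * j + 1)) : c = 0 := by
  obtain ⟨F, hF, hcF⟩ := hp
  obtain ⟨G, hG, hcG⟩ := hn
  set c' : ℕ →₀ ℝ := c.mapDomain (fun v => 2 * v) + Finsupp.single (2 * j + 1) β -
    Finsupp.single (2 * i + 1) α with hc'
  have hev : ∀ v, c' (2 * v) = c v := by
    intro v
    have := Finsupp.mapDomain_apply two_mul_injective c v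
    simp only [hc', Finsupp.sub_apply, Finsupp.add_apply, this, Finsupp.single_apply]
    rw [if_neg (by omega), if_neg (by omega)]
    ring
  have hod : ∀ v, v % 2 = 1 → c' v = (if 2 * j + 1 = v then β else 0) -
      (if 2 * i + 1 = v then α else 0) := by
    intro v hv
    have : (c.mapDomain fun v => 2 * v) v = 0 :=
      Finsupp.mapDomain_of_notMem_range _ _ (by rintro ⟨w, hw⟩; simp only at hw; omega)
    simp only [hc', Finsupp.sub_apply, Finsupp.add_apply, this, Finsupp.single_apply]
    ring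
  have key := h c' ⟨(2 * j + 1) :: F.map fun v => 2 * v, mem_joinN.2 ⟨F, hF, j, hj, rfl⟩,
    fun v hv => ?_⟩ ⟨(2 * i + 1) :: G.map fun v => 2 * v, mem_joinN.2 ⟨G, hG, i, hi, rfl⟩,
    fun v hv => ?_⟩ ?_
  · ext v
    rw [← hev v, key]
    rfl
  · rw [List.mem_cons, List.mem_map]
    rcases Nat.mod_two_eq_zero_or_one v with hv2 | hv2
    · right
      refine ⟨v / 2, hcF _ ?_, by omega⟩
      rw [← hev, show 2 * (v / 2) = v by omega]
      exact hv
    · left
      rw [hod v hv2] at hv
      by_contra hne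
      rw [if_neg (fun h => hne h.symm)] at hv
      split_ifs at hv <;> linarith
  · rw [List.mem_cons, List.mem_map]
    rcases Nat.mod_two_eq_zero_or_one v with hv2 | hv2
    · right
      refine ⟨v / 2, hcG _ ?_, by omega⟩
      rw [← hev, show 2 * (v / 2) = v by omega]
      exact hv
    · left
      rw [hod v hv2] at hv
      by_contra hne
      rw [if_neg (c := 2 * i + 1 = v) (fun h => hne h.symm)] at hv
      split_ifs at hv <;> linarith
  · rw [hc', map_sub, map_add, Finsupp.linearCombination_mapDomain, h0,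
      Finsupp.linearCombination_single, Finsupp.linearCombination_single]
    abel

/-- A suspension can be contracted. -/
theorem linEmb_of_susp [FiniteDimensional ℝ E] {L : List (List ℕ)} {g : ℕ → E}
    (h : LinEmb (joinN 2 L) g) {D : ℕ} (hD : Module.finrank ℝ E ≤ D + 1) :
    ∃ g' : ℕ → Fin D → ℝ, LinEmb L g' := by
  by_cases hL : L = []
  · subst hL
    refine ⟨fun _ => 0, ?_⟩
    rintro c ⟨F, hF, -⟩
    simp at hF
  obtain ⟨F, hF⟩ := List.exists_mem_of_ne_nil L hL
  set W : Submodule ℝ E := Submodule.span ℝ {g 1 - g 3} with hW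
  have hne : g 1 - g 3 ≠ 0 := by
    intro h13
    have key := h (Finsupp.single 1 1 - Finsupp.single 3 1)
      ⟨(2 * 0 + 1) :: F.map fun v => 2 * v, mem_joinN.2 ⟨F, hF, 0, by omega, rfl⟩, fun v hv => ?_⟩
      ⟨(2 * 1 + 1) :: F.map fun v => 2 * v, mem_joinN.2 ⟨F, hF, 1, by omega, rfl⟩, fun v hv => ?_⟩
      ?_
    · have := DFunLike.congr_fun key 1
      simp at this
    · rw [List.mem_cons]
      left
      by_contra hne
      simp only [Finsupp.sub_apply, Finsupp.single_apply] at hv
      rw [if_neg (fun h => hne (by omega))] at hv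
      split_ifs at hv <;> norm_num at hv
    · rw [List.mem_cons]
      left
      by_contra hne
      simp only [Finsupp.sub_apply, Finsupp.single_apply] at hv
      rw [if_neg (c := 3 = v) (fun h => hne (by omega))] at hv
      split_ifs at hv <;> norm_num at hv
    · rw [map_sub, Finsupp.linearCombination_single, Finsupp.linearCombination_single, one_smul,
        one_smul, h13]
  have hfin : Module.finrank ℝ (E ⧸ W) ≤ D := by
    have h1 := Submodule.finrank_quotient_add_finrank W
    have h2 : Module.finrank ℝ W = 1 := finrank_span_singleton hne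
    omega
  refine LinEmb.to_fin (g := fun v => W.mkQ (g (2 * v))) ?_ hfin
  intro c hp hn h0
  have h1 : W.mkQ (Finsupp.linearCombination ℝ (g ∘ fun v => 2 * v) c) = 0 := by
    rw [← lc_map]; exact h0
  rw [Submodule.mkQ_apply, Submodule.Quotient.mk_eq_zero, hW, Submodule.mem_span_singleton] at h1
  obtain ⟨a, ha⟩ := h1
  rcases le_total 0 a with ha0 | ha0
  · exact joinN_key h (i := 0) (j := 1) (by omega) (by omega) hp hn ha0 ha0
      (by rw [← ha, smul_sub])
  · exact joinN_key h (i := 1) (j := 0) (by omega) (by omega) hp hn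
      (neg_nonneg.2 ha0) (neg_nonneg.2 ha0) (by
        rw [← ha, smul_sub, neg_smul, neg_smul]; simp only [mul_one, mul_zero, zero_add]; abel)

/-- Contraction of a join: two new points on the same sides of suitable hyperplanes. -/
theorem linEmb_of_join [FiniteDimensional ℝ E] {m : ℕ} {L : List (List ℕ)} {g : ℕ → E}
    (h : LinEmb (joinN m L) g) {i j : ℕ} (hi : i < m) (hj : j < m)
    (hind : LinearIndependent ℝ ![g (2 * i + 1), g (2 * j + 1)])
    (hℓ : ∀ F ∈ L, ∀ G ∈ L, ∃ ℓ : E →ₗ[ℝ] ℝ, (∀ v ∈ F, ℓ (g (2 * v)) = 0) ∧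
      (∀ v ∈ G, ℓ (g (2 * v)) = 0) ∧ 0 < ℓ (g (2 * i + 1)) * ℓ (g (2 * j + 1)))
    {D : ℕ} (hD : Module.finrank ℝ E ≤ D + 2) :
    ∃ g' : ℕ → Fin D → ℝ, LinEmb L g' := by
  set W : Submodule ℝ E := Submodule.span ℝ (Set.range ![g (2 * i + 1), g (2 * j + 1)]) with hW
  have hfin : Module.finrank ℝ (E ⧸ W) ≤ D := by
    have h1 := Submodule.finrank_quotient_add_finrank W
    have h2 : Module.finrank ℝ W = 2 := by
      rw [hW, finrank_span_eq_card hind]; simp
    omega
  refine LinEmb.to_fin (g := fun v => W.mkQ (g (2 * v))) ?_ hfin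
  intro c hp hn h0
  have h1 : W.mkQ (Finsupp.linearCombination ℝ (g ∘ fun v => 2 * v) c) = 0 := by
    rw [← lc_map]; exact h0
  rw [Submodule.mkQ_apply, Submodule.Quotient.mk_eq_zero, hW] at h1
  simp only [Matrix.range_cons, Matrix.range_empty, Set.union_empty, Set.singleton_union] at h1
  rw [Submodule.mem_span_pair] at h1
  obtain ⟨a, b, hab⟩ := h1
  rcases le_total 0 a with ha | ha <;> rcases le_total 0 b with hb | hb
  · -- both nonnegative
    obtain ⟨F, hF, hcF⟩ := hp
    obtain ⟨G, hG, hcG⟩ := hn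
    obtain ⟨ℓ, l1, l2, l3⟩ := hℓ F hF G hG
    have hz : ℓ (Finsupp.linearCombination ℝ (g ∘ fun v => 2 * v) c) = 0 := by
      rw [lc_eq, map_sum]
      refine sum_eq_zero fun v hv => ?_
      rw [map_smul]
      have hv' : c v ≠ 0 := by simpa using hv
      rcases lt_or_gt_of_ne hv' with h1 | h1
      · rw [Function.comp_apply, l2 v (hcG v h1), smul_zero]
      · rw [Function.comp_apply, l1 v (hcF v h1), smul_zero]
    rw [← hab, map_add, map_smul, map_smul, smul_eq_mul, smul_eq_mul] at hz
    have hz' : a * ℓ (g (2 * i + 1)) ^ 2 + b * (ℓ (g (2 * i + 1)) * ℓ (g (2 * j + 1))) = 0 := by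
      linear_combination ℓ (g (2 * i + 1)) * hz
    have hzi : 0 < ℓ (g (2 * i + 1)) ^ 2 := by
      have : ℓ (g (2 * i + 1)) ≠ 0 := by rintro h; rw [h, zero_mul] at l3; exact lt_irrefl _ l3
      positivity
    have hb0 : b = 0 := by
      by_contra hne
      have : 0 < b := lt_of_le_of_ne hb (Ne.symm hne)
      have := mul_pos this l3
      have := mul_nonneg ha hzi.le
      linarith
    have ha0 : a = 0 := by
      rw [hb0, zero_mul, add_zero] at hz'
      rcases mul_eq_zero.1 hz' with h | h
      · exact h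
      · exact absurd h hzi.ne'
    exact joinN_key h hi hj ⟨F, hF, hcF⟩ ⟨G, hG, hcG⟩ le_rfl le_rfl (by
      rw [← hab, ha0, hb0]; simp)
  · exact joinN_key h hi hj hp hn ha (neg_nonneg.2 hb) (by
      rw [← hab, neg_smul, sub_neg_eq_add])
  · exact joinN_key h hj hi hp hn hb (neg_nonneg.2 ha) (by
      rw [← hab, neg_smul, sub_neg_eq_add, add_comm])
  · obtain ⟨F, hF, hcF⟩ := hp
    obtain ⟨G, hG, hcG⟩ := hn
    obtain ⟨ℓ, l1, l2, l3⟩ := hℓ F hF G hG
    have hz : ℓ (Finsupp.linearCombination ℝ (g ∘ fun v => 2 * v) c) = 0 := by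
      rw [lc_eq, map_sum]
      refine sum_eq_zero fun v hv => ?_
      rw [map_smul]
      have hv' : c v ≠ 0 := by simpa using hv
      rcases lt_or_gt_of_ne hv' with h1 | h1
      · rw [Function.comp_apply, l2 v (hcG v h1), smul_zero]
      · rw [Function.comp_apply, l1 v (hcF v h1), smul_zero]
    rw [← hab, map_add, map_smul, map_smul, smul_eq_mul, smul_eq_mul] at hz
    have hz' : a * ℓ (g (2 * i + 1)) ^ 2 + b * (ℓ (g (2 * i + 1)) * ℓ (g (2 * j + 1))) = 0 := by
      linear_combination ℓ (g (2 * i + 1)) * hz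
    have hzi : 0 < ℓ (g (2 * i + 1)) ^ 2 := by
      have : ℓ (g (2 * i + 1)) ≠ 0 := by rintro h; rw [h, zero_mul] at l3; exact lt_irrefl _ l3
      positivity
    have hb0 : b = 0 := by
      by_contra hne
      have : b < 0 := lt_of_le_of_ne hb hne
      have := mul_neg_of_neg_of_pos this l3
      have := mul_nonpos_of_nonpos_of_nonneg ha hzi.le
      linarith
    have ha0 : a = 0 := by
      rw [hb0, zero_mul, add_zero] at hz'
      rcases mul_eq_zero.1 hz' with h | h
      · exact h
      · exact absurd h hzi.ne'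
    exact joinN_key h hi hj ⟨F, hF, hcF⟩ ⟨G, hG, hcG⟩ le_rfl le_rfl (by
      rw [← hab, ha0, hb0]; simp)

end Pool.Agent.H728
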