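import Pool.Agent.H728.Join

/-!
# Perturbation to general position
-/

namespace Pool.Agent.H728

open Finset Filter Topology

/-- The vertices of the members of `L`. -/
def verts (L : List (List ℕ)) : Finset ℕ := L.flatten.toFinset

theorem mem_verts {L : List (List ℕ)} {v : ℕ} : v ∈ verts L ↔ ∃ F ∈ L, v ∈ F := by
  simp [verts]

/-- Being an embedding is an open condition. -/
theorem LinEmb.eventually {D : ℕ} {L : List (List ℕ)} {g : ℕ → Fin D → ℝ} (h : LinEmb L g) :
    ∀ᶠ g' in 𝓝 g, LinEmb L g' := by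
  have key : ∀ F ∈ L, ∀ G ∈ L, ∀ᶠ g' in 𝓝 g, ∀ c : (verts L) → ℝ,
      ((∀ v : verts L, (v : ℕ) ∉ F → c v ≤ 0) ∧ (∀ v : verts L, (v : ℕ) ∉ G → 0 ≤ c v) ∧
        ∑ v, |c v| = 1) → ∑ v, c v • g' (v : ℕ) ≠ 0 := by
    intro F hF G hG
    set S : Set ((verts L) → ℝ) := {c | (∀ v : verts L, (v : ℕ) ∉ F → c v ≤ 0) ∧
      (∀ v : verts L, (v : ℕ) ∉ G → 0 ≤ c v) ∧ ∑ v, |c v| = 1} with hS
    have hcl : IsClosed S := by
      have e : S = (⋂ v : verts L, ⋂ _ : (v : ℕ) ∉ F, {c | c v ≤ 0}) ∩
          ((⋂ v : verts L, ⋂ _ : (v : ℕ) ∉ G, {c | 0 ≤ c v}) ∩ {c | ∑ v, |c v| = 1}) := by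
        ext c
        simp [hS]
      rw [e]
      refine IsClosed.inter ?_ (IsClosed.inter ?_ ?_)
      · exact isClosed_iInter fun v => isClosed_iInter fun _ =>
          isClosed_le (continuous_apply v) continuous_const
      · exact isClosed_iInter fun v => isClosed_iInter fun _ =>
          isClosed_le continuous_const (continuous_apply v)
      · exact isClosed_eq (continuous_finsetSum _ fun v _ => (continuous_apply v).abs)
          continuous_const
    have hcomp : IsCompact S := by
      refine (isCompact_closedBall (0 : (verts L) → ℝ) 1).of_isClosed_subset hcl fun c hc => ?_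
      rw [mem_closedBall_zero_iff, pi_norm_le_iff_of_nonneg zero_le_one]
      intro v
      rw [Real.norm_eq_abs, ← hc.2.2]
      exact single_le_sum (f := fun v => |c v|) (fun v _ => abs_nonneg _) (mem_univ v)
    have := hcomp.eventually_forall_of_forall_eventually (x₀ := g)
      (P := fun (g' : ℕ → Fin D → ℝ) (c : (verts L) → ℝ) => ∑ v, c v • g' (v : ℕ) ≠ 0) ?_
    · filter_upwards [this] with g' hg' c hc using hg' c hc
    · intro c hc
      have hcont : Continuous fun z : (ℕ → Fin D → ℝ) × ((verts L) → ℝ) =>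
          ∑ v : verts L, z.2 v • z.1 (v : ℕ) := by
        refine continuous_finsetSum _ fun v _ => ?_
        exact ((continuous_apply v).comp continuous_snd).smul
          ((continuous_apply (v : ℕ)).comp continuous_fst)
      refine (hcont.continuousAt (x := (g, c))).eventually_ne ?_
      simp only
      intro h0
      let c' : ℕ →₀ ℝ := Finsupp.onFinset (verts L)
        (fun v => if hv : v ∈ verts L then c ⟨v, hv⟩ else 0) (by
          intro v hv
          by_contra hn
          exact hv (dif_neg hn))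
      have hc' : ∀ v (hv : v ∈ verts L), c' v = c ⟨v, hv⟩ := fun v hv => dif_pos hv
      have hc'' : ∀ v, v ∉ verts L → c' v = 0 := fun v hv => dif_neg hv
      have h1 := h c' ⟨F, hF, fun v hv => ?_⟩ ⟨G, hG, fun v hv => ?_⟩ ?_
      · have h2 : ∀ v : verts L, c v = 0 := by
          intro v
          rw [← hc' v v.2, h1]
          rfl
        have h3 := hc.2.2
        simp only [h2, abs_zero, sum_const_zero] at h3
        exact zero_ne_one h3
      · by_contra hn
        by_cases hvV : v ∈ verts L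
        · rw [hc' v hvV] at hv
          exact absurd hv (not_lt.2 (hc.1 ⟨v, hvV⟩ hn))
        · rw [hc'' v hvV] at hv
          exact lt_irrefl _ hv
      · by_contra hn
        by_cases hvV : v ∈ verts L
        · rw [hc' v hvV] at hv
          exact absurd hv (not_lt.2 (hc.2.1 ⟨v, hvV⟩ hn))
        · rw [hc'' v hvV] at hv
          exact lt_irrefl _ hv
      · rw [lc_eq_of_subset g c' (s := verts L) (fun v hv => by
          by_contra hn
          exact hv (hc'' v hn))]
        rw [← h0, ← sum_coe_sort (verts L)]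
        exact sum_congr rfl fun v _ => by rw [hc' v v.2]
  have key2 : ∀ᶠ g' in 𝓝 g, ∀ F ∈ L.toFinset, ∀ G ∈ L.toFinset, ∀ c : (verts L) → ℝ,
      ((∀ v : verts L, (v : ℕ) ∉ F → c v ≤ 0) ∧ (∀ v : verts L, (v : ℕ) ∉ G → 0 ≤ c v) ∧
        ∑ v, |c v| = 1) → ∑ v, c v • g' (v : ℕ) ≠ 0 := by
    rw [eventually_all_finset]
    intro F hF
    rw [eventually_all_finset]
    intro G hG
    exact key F (List.mem_toFinset.1 hF) G (List.mem_toFinset.1 hG)
  filter_upwards [key2] with g' hg'
  rintro c ⟨F, hF, hcF⟩ ⟨G, hG, hcG⟩ h0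
  by_contra hc
  have hsup : ∀ v, c v ≠ 0 → v ∈ verts L := by
    intro v hv
    rcases lt_or_gt_of_ne hv with h1 | h1
    · exact mem_verts.2 ⟨G, hG, hcG v h1⟩
    · exact mem_verts.2 ⟨F, hF, hcF v h1⟩
  set s : ℝ := ∑ v : verts L, |c v| with hs
  have hspos : 0 < s := by
    obtain ⟨v, hv⟩ : ∃ v, c v ≠ 0 := by
      by_contra hn
      push Not at hn
      exact hc (Finsupp.ext hn)
    have := single_le_sum (f := fun v : verts L => |c v|) (fun v _ => abs_nonneg _)
      (mem_univ ⟨v, hsup v hv⟩)
    exact lt_of_lt_of_le (abs_pos.2 hv) this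
  refine hg' F (List.mem_toFinset.2 hF) G (List.mem_toFinset.2 hG) (fun v => s⁻¹ * c v)
    ⟨fun v hv => ?_, fun v hv => ?_, ?_⟩ ?_
  · have : ¬ 0 < c v := fun h => hv (hcF v h)
    exact mul_nonpos_of_nonneg_of_nonpos (inv_nonneg.2 hspos.le) (not_lt.1 this)
  · have : ¬ c v < 0 := fun h => hv (hcG v h)
    exact mul_nonneg (inv_nonneg.2 hspos.le) (not_lt.1 this)
  · simp only [abs_mul, abs_inv, abs_of_pos hspos]
    rw [← mul_sum, ← hs, inv_mul_cancel₀ hspos.ne']
  · simp only [mul_smul]
    rw [← smul_sum, sum_coe_sort (verts L) (fun v => c v • g' v), ← lc_eq_of_subset g' c hsup, h0,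
      smul_zero]

/-! ### The moment curve -/

/-- The moment curve. -/
noncomputable def mom (D : ℕ) (v : ℕ) : Fin D → ℝ := fun i => (v : ℝ) ^ (i : ℕ)

/-- The segment from `g` to the moment curve. -/
noncomputable def path {D : ℕ} (g : ℕ → Fin D → ℝ) (s : ℝ) (v : ℕ) : Fin D → ℝ :=
  (1 - s) • g v + s • mom D v

theorem tendsto_path {D : ℕ} (g : ℕ → Fin D → ℝ) : Tendsto (path g) (𝓝 0) (𝓝 g) := by
  have : Continuous (path g) := by
    refine continuous_pi fun v => ?_
    unfold path
    fun_prop
  have h := this.tendsto 0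
  have e : path g 0 = g := by
    funext v
    simp [path]
  rwa [e] at h

theorem eventually_indep {D : ℕ} (g : ℕ → Fin D → ℝ) (t : Fin D → ℕ)
    (ht : Function.Injective t) : ∀ᶠ s in 𝓝[≠] (0 : ℝ),
      LinearIndependent ℝ fun i => path g s (t i) := by
  open Polynomial in
  let M : Matrix (Fin D) (Fin D) ℝ[X] := Matrix.of fun i j =>
    (1 - X) * C (g (t i) j) + X * C (mom D (t i) j)
  have hM : ∀ s : ℝ, M.det.eval s = (Matrix.of fun i j => path g s (t i) j).det := by
    intro s
    have := RingHom.map_det (Polynomial.evalRingHom s) M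
    rw [Polynomial.coe_evalRingHom] at this
    rw [this]
    congr 1
    ext i j
    simp [M, path]
    ring
  have hne : M.det ≠ 0 := by
    intro h0
    have h1 := hM 1
    rw [h0, Polynomial.eval_zero] at h1
    have h2 : (Matrix.of fun i j => path g 1 (t i) j) =
        Matrix.vandermonde fun i => ((t i : ℕ) : ℝ) := by
      ext i j
      simp [path, mom, Matrix.vandermonde]
    rw [h2] at h1
    exact (Matrix.det_vandermonde_ne_zero_iff.2 (fun a b hab => ht (by exact_mod_cast hab)))
      h1.symm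
  have hfin : ({s | M.det.eval s = 0} : Set ℝ).Finite :=
    Polynomial.finite_setOfPred_isRoot hne
  have h1 : ∀ᶠ s in 𝓝[≠] (0 : ℝ), s ∉ ({s | M.det.eval s = 0} \ {0} : Set ℝ) := by
    refine nhdsWithin_le_nhds ?_
    have := (hfin.subset (Set.sdiff_subset (t := {(0 : ℝ)}))).isClosed.isOpen_compl.mem_nhds
      (x := (0 : ℝ)) (by simp)
    exact this
  filter_upwards [h1, self_mem_nhdsWithin] with s hs hs0
  have hdet : (Matrix.of fun i j => path g s (t i) j).det ≠ 0 := by
    rw [← hM]
    intro h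
    exact hs ⟨h, hs0⟩
  exact Matrix.linearIndependent_rows_of_det_ne_zero hdet

theorem eventually_generic {D : ℕ} (g : ℕ → Fin D → ℝ) (N : ℕ) : ∀ᶠ s in 𝓝[≠] (0 : ℝ),
    ∀ t : Fin D → ℕ, Function.Injective t → (∀ i, t i < N) →
      LinearIndependent ℝ fun i => path g s (t i) := by
  have h : ∀ᶠ s in 𝓝[≠] (0 : ℝ), ∀ t : Fin D → Fin N, Function.Injective t →
      LinearIndependent ℝ fun i => path g s (t i) := by
    rw [eventually_all]
    intro t
    by_cases ht : Function.Injective t
    · filter_upwards [eventually_indep g (fun i => (t i : ℕ))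
        (fun a b hab => ht (Fin.ext hab))] with s hs _ using hs
    · exact Eventually.of_forall fun s h => absurd h ht
  filter_upwards [h] with s hs t ht htN
  exact hs (fun i => ⟨t i, htN i⟩) fun a b hab => ht (by simpa using hab)

/-- Perturbation of an embedding to general position. -/
theorem LinEmb.exists_generic {D : ℕ} {L : List (List ℕ)} {g : ℕ → Fin D → ℝ} (h : LinEmb L g)
    (N : ℕ) : ∃ g' : ℕ → Fin D → ℝ, LinEmb L g' ∧ ∀ t : Fin D → ℕ, Function.Injective t →
      (∀ i, t i < N) → LinearIndependent ℝ fun i => g' (t i) := by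
  have h1 : ∀ᶠ s in 𝓝[≠] (0 : ℝ), LinEmb L (path g s) :=
    nhdsWithin_le_nhds ((tendsto_path g).eventually h.eventually)
  obtain ⟨s, hs1, hs2⟩ := (h1.and (eventually_generic g N)).exists
  exact ⟨path g s, hs1, hs2⟩

end Pool.Agent.H728
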