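import Pool.Agent.H728.Defs

/-!
# Geometric embeddings and linear dependencies

A map is a geometric embedding if and only if it has no nontrivial affine dependency whose positive
part and whose negative part are both supported by simplices.
-/

namespace Pool.Agent.H728

open Finset

variable {E : Type*} [AddCommGroup E] [Module ℝ E]

/-- The positive support is contained in a member of `L`. -/
def PosIn (L : List (List ℕ)) (c : ℕ →₀ ℝ) : Prop := ∃ F ∈ L, ∀ v, 0 < c v → v ∈ F

/-- The negative support is contained in a member of `L`. -/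
def NegIn (L : List (List ℕ)) (c : ℕ →₀ ℝ) : Prop := ∃ F ∈ L, ∀ v, c v < 0 → v ∈ F

/-- There is no nontrivial linear dependency of the vectors `g v` whose positive part and whose
negative part are supported by simplices. -/
def LinEmb (L : List (List ℕ)) (g : ℕ → E) : Prop :=
  ∀ c : ℕ →₀ ℝ, PosIn L c → NegIn L c → Finsupp.linearCombination ℝ g c = 0 → c = 0

/-- The affine version. -/
def AffEmb (L : List (List ℕ)) (f : ℕ → E) : Prop := LinEmb L fun v => (f v, (1 : ℝ))

theorem lc_eq (g : ℕ → E) (c : ℕ →₀ ℝ) :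
    Finsupp.linearCombination ℝ g c = ∑ v ∈ c.support, c v • g v := by
  rw [Finsupp.linearCombination_apply, Finsupp.sum]

theorem lc_eq_of_subset (g : ℕ → E) (c : ℕ →₀ ℝ) {s : Finset ℕ} (h : ∀ v, c v ≠ 0 → v ∈ s) :
    Finsupp.linearCombination ℝ g c = ∑ v ∈ s, c v • g v := by
  rw [lc_eq]
  refine sum_subset (fun v hv => h v (by simpa using hv)) fun v _ hv => ?_
  rw [Finsupp.notMem_support_iff.1 hv, zero_smul]

theorem lc_pair (f : ℕ → E) (c : ℕ →₀ ℝ) :
    Finsupp.linearCombination ℝ (fun v => (f v, (1 : ℝ))) c =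
      (Finsupp.linearCombination ℝ f c, Finsupp.linearCombination ℝ (fun _ => (1 : ℝ)) c) := by
  simp only [lc_eq, Prod.smul_mk]
  rw [Prod.ext_iff]
  constructor
  · rw [Prod.fst_sum]
  · rw [Prod.snd_sum]

theorem affEmb_iff {L : List (List ℕ)} {f : ℕ → E} : AffEmb L f ↔
    ∀ c : ℕ →₀ ℝ, PosIn L c → NegIn L c → ∑ v ∈ c.support, c v • f v = 0 →
      ∑ v ∈ c.support, c v = 0 → c = 0 := by
  unfold AffEmb LinEmb
  refine forall_congr' fun c => ?_
  rw [lc_pair, lc_eq, lc_eq, Prod.mk_eq_zero]
  simp only [smul_eq_mul, mul_one, and_imp]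

/-- Membership in the convex hull of the image of a finite set. -/
theorem mem_hull_iff (f : ℕ → E) (σ : Finset ℕ) (x : E) :
    x ∈ convexHull ℝ (f '' (σ : Set ℕ)) ↔ ∃ w : ℕ → ℝ, (∀ v, 0 ≤ w v) ∧ (∀ v, v ∉ σ → w v = 0) ∧
      ∑ v ∈ σ, w v = 1 ∧ ∑ v ∈ σ, w v • f v = x := by
  constructor
  · intro hx
    have hconv : Convex ℝ {x : E | ∃ w : ℕ → ℝ, (∀ v, 0 ≤ w v) ∧ (∀ v, v ∉ σ → w v = 0) ∧
        ∑ v ∈ σ, w v = 1 ∧ ∑ v ∈ σ, w v • f v = x} := by
      rintro x ⟨w, h1, h2, h3, h4⟩ y ⟨w', h1', h2', h3', h4'⟩ a b ha hb hab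
      refine ⟨fun v => a * w v + b * w' v, fun v => ?_, fun v hv => ?_, ?_, ?_⟩
      · have := h1 v; have := h1' v; positivity
      · simp only [h2 v hv, h2' v hv, mul_zero, add_zero]
      · rw [sum_add_distrib, ← mul_sum, ← mul_sum, h3, h3', mul_one, mul_one, hab]
      · simp only [add_smul, mul_smul]
        rw [sum_add_distrib, ← smul_sum, ← smul_sum, h4, h4']
    refine convexHull_min ?_ hconv hx
    rintro _ ⟨u, hu, rfl⟩
    have hu' : u ∈ σ := by simpa using hu
    refine ⟨fun v => if v = u then 1 else 0, fun v => ?_, fun v hv => ?_, ?_, ?_⟩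
    · by_cases h : v = u <;> simp [h]
    · exact if_neg (by rintro rfl; exact hv hu')
    · simp [hu']
    · simp [hu']
  · rintro ⟨w, h1, h2, h3, rfl⟩
    exact (convex_convexHull ℝ _).sum_mem (fun v _ => h1 v) h3 fun v hv =>
      subset_convexHull ℝ _ ⟨v, by simpa using hv, rfl⟩

theorem isGeomEmb_of_affEmb {d : ℕ} {L : List (List ℕ)} {f : ℕ → EuclideanSpace ℝ (Fin d)}
    (h : AffEmb L f) : IsGeomEmb d L f := by
  rw [affEmb_iff] at h
  refine ⟨fun σ hσ => ?_, fun σ τ hσ hτ => Set.Subset.antisymm ?_ ?_⟩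
  · obtain ⟨-, F, hF, hσF⟩ := hσ
    rw [affineIndependent_iff]
    intro s w hw hs e he
    let c : ℕ →₀ ℝ := ∑ e ∈ s, Finsupp.single (e : ℕ) (w e)
    have hc : ∀ e ∈ s, c (e : ℕ) = w e := by
      intro e he
      simp only [c, Finsupp.finsetSum_apply, Finsupp.single_apply]
      rw [sum_eq_single e]
      · simp
      · intro b _ hb
        rw [if_neg]
        exact fun h => hb (Subtype.ext h)
      · intro h; exact absurd he h
    have hc0 : ∀ v, c v ≠ 0 → v ∈ F := by
      intro v hv
      by_contra hvF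
      apply hv
      simp only [c, Finsupp.finsetSum_apply, Finsupp.single_apply]
      refine sum_eq_zero fun b _ => ?_
      rw [if_neg]
      rintro rfl
      exact hvF (List.mem_toFinset.1 (hσF b.2))
    have hsup : ∀ v, c v ≠ 0 → v ∈ s.map (Function.Embedding.subtype _) := by
      intro v hv
      by_contra hvF
      apply hv
      simp only [c, Finsupp.finsetSum_apply, Finsupp.single_apply]
      refine sum_eq_zero fun b hb => ?_
      rw [if_neg]
      rintro rfl
      exact hvF (by simpa using hb)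
    have key := h c ⟨F, hF, fun v hv => hc0 v hv.ne'⟩ ⟨F, hF, fun v hv => hc0 v hv.ne⟩ ?_ ?_
    · rw [← hc e he, key]; rfl
    · rw [← lc_eq, lc_eq_of_subset f c hsup, sum_map, ← hs]
      exact sum_congr rfl fun e he => by rw [Function.Embedding.coe_subtype, hc e he]
    · have := lc_eq (fun _ : ℕ => (1 : ℝ)) c
      simp only [smul_eq_mul, mul_one] at this
      rw [← this, lc_eq_of_subset _ c hsup, sum_map, ← hw]
      exact sum_congr rfl fun e he => by
        rw [Function.Embedding.coe_subtype, hc e he, smul_eq_mul, mul_one]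
  · rintro x ⟨hx1, hx2⟩
    obtain ⟨-, F, hF, hσF⟩ := hσ
    obtain ⟨-, G, hG, hτG⟩ := hτ
    rw [mem_hull_iff] at hx1 hx2
    obtain ⟨w, a1, a2, a3, a4⟩ := hx1
    obtain ⟨w', b1, b2, b3, b4⟩ := hx2
    let c : ℕ →₀ ℝ := Finsupp.onFinset (σ ∪ τ) (fun v => w v - w' v) (by
      intro v hv
      by_contra hn
      rw [mem_union, not_or] at hn
      exact hv (by rw [a2 v hn.1, b2 v hn.2, sub_zero]))
    have hcv : ∀ v, c v = w v - w' v := fun v => rfl
    have hsup : ∀ v, c v ≠ 0 → v ∈ σ ∪ τ := by
      intro v hv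
      by_contra hn
      rw [mem_union, not_or] at hn
      exact hv (by rw [hcv, a2 v hn.1, b2 v hn.2, sub_zero])
    have e1 : ∑ v ∈ σ ∪ τ, w v • f v = x := by
      rw [← a4]
      refine (sum_subset subset_union_left fun v _ hv => ?_).symm
      rw [a2 v hv, zero_smul]
    have e2 : ∑ v ∈ σ ∪ τ, w' v • f v = x := by
      rw [← b4]
      refine (sum_subset subset_union_right fun v _ hv => ?_).symm
      rw [b2 v hv, zero_smul]
    have e3 : ∑ v ∈ σ ∪ τ, w v = 1 := by
      rw [← a3]
      exact (sum_subset subset_union_left fun v _ hv => a2 v hv).symm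
    have e4 : ∑ v ∈ σ ∪ τ, w' v = 1 := by
      rw [← b3]
      exact (sum_subset subset_union_right fun v _ hv => b2 v hv).symm
    have key := h c ⟨F, hF, fun v hv => ?_⟩ ⟨G, hG, fun v hv => ?_⟩ ?_ ?_
    · have hww : ∀ v, w v = w' v := by
        intro v
        have := DFunLike.congr_fun key v
        rw [hcv] at this
        exact sub_eq_zero.1 this
      rw [mem_hull_iff]
      refine ⟨w, a1, fun v hv => ?_, ?_, ?_⟩
      · rw [mem_inter, not_and_or] at hv
        rcases hv with hv | hv
        · exact a2 v hv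
        · rw [hww, b2 v hv]
      · rw [← a3]
        refine sum_subset inter_subset_left fun v hv1 hv2 => ?_
        rw [mem_inter, not_and] at hv2
        rw [hww, b2 v (hv2 hv1)]
      · rw [← a4]
        refine sum_subset inter_subset_left fun v hv1 hv2 => ?_
        rw [mem_inter, not_and] at hv2
        rw [hww, b2 v (hv2 hv1), zero_smul]
    · have : v ∈ σ := by
        by_contra hn
        rw [hcv, a2 v hn] at hv
        have := b1 v
        linarith
      exact List.mem_toFinset.1 (hσF this)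
    · have : v ∈ τ := by
        by_contra hn
        rw [hcv, b2 v hn] at hv
        have := a1 v
        linarith
      exact List.mem_toFinset.1 (hτG this)
    · rw [← lc_eq, lc_eq_of_subset f c hsup]
      simp only [hcv, sub_smul]
      rw [sum_sub_distrib, e1, e2, sub_self]
    · have := lc_eq (fun _ : ℕ => (1 : ℝ)) c
      simp only [smul_eq_mul, mul_one] at this
      rw [← this, lc_eq_of_subset _ c hsup]
      simp only [hcv, smul_eq_mul, mul_one]
      rw [sum_sub_distrib, e3, e4, sub_self]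
  · refine Set.subset_inter (convexHull_mono (Set.image_mono ?_))
      (convexHull_mono (Set.image_mono ?_))
    · rw [coe_inter]; exact Set.inter_subset_left
    · rw [coe_inter]; exact Set.inter_subset_right

theorem affEmb_of_isGeomEmb {d : ℕ} {L : List (List ℕ)} {f : ℕ → EuclideanSpace ℝ (Fin d)}
    (h : IsGeomEmb d L f) : AffEmb L f := by
  rw [affEmb_iff]
  rintro c ⟨F, hF, hcF⟩ ⟨G, hG, hcG⟩ h1 h2
  by_contra hc
  set A := c.support.filter fun v => 0 < c v with hA
  set B := c.support.filter fun v => ¬ 0 < c v with hB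
  have hsum : ∑ v ∈ A, c v + ∑ v ∈ B, c v = 0 := by
    rw [← h2]; exact sum_filter_add_sum_filter_not _ _ _
  have hsumf : ∑ v ∈ A, c v • f v + ∑ v ∈ B, c v • f v = 0 := by
    rw [← h1]; exact sum_filter_add_sum_filter_not _ _ _
  have hBneg : ∀ v ∈ B, c v < 0 := by
    intro v hv
    rw [hB, mem_filter, Finsupp.mem_support_iff] at hv
    exact lt_of_le_of_ne (not_lt.1 hv.2) hv.1
  have hApos : ∀ v ∈ A, 0 < c v := by
    intro v hv
    rw [hA, mem_filter] at hv
    exact hv.2
  have hne : A.Nonempty := by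
    by_contra hAe
    rw [not_nonempty_iff_eq_empty] at hAe
    rw [hAe, sum_empty, zero_add] at hsum
    have hBe : B = ∅ := by
      by_contra hBe
      have := sum_neg hBneg (nonempty_iff_ne_empty.2 hBe)
      linarith
    apply hc
    ext v
    by_contra hv
    have hv' : v ∈ c.support := by simpa using hv
    by_cases hp : 0 < c v
    · have : v ∈ A := by rw [hA, mem_filter]; exact ⟨hv', hp⟩
      rw [hAe] at this; simp at this
    · have : v ∈ B := by rw [hB, mem_filter]; exact ⟨hv', hp⟩
      rw [hBe] at this; simp at this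
  have hs : 0 < ∑ v ∈ A, c v := sum_pos hApos hne
  have hneB : B.Nonempty := by
    by_contra hBe
    rw [not_nonempty_iff_eq_empty] at hBe
    rw [hBe, sum_empty, add_zero] at hsum
    linarith
  set s := ∑ v ∈ A, c v with hsdef
  have hsB : ∑ v ∈ B, c v = -s := by linarith
  have sA : Simplex L A := ⟨hne, F, hF, fun v hv => List.mem_toFinset.2 (hcF v (hApos v hv))⟩
  have sB : Simplex L B := ⟨hneB, G, hG, fun v hv => List.mem_toFinset.2 (hcG v (hBneg v hv))⟩
  have hint := h.inter A B sA sB
  have hdis : A ∩ B = ∅ := by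
    ext v
    simp only [mem_inter, notMem_empty, iff_false, not_and]
    intro h1 h2
    exact absurd (hApos v h1) (not_lt.2 (hBneg v h2).le)
  rw [hdis, coe_empty, Set.image_empty, convexHull_empty] at hint
  have hx : s⁻¹ • ∑ v ∈ A, c v • f v ∈ (∅ : Set (EuclideanSpace ℝ (Fin d))) := by
    rw [← hint]
    constructor
    · rw [smul_sum]
      simp only [smul_smul]
      refine (convex_convexHull ℝ _).sum_mem (fun v hv => ?_) ?_ fun v hv =>
        subset_convexHull ℝ _ ⟨v, by simpa using hv, rfl⟩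
      · exact mul_nonneg (inv_nonneg.2 hs.le) (hApos v hv).le
      · rw [← mul_sum, ← hsdef]
        exact inv_mul_cancel₀ hs.ne'
    · have e : ∑ v ∈ A, c v • f v = ∑ v ∈ B, (- c v) • f v := by
        simp only [neg_smul]
        rw [sum_neg_distrib]
        exact eq_neg_of_add_eq_zero_left hsumf
      rw [e, smul_sum]
      simp only [smul_smul]
      refine (convex_convexHull ℝ _).sum_mem (fun v hv => ?_) ?_ fun v hv =>
        subset_convexHull ℝ _ ⟨v, by simpa using hv, rfl⟩
      · exact mul_nonneg (inv_nonneg.2 hs.le) (by have := hBneg v hv; linarith)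
      · rw [← mul_sum, sum_neg_distrib, hsB, neg_neg]
        exact inv_mul_cancel₀ hs.ne'
  exact hx

theorem isGeomEmb_iff {d : ℕ} {L : List (List ℕ)} {f : ℕ → EuclideanSpace ℝ (Fin d)} :
    IsGeomEmb d L f ↔ AffEmb L f := ⟨affEmb_of_isGeomEmb, isGeomEmb_of_affEmb⟩

/-! ### Linear maps -/

variable {E' : Type*} [AddCommGroup E'] [Module ℝ E']

theorem lc_map (T : E →ₗ[ℝ] E') (g : ℕ → E) (c : ℕ →₀ ℝ) :
    Finsupp.linearCombination ℝ (fun v => T (g v)) c = T (Finsupp.linearCombination ℝ g c) := by
  rw [lc_eq, lc_eq, map_sum]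
  simp only [map_smul]

/-- If the image under a linear map is an embedding, then so is the original map. -/
theorem LinEmb.of_map {L : List (List ℕ)} {g : ℕ → E} (T : E →ₗ[ℝ] E')
    (h : LinEmb L fun v => T (g v)) : LinEmb L g := by
  intro c h1 h2 h3
  refine h c h1 h2 ?_
  rw [lc_map, h3, map_zero]

theorem LinEmb.map {L : List (List ℕ)} {g : ℕ → E} (h : LinEmb L g) (T : E →ₗ[ℝ] E')
    (hT : Function.Injective T) : LinEmb L fun v => T (g v) := by
  intro c h1 h2 h3
  refine h c h1 h2 ?_
  rw [lc_map] at h3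
  exact hT (by rw [h3, map_zero])

theorem AffEmb.map {L : List (List ℕ)} {f : ℕ → E} (h : AffEmb L f) (T : E →ₗ[ℝ] E')
    (hT : Function.Injective T) : AffEmb L fun v => T (f v) := by
  have := LinEmb.map h (T.prodMap LinearMap.id) (hT.prodMap Function.injective_id)
  exact this

end Pool.Agent.H728
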