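import Pool.Agent.H728.Lin

/-!
# Functionals which certify an embedding
-/

namespace Pool.Agent.H728

open Finset

/-- A version of Gordan's theorem. -/
theorem exists_sep_functional {V : Type*} [AddCommGroup V] [Module ℝ V] [FiniteDimensional ℝ V]
    (g : ℕ → V) {A B Z : Finset ℕ} (hAB : Disjoint A B) (hAZ : Disjoint (A ∪ B) Z)
    (h : ∀ c : ℕ → ℝ, (∀ v ∈ A, 0 ≤ c v) → (∀ v ∈ B, c v ≤ 0) →
      ∑ v ∈ (A ∪ B) ∪ Z, c v • g v = 0 → ∀ v ∈ A ∪ B, c v = 0) :
    ∃ φ : V →ₗ[ℝ] ℝ, (∀ v ∈ A, 0 < φ (g v)) ∧ (∀ v ∈ B, φ (g v) < 0) ∧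
      ∀ v ∈ Z, φ (g v) = 0 := by
  classical
  set W : Submodule ℝ V := Submodule.span ℝ (g '' (Z : Set ℕ)) with hW
  set e := (Module.finBasis ℝ (V ⧸ W)).equivFun with he
  set π : V →ₗ[ℝ] (Fin (Module.finrank ℝ (V ⧸ W)) → ℝ) := e.toLinearMap ∘ₗ W.mkQ with hπ
  have hker : ∀ x, π x = 0 → x ∈ W := by
    intro x hx
    rw [hπ, LinearMap.comp_apply] at hx
    have h1 : W.mkQ x = 0 := e.injective (by rw [map_zero]; exact hx)
    rwa [Submodule.mkQ_apply, Submodule.Quotient.mk_eq_zero] at h1
  have hker' : ∀ v ∈ Z, π (g v) = 0 := by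
    intro v hv
    rw [hπ, LinearMap.comp_apply, Submodule.mkQ_apply, (Submodule.Quotient.mk_eq_zero W).2
      (Submodule.subset_span ⟨v, hv, rfl⟩), map_zero]
  set s : ℕ → ℝ := fun v => if v ∈ A then 1 else -1 with hs
  set p : ℕ → (Fin (Module.finrank ℝ (V ⧸ W)) → ℝ) := fun v => s v • π (g v) with hp
  have h0 : (0 : Fin (Module.finrank ℝ (V ⧸ W)) → ℝ) ∉
      convexHull ℝ (p '' ((A ∪ B : Finset ℕ) : Set ℕ)) := by
    intro hmem
    rw [mem_hull_iff] at hmem
    obtain ⟨w, w1, w2, w3, w4⟩ := hmem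
    have h1 : π (∑ v ∈ A ∪ B, (w v * s v) • g v) = 0 := by
      rw [map_sum, ← w4]
      exact sum_congr rfl fun v _ => by rw [map_smul, hp, smul_smul]
    have h2 := hker _ h1
    rw [hW, Submodule.mem_span_image_finset_iff_exists_fun] at h2
    obtain ⟨b', hb'⟩ := h2
    obtain ⟨b, hb⟩ : ∃ b : ℕ → ℝ, ∑ v ∈ Z, b v • g v = ∑ v ∈ A ∪ B, (w v * s v) • g v := by
      refine ⟨fun v => if hv : v ∈ Z then b' ⟨v, hv⟩ else 0, ?_⟩
      rw [← hb', ← sum_coe_sort Z]
      exact sum_congr rfl fun v _ => by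
        beta_reduce
        rw [dif_pos v.2]
    have h3 := h (fun v => if v ∈ A ∪ B then w v * s v else - b v) (fun v hv => by
      simp only [mem_union, hv, true_or, if_true, hs, mul_one]
      exact w1 v) (fun v hv => by
      have hvA : v ∉ A := fun h => disjoint_left.1 hAB h hv
      simp only [mem_union, hv, or_true, if_true, hs, hvA, if_false, mul_neg, mul_one]
      have := w1 v
      linarith) (by
      rw [sum_union hAZ]
      have e1 : ∑ v ∈ A ∪ B, (if v ∈ A ∪ B then w v * s v else - b v) • g v =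
          ∑ v ∈ A ∪ B, (w v * s v) • g v :=
        sum_congr rfl fun v hv => by rw [if_pos hv]
      have e2 : ∑ v ∈ Z, (if v ∈ A ∪ B then w v * s v else - b v) • g v =
          - ∑ v ∈ Z, b v • g v := by
        rw [← sum_neg_distrib]
        exact sum_congr rfl fun v hv => by
          rw [if_neg (disjoint_right.1 hAZ hv), neg_smul]
      rw [e1, e2, hb, add_neg_cancel])
    have h4 : ∑ v ∈ A ∪ B, w v = 0 := by
      refine sum_eq_zero fun v hv => ?_
      have h5 := h3 v hv
      simp only [hv, if_true] at h5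
      rcases mul_eq_zero.1 h5 with h6 | h6
      · exact h6
      · exfalso
        simp only [hs] at h6
        split_ifs at h6 <;> norm_num at h6
    rw [h4] at w3
    exact zero_ne_one w3
  have hfin : (p '' ((A ∪ B : Finset ℕ) : Set ℕ)).Finite := (finite_toSet _).image _
  obtain ⟨f, u, hf0, hf⟩ := geometric_hahn_banach_point_closed
    (convex_convexHull ℝ (p '' ((A ∪ B : Finset ℕ) : Set ℕ))) (Set.Finite.isClosed_convexHull (𝕜 := ℝ) hfin) h0
  rw [map_zero] at hf0
  have hpos : ∀ v ∈ A ∪ B, 0 < f (p v) := fun v hv =>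
    hf0.trans (hf _ (subset_convexHull ℝ _ ⟨v, hv, rfl⟩))
  refine ⟨f.toLinearMap ∘ₗ π, fun v hv => ?_, fun v hv => ?_, fun v hv => ?_⟩
  · have h1 := hpos v (mem_union_left _ hv)
    simp only [hp, hs, if_pos hv, one_smul] at h1
    exact h1
  · have h1 := hpos v (mem_union_right _ hv)
    have hvA : v ∉ A := fun h => disjoint_left.1 hAB h hv
    simp only [hp, hs, if_neg hvA, neg_smul, one_smul, map_neg] at h1
    change f (π (g v)) < 0
    linarith
  · change f (π (g v)) = 0
    rw [hker' v hv, map_zero]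

/-- The conditions: for every pair of simplices, and for every vertex of every simplex. -/
def conds (L : List (List ℕ)) : List (List ℕ × List ℕ × List ℕ) :=
  (L.flatMap fun F => L.map fun G =>
    (F.filter fun v => !decide (v ∈ G), G.filter fun v => !decide (v ∈ F),
      F.filter fun v => decide (v ∈ G))) ++
  L.flatMap fun F => F.map fun v => ([v], [], F.filter fun w => !decide (w = v))

/-- The functional `φ` certifies the condition. -/
def Cert {V : Type*} [AddCommGroup V] [Module ℝ V] (g : ℕ → V) (φ : V →ₗ[ℝ] ℝ)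
    (C : List ℕ × List ℕ × List ℕ) : Prop :=
  (∀ v ∈ C.1, 0 < φ (g v)) ∧ (∀ v ∈ C.2.1, φ (g v) < 0) ∧ ∀ v ∈ C.2.2, φ (g v) = 0

theorem linEmb_iff_cert {V : Type*} [AddCommGroup V] [Module ℝ V] [FiniteDimensional ℝ V]
    {L : List (List ℕ)} {g : ℕ → V} :
    LinEmb L g ↔ ∀ C ∈ conds L, ∃ φ : V →ₗ[ℝ] ℝ, Cert g φ C := by
  constructor
  · intro h C hC
    unfold conds at hC
    rw [List.mem_append, List.mem_flatMap, List.mem_flatMap] at hC
    have key : ∀ (A B Z : Finset ℕ), Disjoint A B → Disjoint (A ∪ B) Z → ∀ F ∈ L, ∀ G ∈ L,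
        (∀ v ∈ A ∪ Z, v ∈ F) → (∀ v ∈ B ∪ Z, v ∈ G) →
        ∃ φ : V →ₗ[ℝ] ℝ, (∀ v ∈ A, 0 < φ (g v)) ∧ (∀ v ∈ B, φ (g v) < 0) ∧
          ∀ v ∈ Z, φ (g v) = 0 := by
      intro A B Z hAB hAZ F hF G hG hAF hBG
      refine exists_sep_functional g hAB hAZ fun c hc1 hc2 hc3 => ?_
      let c' : ℕ →₀ ℝ := Finsupp.onFinset ((A ∪ B) ∪ Z)
        (fun v => if v ∈ (A ∪ B) ∪ Z then c v else 0) (by
          intro v hv
          by_contra hn
          exact hv (if_neg hn))
      have hc' : ∀ v, c' v = if v ∈ (A ∪ B) ∪ Z then c v else 0 := fun v => rfl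
      have h1 := h c' ⟨F, hF, fun v hv => ?_⟩ ⟨G, hG, fun v hv => ?_⟩ ?_
      · intro v hv
        have h2 := DFunLike.congr_fun h1 v
        rw [hc', if_pos (mem_union_left _ hv)] at h2
        exact h2
      · rw [hc'] at hv
        split_ifs at hv with h2
        · rw [mem_union, mem_union] at h2
          rcases h2 with (h2 | h2) | h2
          · exact hAF v (mem_union_left _ h2)
          · exact absurd hv (not_lt.2 (hc2 v h2))
          · exact hAF v (mem_union_right _ h2)
        · exact absurd hv (lt_irrefl _)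
      · rw [hc'] at hv
        split_ifs at hv with h2
        · rw [mem_union, mem_union] at h2
          rcases h2 with (h2 | h2) | h2
          · exact absurd hv (not_lt.2 (hc1 v h2))
          · exact hBG v (mem_union_left _ h2)
          · exact hBG v (mem_union_right _ h2)
        · exact absurd hv (lt_irrefl _)
      · rw [lc_eq_of_subset g c' (s := (A ∪ B) ∪ Z) (fun v hv => by
          by_contra hn
          exact hv (by rw [hc', if_neg hn])), ← hc3]
        exact sum_congr rfl fun v hv => by rw [hc', if_pos hv]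
    rcases hC with ⟨F, hF, hC⟩ | ⟨F, hF, hC⟩
    · obtain ⟨G, hG, rfl⟩ := List.mem_map.1 hC
      obtain ⟨φ, h1, h2, h3⟩ := key (F.filter fun v => !decide (v ∈ G)).toFinset
        (G.filter fun v => !decide (v ∈ F)).toFinset (F.filter fun v => decide (v ∈ G)).toFinset
        (by
          rw [disjoint_left]
          intro v h1 h2
          simp at h1 h2
          exact h2.2 h1.1) (by
          rw [disjoint_left]
          intro v h1 h2
          simp at h1 h2
          tauto) F hF G hG (by
          intro v hv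
          simp at hv
          tauto) (by
          intro v hv
          simp at hv
          tauto)
      exact ⟨φ, fun v hv => h1 v (List.mem_toFinset.2 hv),
        fun v hv => h2 v (List.mem_toFinset.2 hv), fun v hv => h3 v (List.mem_toFinset.2 hv)⟩
    · obtain ⟨u, hu, rfl⟩ := List.mem_map.1 hC
      obtain ⟨φ, h1, h2, h3⟩ := key [u].toFinset ([] : List ℕ).toFinset
        (F.filter fun w => !decide (w = u)).toFinset (by simp) (by
          rw [disjoint_left]
          intro v h1 h2
          simp at h1 h2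
          exact h2.2 h1) F hF F hF (by
          intro v hv
          simp only [List.toFinset_cons, List.toFinset_nil, insert_empty_eq, mem_union,
            mem_singleton, List.mem_toFinset, List.mem_filter] at hv
          rcases hv with rfl | hv
          · exact hu
          · exact hv.1) (by
          intro v hv
          simp only [List.toFinset_nil, mem_union, notMem_empty, false_or, List.mem_toFinset,
            List.mem_filter] at hv
          exact hv.1)
      exact ⟨φ, fun v hv => h1 v (List.mem_toFinset.2 hv),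
        fun v hv => h2 v (List.mem_toFinset.2 hv), fun v hv => h3 v (List.mem_toFinset.2 hv)⟩
  · rintro h c ⟨F, hF, hcF⟩ ⟨G, hG, hcG⟩ h0
    have hsum : ∀ φ : V →ₗ[ℝ] ℝ, ∑ v ∈ c.support, c v * φ (g v) = 0 := by
      intro φ
      have h3 := congrArg φ h0
      rw [lc_eq, map_sum, map_zero] at h3
      simpa only [map_smul, smul_eq_mul] using h3
    obtain ⟨φ, h1, h2, h3⟩ := h _ (List.mem_append_left _ (List.mem_flatMap.2
      ⟨F, hF, List.mem_map.2 ⟨G, hG, rfl⟩⟩))
    simp only [List.mem_filter, Bool.not_eq_true', decide_eq_false_iff_not,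
      decide_eq_true_iff] at h1 h2 h3
    have hnn : ∀ v ∈ c.support, 0 ≤ c v * φ (g v) := by
      intro v hv
      rw [Finsupp.mem_support_iff] at hv
      rcases lt_or_gt_of_ne hv with h4 | h4
      · have hvG := hcG v h4
        by_cases hvF : v ∈ F
        · rw [h3 v ⟨hvF, hvG⟩, mul_zero]
        · exact (mul_pos_of_neg_of_neg h4 (h2 v ⟨hvG, hvF⟩)).le
      · have hvF := hcF v h4
        by_cases hvG : v ∈ G
        · rw [h3 v ⟨hvF, hvG⟩, mul_zero]
        · exact (mul_pos h4 (h1 v ⟨hvF, hvG⟩)).le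
    have hz := (sum_eq_zero_iff_of_nonneg hnn).1 (hsum φ)
    have hsup : ∀ v, c v ≠ 0 → v ∈ F ∧ v ∈ G := by
      intro v hv
      have h5 := hz v (Finsupp.mem_support_iff.2 hv)
      have h6 : φ (g v) = 0 := (mul_eq_zero.1 h5).resolve_left hv
      rcases lt_or_gt_of_ne hv with h4 | h4
      · have hvG := hcG v h4
        by_cases hvF : v ∈ F
        · exact ⟨hvF, hvG⟩
        · exact absurd (h2 v ⟨hvG, hvF⟩) (by rw [h6]; exact lt_irrefl _)
      · have hvF := hcF v h4
        by_cases hvG : v ∈ G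
        · exact ⟨hvF, hvG⟩
        · exact absurd (h1 v ⟨hvF, hvG⟩) (by rw [h6]; exact lt_irrefl _)
    ext v
    by_contra hv
    obtain ⟨φ', h1', -, h3'⟩ := h _ (List.mem_append_right _ (List.mem_flatMap.2
      ⟨F, hF, List.mem_map.2 ⟨v, (hsup v hv).1, rfl⟩⟩))
    simp only [List.mem_filter, Bool.not_eq_true', decide_eq_false_iff_not, List.mem_singleton,
      forall_eq] at h1' h3'
    have h7 := hsum φ'
    rw [sum_eq_single v (fun w hw hwv => by
      rw [h3' w ⟨(hsup w (Finsupp.mem_support_iff.1 hw)).1, hwv⟩, mul_zero])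
      (fun h => absurd (Finsupp.mem_support_iff.2 hv) h)] at h7
    rcases mul_eq_zero.1 h7 with h8 | h8
    · exact hv h8
    · exact absurd h8 h1'.ne'

end Pool.Agent.H728
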