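import Pool.Agent.H728.Mem1
import Pool.Agent.H728.Hard
import Pool.Agent.H670R2.ERMem
import Pool.Agent.ER.Dec

/-!
# Membership in `∃ℝ`
-/

namespace Pool.Agent.NPC.ER.H728

open Pool.Agent.NPC Pool.Agent.H728
open Pool.Agent.NPC.H670R2 (ff tt conj holds_conj poly_conj poly_tvar poly_tadd poly_tmul poly_eq
  poly_lt not_etr_ff)

/-! ### The formula -/

/-- The value of the `q`-th functional at the vertex `v` (the first `n` terms). -/
def linT (D : ℕ) : ℕ → ℕ → ℕ → Tm
  | 0, q, _ => Tm.var ((2 * q + 1) * (D + 1) + D)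
  | n + 1, q, v => Tm.add (linT D n q v)
      (Tm.mul (Tm.var ((2 * q + 1) * (D + 1) + n)) (Tm.var (2 * v * (D + 1) + n)))

theorem eval_linT (x : ℕ → ℝ) (D n q v : ℕ) : (linT D n q v).eval x =
    x ((2 * q + 1) * (D + 1) + D) + ∑ i ∈ Finset.range n,
      x ((2 * q + 1) * (D + 1) + i) * x (2 * v * (D + 1) + i) := by
  induction n with
  | zero => simp [linT, Tm.eval]
  | succ n ih =>
    rw [Finset.sum_range_succ, ← add_assoc, ← ih]
    rfl

/-- The formulas of a condition. -/
def condF (D : ℕ) (p : (List ℕ × List ℕ × List ℕ) × ℕ) : List Fm :=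
  (p.1.1.map fun v => Fm.lt Tm.zero (linT D D p.2 v)) ++
    ((p.1.2.1.map fun v => Fm.lt (linT D D p.2 v) Tm.zero) ++
      p.1.2.2.map fun v => Fm.eq (linT D D p.2 v) Tm.zero)

/-- The formula which states that there is an embedding. -/
def formC (D : ℕ) (L : List (List ℕ)) : Fm := conj ((conds L).zipIdx.flatMap (condF D))

theorem holds_formC (D : ℕ) (L : List (List ℕ)) (x : ℕ → ℝ) : (formC D L).Holds x ↔
    ∀ q (hq : q < (conds L).length),
      (∀ v ∈ (conds L)[q].1, 0 < (linT D D q v).eval x) ∧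
      (∀ v ∈ (conds L)[q].2.1, (linT D D q v).eval x < 0) ∧
      ∀ v ∈ (conds L)[q].2.2, (linT D D q v).eval x = 0 := by
  unfold formC
  rw [holds_conj]
  constructor
  · intro h q hq
    have hmem : ((conds L)[q], q) ∈ (conds L).zipIdx := by
      rw [List.mem_zipIdx_iff_getElem?]
      exact List.getElem?_eq_getElem hq
    refine ⟨fun v hv => ?_, fun v hv => ?_, fun v hv => ?_⟩
    · exact h _ (List.mem_flatMap.2 ⟨_, hmem, List.mem_append_left _ (List.mem_map_of_mem hv)⟩)
    · exact h _ (List.mem_flatMap.2 ⟨_, hmem, List.mem_append_right _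
        (List.mem_append_left _ (List.mem_map_of_mem hv))⟩)
    · exact h _ (List.mem_flatMap.2 ⟨_, hmem, List.mem_append_right _
        (List.mem_append_right _ (List.mem_map_of_mem hv))⟩)
  · intro h φ hφ
    obtain ⟨⟨C, q⟩, hmem, hφ⟩ := List.mem_flatMap.1 hφ
    rw [List.mem_zipIdx_iff_getElem?, List.getElem?_eq_some_iff] at hmem
    obtain ⟨hq, hC⟩ := hmem
    obtain ⟨h1, h2, h3⟩ := h q hq
    simp only at hC
    rw [hC] at h1 h2 h3
    unfold condF at hφ
    rcases List.mem_append.1 hφ with hφ | hφ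
    · obtain ⟨v, hv, rfl⟩ := List.mem_map.1 hφ
      exact h1 v hv
    · rcases List.mem_append.1 hφ with hφ | hφ
      · obtain ⟨v, hv, rfl⟩ := List.mem_map.1 hφ
        exact h2 v hv
      · obtain ⟨v, hv, rfl⟩ := List.mem_map.1 hφ
        exact h3 v hv

/-- The functional with given coefficients. -/
noncomputable def funOf (D : ℕ) (z : ℕ → ℝ) : (Fin D → ℝ) × ℝ →ₗ[ℝ] ℝ where
  toFun p := z D * p.2 + ∑ i : Fin D, z i * p.1 i
  map_add' p p' := by
    simp only [Prod.fst_add, Prod.snd_add, Pi.add_apply, mul_add, Finset.sum_add_distrib]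
    ring
  map_smul' r p := by
    simp only [Prod.smul_fst, Prod.smul_snd, Pi.smul_apply, smul_eq_mul, RingHom.id_apply, mul_add,
      Finset.mul_sum]
    congr 1
    · ring
    · exact Finset.sum_congr rfl fun i _ => by ring

theorem funOf_apply (D : ℕ) (z : ℕ → ℝ) (y : Fin D → ℝ) :
    funOf D z (y, 1) = z D + ∑ i : Fin D, z i * y i := by
  change z D * 1 + _ = _
  rw [mul_one]

theorem exists_funOf (D : ℕ) (φ : (Fin D → ℝ) × ℝ →ₗ[ℝ] ℝ) : ∃ z : ℕ → ℝ, ∀ y : Fin D → ℝ,
    φ (y, 1) = z D + ∑ i : Fin D, z i * y i := by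
  refine ⟨fun i => if h : i < D then φ (Pi.single ⟨i, h⟩ 1, 0) else φ (0, 1), fun y => ?_⟩
  have h1 : ((y, 1) : (Fin D → ℝ) × ℝ) = (0, 1) + ∑ i : Fin D, y i • ((Pi.single i 1, 0) :
      (Fin D → ℝ) × ℝ) := by
    refine Prod.ext ?_ ?_
    · rw [Prod.fst_add, Prod.fst_sum]
      funext j
      simp [Finset.sum_apply, Pi.single_apply]
    · rw [Prod.snd_add, Prod.snd_sum]
      simp
  rw [h1, map_add, map_sum]
  simp only [lt_irrefl, dif_neg, not_false_iff, map_smul, smul_eq_mul]
  congr 1
  refine Finset.sum_congr rfl fun i _ => ?_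
  rw [dif_pos i.2, mul_comm]

theorem etr_formC (D : ℕ) (L : List (List ℕ)) :
    ETR (formC D L) ↔ ∃ f : ℕ → Fin D → ℝ, AffEmb L f := by
  unfold ETR
  constructor
  · rintro ⟨x, hx⟩
    rw [holds_formC] at hx
    refine ⟨fun v i => x (2 * v * (D + 1) + i), ?_⟩
    unfold AffEmb
    rw [linEmb_iff_cert]
    intro C hC
    obtain ⟨q, hq, rfl⟩ := List.getElem_of_mem hC
    have he : ∀ v, (linT D D q v).eval x = funOf D (fun i => x ((2 * q + 1) * (D + 1) + i))
        ((fun i : Fin D => x (2 * v * (D + 1) + i)), 1) := by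
      intro v
      rw [eval_linT, funOf_apply, Finset.sum_range]
    obtain ⟨h1, h2, h3⟩ := hx q hq
    refine ⟨funOf D (fun i => x ((2 * q + 1) * (D + 1) + i)), fun v hv => ?_, fun v hv => ?_,
      fun v hv => ?_⟩
    · have := h1 v hv
      rwa [he] at this
    · have := h2 v hv
      rwa [he] at this
    · have := h3 v hv
      rwa [he] at this
  · rintro ⟨f, hf⟩
    unfold AffEmb at hf
    rw [linEmb_iff_cert] at hf
    have hz : ∀ q, ∃ z : ℕ → ℝ, ∀ hq : q < (conds L).length,
        (∀ v ∈ (conds L)[q].1, 0 < z D + ∑ i : Fin D, z i * f v i) ∧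
        (∀ v ∈ (conds L)[q].2.1, z D + ∑ i : Fin D, z i * f v i < 0) ∧
        ∀ v ∈ (conds L)[q].2.2, z D + ∑ i : Fin D, z i * f v i = 0 := by
      intro q
      by_cases hq : q < (conds L).length
      · obtain ⟨φ, h1, h2, h3⟩ := hf _ (List.getElem_mem hq)
        obtain ⟨z, hz⟩ := exists_funOf D φ
        refine ⟨z, fun _ => ⟨fun v hv => ?_, fun v hv => ?_, fun v hv => ?_⟩⟩
        · rw [← hz]; exact h1 v hv
        · rw [← hz]; exact h2 v hv
        · rw [← hz]; exact h3 v hv
      · exact ⟨fun _ => 0, fun h => absurd h hq⟩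
    choose z hz using hz
    refine ⟨fun n => if n / (D + 1) % 2 = 0 then
      (if h : n % (D + 1) < D then f (n / (D + 1) / 2) ⟨n % (D + 1), h⟩ else 0) else
      z (n / (D + 1) / 2) (n % (D + 1)), ?_⟩
    rw [holds_formC]
    intro q hq
    have he : ∀ v, (linT D D q v).eval (fun n => if n / (D + 1) % 2 = 0 then
        (if h : n % (D + 1) < D then f (n / (D + 1) / 2) ⟨n % (D + 1), h⟩ else 0) else
        z (n / (D + 1) / 2) (n % (D + 1))) = z q D + ∑ i : Fin D, z q i * f v i := by
      intro v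
      have hdiv : ∀ m i, i ≤ D → (m * (D + 1) + i) / (D + 1) = m ∧
          (m * (D + 1) + i) % (D + 1) = i := by
        intro m i hi
        constructor
        · rw [mul_comm, Nat.mul_add_div (by omega), Nat.div_eq_of_lt (by omega), add_zero]
        · rw [mul_comm, Nat.mul_add_mod, Nat.mod_eq_of_lt (by omega)]
      rw [eval_linT, Finset.sum_range]
      congr 1
      · rw [(hdiv (2 * q + 1) D le_rfl).1, (hdiv (2 * q + 1) D le_rfl).2, if_neg (by omega),
          show (2 * q + 1) / 2 = q by omega]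
      · refine Finset.sum_congr rfl fun i _ => ?_
        rw [(hdiv (2 * q + 1) i i.2.le).1, (hdiv (2 * q + 1) i i.2.le).2, if_neg (by omega),
          show (2 * q + 1) / 2 = q by omega, (hdiv (2 * v) i i.2.le).1, if_pos (by omega),
          show 2 * v / 2 = v by omega]
        congr 1
        have h5 := (hdiv (2 * v) i i.2.le).2
        rw [dif_pos (by rw [h5]; exact i.2)]
        congr 1
        exact Fin.ext h5
    simp only [he]
    exact hz q hq

/-! ### The test for complexes -/

/-- All pairs of entries at different places satisfy `r`. -/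
def pwB {β : Type} (r : β → β → Bool) (l : List β) : Bool :=
  l.zipIdx.all fun p => l.zipIdx.all fun q => decide (p.2 = q.2) || r p.1 q.1

theorem pwB_iff {β : Type} (r : β → β → Bool) (l : List β) :
    pwB r l = true ↔ l.Pairwise fun a b => r a b = true ∧ r b a = true := by
  unfold pwB
  simp only [List.all_eq_true, Bool.or_eq_true, decide_eq_true_iff]
  rw [List.pairwise_iff_getElem]
  constructor
  · intro h i j hi hj hij
    have hi' : (l[i], i) ∈ l.zipIdx := by
      rw [List.mem_zipIdx_iff_getElem?]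
      exact List.getElem?_eq_getElem hi
    have hj' : (l[j], j) ∈ l.zipIdx := by
      rw [List.mem_zipIdx_iff_getElem?]
      exact List.getElem?_eq_getElem hj
    exact ⟨(h _ hi' _ hj').resolve_left hij.ne, (h _ hj' _ hi').resolve_left hij.ne'⟩
  · rintro h ⟨a, i⟩ ha ⟨b, j⟩ hb
    rw [List.mem_zipIdx_iff_getElem?, List.getElem?_eq_some_iff] at ha hb
    obtain ⟨hi, ha'⟩ := ha
    obtain ⟨hj, hb'⟩ := hb
    simp only at hi hj ha' hb'
    subst ha' hb'
    rcases lt_trichotomy i j with hij | hij | hij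
    · exact Or.inr (h i j hi hj hij).1
    · exact Or.inl hij
    · exact Or.inr (h j i hj hi hij).2

/-- The test for complexes. -/
def complexB (k : ℕ) (L : List (List ℕ)) : Bool :=
  ((L.all fun F => (!F.isEmpty && pwB (fun a b => !decide (a = b)) F) &&
    decide (F.length ≤ k + 1)) &&
    pwB (fun F G => !(F.all fun v => decide (v ∈ G))) L) &&
    L.any fun F => decide (F.length = k + 1)

theorem complexB_iff (k : ℕ) (L : List (List ℕ)) : complexB k L = true ↔ IsComplex k L := by
  unfold complexB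
  simp only [Bool.and_eq_true, List.all_eq_true, List.any_eq_true, pwB_iff, decide_eq_true_iff,
    Bool.not_eq_true', decide_eq_false_iff_not]
  have h1 : ∀ F : List ℕ, F.Pairwise (fun a b => ¬ a = b ∧ ¬ b = a) ↔ F.Nodup := fun F =>
    ⟨fun h => h.imp fun h => h.1, fun h => h.imp fun h => ⟨h, fun h' => h h'.symm⟩⟩
  have h2 : ∀ F G : List ℕ, (F.all fun v => decide (v ∈ G)) = false ↔
      ¬ F.toFinset ⊆ G.toFinset := by
    intro F G
    rw [toFinset_sub, ← Bool.not_eq_true, List.all_eq_true]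
    simp only [decide_eq_true_iff]
    exact Iff.rfl
  have h3 : ∀ F : List ℕ, F.isEmpty = false ↔ F ≠ [] := by
    intro F
    cases F <;> simp
  simp only [h1, h2, h3]
  constructor
  · rintro ⟨⟨a, b⟩, c⟩
    exact ⟨fun F hF => (a F hF).1.1, fun F hF => (a F hF).1.2, b, fun F hF => (a F hF).2, c⟩
  · rintro ⟨a, b, c, d, e⟩
    exact ⟨⟨fun F hF => ⟨⟨a F hF, b F hF⟩, d F hF⟩, c⟩, e⟩

/-- The existential sentence. -/
def formE (k d : ℕ) (L : List (List ℕ)) : Fm := if complexB k L = true then formC d L else ff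

theorem formE_correct (k d : ℕ) (L : List (List ℕ)) :
    (IsComplex k L ∧ ∃ f, IsGeomEmb d L f) ↔ ETR (formE k d L) := by
  unfold formE
  rw [← complexB_iff, exists_isGeomEmb_iff]
  split_ifs with h
  · rw [etr_formC]
    exact ⟨fun h1 => h1.2, fun h1 => ⟨h, h1⟩⟩
  · constructor
    · rintro ⟨h1, -⟩
      exact absurd h1 h
    · intro h1
      exact absurd h1 not_etr_ff

/-! ### Polynomial time -/

section

variable {α : Type} [TEnc α]

theorem poly_linT (D n : ℕ) {q v : α → ℕ} (hq : Poly q) (hv : Poly v) :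
    Poly (fun a => linT D n (q a) (v a)) := by
  have h1 : ∀ i : ℕ, Poly (fun a => (2 * q a + 1) * (D + 1) + i) := fun i =>
    Poly.add (Poly.mul (Poly.succ (Poly.mul (Poly.const 2) hq)) (Poly.const _)) (Poly.const i)
  have h2 : ∀ i : ℕ, Poly (fun a => 2 * v a * (D + 1) + i) := fun i =>
    Poly.add (Poly.mul (Poly.mul (Poly.const 2) hv) (Poly.const _)) (Poly.const i)
  induction n with
  | zero => exact poly_tvar (h1 D)
  | succ n ih => exact poly_tadd ih (poly_tmul (poly_tvar (h1 n)) (poly_tvar (h2 n)))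

theorem poly_condF (D : ℕ) : Poly (condF D) := by
  have hq : Poly (fun p : ((List ℕ × List ℕ × List ℕ) × ℕ) × ℕ => p.1.2) :=
    Poly.snd (Poly.fst Poly.id)
  have hv : Poly (fun p : ((List ℕ × List ℕ × List ℕ) × ℕ) × ℕ => p.2) := Poly.snd Poly.id
  have hl := poly_linT D D hq hv
  refine Poly.append ?_ (Poly.append ?_ ?_)
  · exact Poly.map (F := fun (p : (List ℕ × List ℕ × List ℕ) × ℕ) (v : ℕ) =>
      Fm.lt Tm.zero (linT D D p.2 v)) (Poly.fst (Poly.fst Poly.id)) (poly_lt (Poly.const _) hl)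
  · exact Poly.map (F := fun (p : (List ℕ × List ℕ × List ℕ) × ℕ) (v : ℕ) =>
      Fm.lt (linT D D p.2 v) Tm.zero) (Poly.fst (Poly.snd (Poly.fst Poly.id)))
      (poly_lt hl (Poly.const _))
  · exact Poly.map (F := fun (p : (List ℕ × List ℕ × List ℕ) × ℕ) (v : ℕ) =>
      Fm.eq (linT D D p.2 v) Tm.zero) (Poly.snd (Poly.snd (Poly.fst Poly.id)))
      (poly_eq hl (Poly.const _))

theorem poly_inside {l m : α → List ℕ} (hl : Poly l) (hm : Poly m) :
    Poly (fun a => (l a).filter fun v => decide (v ∈ m a)) :=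
  Poly.filter (p := fun (a : α) (v : ℕ) => decide (v ∈ m a)) hl
    (Poly.decide_mem (Poly.snd Poly.id) (hm.comp (Poly.fst Poly.id)))

theorem poly_outside {l m : α → List ℕ} (hl : Poly l) (hm : Poly m) :
    Poly (fun a => (l a).filter fun v => !decide (v ∈ m a)) :=
  Poly.filter (p := fun (a : α) (v : ℕ) => !decide (v ∈ m a)) hl
    (Poly.not (Poly.decide_mem (Poly.snd Poly.id) (hm.comp (Poly.fst Poly.id))))

theorem poly_conds : Poly conds := by
  refine Poly.append ?_ ?_
  · refine Poly.flatMap (F := fun (L : List (List ℕ)) (F : List ℕ) => L.map fun G =>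
      (F.filter fun v => !decide (v ∈ G), G.filter fun v => !decide (v ∈ F),
        F.filter fun v => decide (v ∈ G))) Poly.id ?_
    refine Poly.map (F := fun (p : List (List ℕ) × List ℕ) (G : List ℕ) =>
      (p.2.filter fun v => !decide (v ∈ G), G.filter fun v => !decide (v ∈ p.2),
        p.2.filter fun v => decide (v ∈ G))) (Poly.fst Poly.id) ?_
    have hF : Poly (fun p : (List (List ℕ) × List ℕ) × List ℕ => p.1.2) :=
      Poly.snd (Poly.fst Poly.id)
    have hG : Poly (fun p : (List (List ℕ) × List ℕ) × List ℕ => p.2) := Poly.snd Poly.id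
    exact Poly.pair (poly_outside hF hG) (Poly.pair (poly_outside hG hF) (poly_inside hF hG))
  · refine Poly.flatMap (F := fun (_ : List (List ℕ)) (F : List ℕ) => F.map fun v =>
      ([v], ([] : List ℕ), F.filter fun w => !decide (w = v))) Poly.id ?_
    refine Poly.map (F := fun (p : List (List ℕ) × List ℕ) (v : ℕ) =>
      ([v], ([] : List ℕ), p.2.filter fun w => !decide (w = v))) (Poly.snd Poly.id) ?_
    have hv : Poly (fun p : (List (List ℕ) × List ℕ) × ℕ => p.2) := Poly.snd Poly.id
    refine Poly.pair (Poly.cons hv (Poly.const [])) (Poly.pair (Poly.const []) ?_)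
    exact Poly.filter (p := fun (p : (List (List ℕ) × List ℕ) × ℕ) (w : ℕ) =>
      !decide (w = p.2)) (Poly.snd (Poly.fst Poly.id))
      (Poly.not (Poly.decide_eq (Poly.snd Poly.id) (Poly.snd (Poly.fst Poly.id))))

theorem poly_formC (D : ℕ) : Poly (formC D) :=
  poly_conj (Poly.flatMap (F := fun (_ : List (List ℕ)) (p : (List ℕ × List ℕ × List ℕ) × ℕ) =>
    condF D p) (Poly.zipIdx poly_conds) ((poly_condF D).comp (Poly.snd Poly.id)))

theorem poly_pwB {β : Type} [TEnc β] {r : β → β → Bool} (hr : Poly (fun p : β × β => r p.1 p.2))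
    {l : α → List β} (hl : Poly l) : Poly (fun a => pwB r (l a)) := by
  have hz : Poly (fun a => (l a).zipIdx) := Poly.zipIdx hl
  refine Poly.all (p := fun (a : α) (p : β × ℕ) => (l a).zipIdx.all fun q =>
    decide (p.2 = q.2) || r p.1 q.1) hz ?_
  refine Poly.all (p := fun (x : α × β × ℕ) (q : β × ℕ) =>
    decide (x.2.2 = q.2) || r x.2.1 q.1) (hz.comp (Poly.fst Poly.id)) ?_
  exact Poly.or (Poly.decide_eq (Poly.snd (Poly.snd (Poly.fst Poly.id))) (Poly.snd (Poly.snd Poly.id)))
    (Poly.comp (g := fun p : β × β => r p.1 p.2) hr (Poly.pair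
      (Poly.fst (Poly.snd (Poly.fst Poly.id))) (Poly.fst (Poly.snd Poly.id))))

theorem poly_complexB (k : ℕ) : Poly (complexB k) := by
  have h1 : Poly (fun p : ℕ × ℕ => !decide (p.1 = p.2)) :=
    Poly.not (Poly.decide_eq (Poly.fst Poly.id) (Poly.snd Poly.id))
  have h2 : Poly (fun p : List ℕ × List ℕ => !(p.1.all fun v => decide (v ∈ p.2))) :=
    Poly.not (Poly.all (p := fun (p : List ℕ × List ℕ) (v : ℕ) => decide (v ∈ p.2))
      (Poly.fst Poly.id) (Poly.decide_mem (Poly.snd Poly.id) (Poly.snd (Poly.fst Poly.id))))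
  have hF : Poly (fun p : List (List ℕ) × List ℕ => p.2) := Poly.snd Poly.id
  refine Poly.and (Poly.and ?_ (poly_pwB h2 Poly.id)) ?_
  · exact Poly.all (p := fun (_ : List (List ℕ)) (F : List ℕ) =>
      (!F.isEmpty && pwB (fun a b => !decide (a = b)) F) && decide (F.length ≤ k + 1)) Poly.id
      (Poly.and (Poly.and (Poly.not (Poly.isEmpty hF)) (poly_pwB h1 hF))
        (Poly.decide_le (Poly.length hF) (Poly.const _)))
  · exact Poly.any (p := fun (_ : List (List ℕ)) (F : List ℕ) => decide (F.length = k + 1))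
      Poly.id (Poly.decide_eq (Poly.length hF) (Poly.const _))

theorem poly_formE (k d : ℕ) : Poly (formE k d) :=
  Poly.ite (Poly.decide_bool (poly_complexB k)) (poly_formC d) (Poly.const _)

end

/-- The embedding problem belongs to `∃ℝ`. -/
theorem emb_mem (k d : ℕ) : InER (EMB k d) :=
  Pool.Agent.NPC.H670R2.InER.of_poly (poly_formE k d) (formE_correct k d)

end Pool.Agent.NPC.ER.H728
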