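import Pool.Agent.H728.Valid
import Pool.Agent.H625R2.BallMem

/-!
# The reduction is computable in polynomial time
-/

namespace Pool.Agent.NPC.ER.H728

open Pool.Agent.NPC Pool.Agent.NPC.ER.Pat Pool.Agent.H728

theorem poly_enc {α : Type} [TEnc α] {j q : α → ℕ} (hj : Poly j) (hq : Poly q) :
    Poly (fun a => enc (j a) (q a)) :=
  Poly.add (Poly.mul (Poly.const 2) (Poly.add (Poly.mul (Poly.const 16) hj) hq)) (Poly.const 1)

theorem poly_loc : Poly (fun j : ℕ => loc.map (List.map (enc j))) := by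
  have h1 : Poly (fun p : (ℕ × List ℕ) × ℕ => enc p.1.1 p.2) :=
    poly_enc (Poly.fst (Poly.fst Poly.id)) (Poly.snd Poly.id)
  have h2 : Poly (fun p : ℕ × List ℕ => p.2.map (enc p.1)) :=
    Poly.map (F := fun (p : ℕ × List ℕ) (q : ℕ) => enc p.1 q) (Poly.snd Poly.id) h1
  exact Poly.map (F := fun (j : ℕ) (l : List ℕ) => l.map (enc j)) (Poly.const loc) h2

theorem poly_pagesAt : Poly (fun p : (List (List Bool) × ℕ) × ℕ => pagesAt p.1.1 p.2 p.1.2) := by
  have hM : Poly (fun p : (List (List Bool) × ℕ) × ℕ => p.1.1) := Poly.fst (Poly.fst Poly.id)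
  have hj : Poly (fun p : (List (List Bool) × ℕ) × ℕ => p.1.2) := Poly.snd (Poly.fst Poly.id)
  have hi : Poly (fun p : (List (List Bool) × ℕ) × ℕ => p.2) := Poly.snd Poly.id
  have h2i : Poly (fun p : (List (List Bool) × ℕ) × ℕ => 2 * p.2) := Poly.mul (Poly.const 2) hi
  have he : ∀ q : ℕ, Poly (fun p : (List (List Bool) × ℕ) × ℕ => enc p.1.2 q) := fun q =>
    poly_enc hj (Poly.const q)
  have hent : Poly (fun p : (List (List Bool) × ℕ) × ℕ => ent p.1.1 p.2 p.1.2) :=
    poly_ent hM hi hj
  have h3 : ∀ q r : ℕ, Poly (fun p : (List (List Bool) × ℕ) × ℕ =>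
      [2 * p.2, enc p.1.2 q, enc p.1.2 r]) := fun q r =>
    Poly.cons h2i (Poly.cons (he q) (Poly.cons (he r) (Poly.const [])))
  exact Poly.cons (h3 5 10) (Poly.cons (Poly.ite (Poly.decide_bool hent) (h3 5 11) (h3 6 10))
    (Poly.const []))

theorem poly_KM : Poly KM := by
  have hw : Poly (fun M : List (List Bool) => List.range (wid M)) := (upoly_wid Poly.id).range
  have hn : Poly (fun p : List (List Bool) × ℕ => List.range p.1.length) :=
    Poly.range_length (Poly.fst Poly.id)
  have h1 : Poly (fun p : List (List Bool) × ℕ => loc.map (List.map (enc p.2))) :=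
    Poly.comp poly_loc (Poly.snd Poly.id)
  have h2 : Poly (fun p : List (List Bool) × ℕ =>
      (List.range p.1.length).flatMap fun i => pagesAt p.1 i p.2) :=
    Poly.flatMap (F := fun (p : List (List Bool) × ℕ) (i : ℕ) => pagesAt p.1 i p.2) hn
      poly_pagesAt
  exact Poly.flatMap (F := fun (M : List (List Bool)) (j : ℕ) => loc.map (List.map (enc j)) ++
    (List.range M.length).flatMap fun i => pagesAt M i j) hw (Poly.append h1 h2)

theorem poly_dbl {α : Type} [TEnc α] {l : α → List ℕ} (hl : Poly l) :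
    Poly (fun a => (l a).map fun v => 2 * v) :=
  Poly.map (F := fun (_ : α) (v : ℕ) => 2 * v) hl (Poly.mul (Poly.const 2) (Poly.snd Poly.id))

theorem poly_joinN {α : Type} [TEnc α] {m : α → ℕ} {L : α → List (List ℕ)} (hm : UPoly m)
    (hL : Poly L) : Poly (fun a => joinN (m a) (L a)) := by
  have h1 : Poly (fun p : (α × List ℕ) × ℕ => (2 * p.2 + 1) :: p.1.2.map fun v => 2 * v) :=
    Poly.cons (Poly.add (Poly.mul (Poly.const 2) (Poly.snd Poly.id)) (Poly.const 1))
      (poly_dbl (Poly.snd (Poly.fst Poly.id)))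
  have h2 : Poly (fun p : α × List ℕ => List.range (m p.1)) :=
    (hm.comp (Poly.fst Poly.id)).range
  have h3 : Poly (fun p : α × List ℕ => (List.range (m p.1)).map fun u =>
      (2 * u + 1) :: p.2.map fun v => 2 * v) :=
    Poly.map (F := fun (p : α × List ℕ) (u : ℕ) => (2 * u + 1) :: p.2.map fun v => 2 * v) h2 h1
  exact Poly.flatMap (F := fun (a : α) (F : List ℕ) => (List.range (m a)).map fun u =>
    (2 * u + 1) :: F.map fun v => 2 * v) hL h3

theorem upoly_cellBound {α : Type} [TEnc α] (D : ℕ) {q : α → ℕ} (hq : UPoly q) :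
    UPoly (fun a => cellBound D (q a)) := by
  have h := hq.eval (Polynomial.C (D + 1) * (Polynomial.X + 1) ^ D + 1)
  have e : (fun a => cellBound D (q a)) =
      fun a => (Polynomial.C (D + 1) * (Polynomial.X + 1) ^ D + 1 : Polynomial ℕ).eval (q a) := by
    funext a
    simp [cellBound]
  rw [e]
  exact h

theorem poly_bigJoin (k : ℕ) : Poly (bigJoin k) :=
  poly_joinN (upoly_cellBound _ (UPoly.mul (UPoly.length Poly.id) (UPoly.length Poly.id))) Poly.id

theorem poly_upK (n : ℕ) : Poly (upK n) := by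
  induction n with
  | zero => exact Poly.id
  | succ n ih =>
    change Poly (fun L => bigJoin (2 + n) (upK n L))
    exact Poly.comp (poly_bigJoin (2 + n)) ih

theorem poly_addS (k : ℕ) : Poly (addS k) := by
  have h1 : Poly (fun L : List (List ℕ) => L.map (List.map fun v => 2 * v)) :=
    Poly.map (F := fun (_ : List (List ℕ)) (F : List ℕ) => F.map fun v => 2 * v) Poly.id
      (poly_dbl (Poly.snd Poly.id))
  exact Poly.append h1 (Poly.const _)

theorem poly_KD (d : ℕ) : Poly (KD d) := by
  unfold KD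
  split_ifs with h
  · exact Poly.comp (poly_upK _) poly_KM
  · exact poly_joinN (UPoly.const 2) (Poly.comp (poly_upK _) poly_KM)

theorem poly_KF (k d : ℕ) : Poly (KF k d) := by
  change Poly (fun M => addS k (KD d M))
  exact Poly.comp (poly_addS k) (poly_KD d)

end Pool.Agent.NPC.ER.H728
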