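import Pool.Agent.H728.Exist
import Pool.Agent.H728.Force3

/-!
# Raising the dimensions
-/

namespace Pool.Agent.H728

open Finset Pool.Agent.NPC.ER.Pat

theorem AffEmb.to_fin {E : Type*} [AddCommGroup E] [Module ℝ E] [FiniteDimensional ℝ E]
    {L : List (List ℕ)} {f : ℕ → E} (h : AffEmb L f) {D : ℕ} (hD : Module.finrank ℝ E ≤ D) :
    ∃ f' : ℕ → Fin D → ℝ, AffEmb L f' := by
  obtain ⟨T, hT⟩ : ∃ T : E →ₗ[ℝ] (Fin D → ℝ), Function.Injective T := by
    exact finrank_le_iff_exists_linearMap.1 (by simpa using hD)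
  exact ⟨_, h.map T hT⟩

/-- The join with many points. -/
def bigJoin (k : ℕ) (L : List (List ℕ)) : List (List ℕ) :=
  joinN (cellBound (2 * k + 3) (L.length * L.length)) L

/-- Iterated joins. -/
def upK : ℕ → List (List ℕ) → List (List ℕ)
  | 0, L => L
  | n + 1, L => bigJoin (2 + n) (upK n L)

theorem upK_yes (n : ℕ) {L : List (List ℕ)} (h : ∃ f : ℕ → Fin 4 → ℝ, AffEmb L f) :
    ∃ f : ℕ → Fin (4 + 2 * n) → ℝ, AffEmb (upK n L) f := by
  induction n with
  | zero => exact h
  | succ n ih =>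
    obtain ⟨f, hf⟩ := ih
    exact (hf.join _).to_fin (by
      simp only [Module.finrank_prod, Module.finrank_fin_fun, Module.finrank_self]
      omega)

theorem joinN_length {m a : ℕ} {L : List (List ℕ)} (h : ∀ F ∈ L, F.length = a) :
    ∀ F ∈ joinN m L, F.length = a + 1 := by
  intro F hF
  obtain ⟨G, hG, u, hu, rfl⟩ := mem_joinN.1 hF
  rw [List.length_cons, List.length_map, h G hG]

theorem upK_length (n : ℕ) {a : ℕ} {L : List (List ℕ)} (h : ∀ F ∈ L, F.length = a) :
    ∀ F ∈ upK n L, F.length = a + n := by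
  induction n with
  | zero => exact h
  | succ n ih => exact joinN_length ih

theorem upK_no (n : ℕ) {L : List (List ℕ)} (hL : ∀ F ∈ L, F.length = 3)
    (h : ∃ g : ℕ → Fin (5 + 2 * n) → ℝ, LinEmb (upK n L) g) :
    ∃ g : ℕ → Fin 5 → ℝ, LinEmb L g := by
  induction n with
  | zero => exact h
  | succ n ih =>
    obtain ⟨g, hg⟩ := h
    obtain ⟨g1, hg1⟩ := hg.to_fin (D := 2 * (2 + n) + 3) (by
      rw [Module.finrank_fin_fun]; omega)
    obtain ⟨g2, hg2⟩ := linEmb_of_bigJoin (k := 2 + n) (L := upK n L)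
      (fun F hF => by rw [upK_length n hL F hF]; omega) (le_refl _) hg1
    exact ih (hg2.to_fin (by rw [Module.finrank_fin_fun]; omega))

/-! ### Disjoint unions -/

section Union

variable {E : Type*} [AddCommGroup E] [Module ℝ E]

/-- The union of two separated complexes. -/
theorem LinEmb.append {L1 L2 : List (List ℕ)} {g : ℕ → E} (h1 : LinEmb L1 g) (h2 : LinEmb L2 g)
    (φ : E →ₗ[ℝ] ℝ) (hφ1 : ∀ F ∈ L1, ∀ v ∈ F, φ (g v) < 0) (hφ2 : ∀ F ∈ L2, ∀ v ∈ F, 0 < φ (g v)) :
    LinEmb (L1 ++ L2) g := by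
  rintro c ⟨F, hF, hcF⟩ ⟨G, hG, hcG⟩ h0
  rw [List.mem_append] at hF hG
  have h3 := congrArg φ h0
  rw [lc_eq, map_sum, map_zero] at h3
  simp only [map_smul, smul_eq_mul] at h3
  rcases hF with hF | hF <;> rcases hG with hG | hG
  · exact h1 c ⟨F, hF, hcF⟩ ⟨G, hG, hcG⟩ h0
  · by_contra hc
    have : ∑ v ∈ c.support, c v * φ (g v) < 0 := by
      refine sum_neg (fun v hv => ?_) (by rwa [Finsupp.support_nonempty_iff])
      rw [Finsupp.mem_support_iff] at hv
      rcases lt_or_gt_of_ne hv with h4 | h4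
      · exact mul_neg_of_neg_of_pos h4 (hφ2 G hG v (hcG v h4))
      · exact mul_neg_of_pos_of_neg h4 (hφ1 F hF v (hcF v h4))
    linarith
  · by_contra hc
    have : 0 < ∑ v ∈ c.support, c v * φ (g v) := by
      refine sum_pos (fun v hv => ?_) (by rwa [Finsupp.support_nonempty_iff])
      rw [Finsupp.mem_support_iff] at hv
      rcases lt_or_gt_of_ne hv with h4 | h4
      · exact mul_pos_of_neg_of_neg h4 (hφ1 G hG v (hcG v h4))
      · exact mul_pos h4 (hφ2 F hF v (hcF v h4))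
    linarith
  · exact h2 c ⟨F, hF, hcF⟩ ⟨G, hG, hcG⟩ h0

end Union

/-- The disjoint union with a `k`-simplex. -/
def addS (k : ℕ) (L : List (List ℕ)) : List (List ℕ) :=
  L.map (List.map fun v => 2 * v) ++ [(List.range (k + 1)).map fun v => 2 * v + 1]

theorem addS_no {E : Type*} [AddCommGroup E] [Module ℝ E] {k : ℕ} {L : List (List ℕ)} {g : ℕ → E}
    (h : LinEmb (addS k L) g) : LinEmb L (g ∘ fun v => 2 * v) := by
  rw [← linEmb_relabel two_mul_injective]
  exact h.mono fun F hF => ⟨F, List.mem_append_left _ hF, fun v hv => hv⟩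

theorem addS_yes {d k : ℕ} (hd : 0 < d) (hk : k ≤ d) {L : List (List ℕ)} {f : ℕ → Fin d → ℝ}
    (h : AffEmb L f) : ∃ f' : ℕ → Fin d → ℝ, AffEmb (addS k L) f' := by
  obtain ⟨R, hR⟩ : ∃ R : ℝ, ∀ v ∈ verts L, f v ⟨0, hd⟩ ≤ R := by
    obtain ⟨R, hR⟩ := ((verts L).image fun v => f v ⟨0, hd⟩).bddAbove
    exact ⟨R, fun v hv => hR (by
      rw [mem_coe]
      exact mem_image_of_mem (fun v => f v ⟨0, hd⟩) hv)⟩
  let P : ℕ → Fin d → ℝ := fun w i => (if i = ⟨0, hd⟩ then R + 1 else 0) +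
    (if w = (i : ℕ) + 1 then 1 else 0)
  let f' : ℕ → Fin d → ℝ := fun v => if v % 2 = 0 then f (v / 2) else P (v / 2)
  have he : ∀ v, f' (2 * v) = f v := by
    intro v
    simp only [f']
    rw [if_pos (by omega), show 2 * v / 2 = v by omega]
  have ho : ∀ v, f' (2 * v + 1) = P v := by
    intro v
    simp only [f']
    rw [if_neg (by omega), show (2 * v + 1) / 2 = v by omega]
  have hP0 : ∀ w, R + 1 ≤ P w ⟨0, hd⟩ := by
    intro w
    simp only [P, if_true]
    split_ifs
    · linarith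
    · linarith
  let φ : (Fin d → ℝ) × ℝ →ₗ[ℝ] ℝ :=
    { toFun := fun x => x.1 ⟨0, hd⟩ - (R + 1 / 2) * x.2
      map_add' := fun x y => by simp only [Prod.fst_add, Prod.snd_add, Pi.add_apply]; ring
      map_smul' := fun r x => by
        simp only [Prod.smul_fst, Prod.smul_snd, Pi.smul_apply, smul_eq_mul, RingHom.id_apply]
        ring }
  have hφ : ∀ v, φ (f' v, 1) = f' v ⟨0, hd⟩ - (R + 1 / 2) := fun v => by
    change f' v ⟨0, hd⟩ - (R + 1 / 2) * 1 = _
    rw [mul_one]
  refine ⟨f', LinEmb.append ?_ ?_ φ ?_ ?_⟩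
  · rw [linEmb_relabel two_mul_injective]
    have e : ((fun v => (f' v, (1 : ℝ))) ∘ fun v => 2 * v) = fun v => (f v, (1 : ℝ)) := by
      funext v
      simp only [Function.comp_apply, he]
    rw [e]
    exact h
  · rintro c ⟨F, hF, hcF⟩ ⟨G, hG, hcG⟩ h0
    rw [List.mem_singleton] at hF hG
    subst hF hG
    have hsup : ∀ v, c v ≠ 0 → ∃ w ≤ k, v = 2 * w + 1 := by
      intro v hv
      have : v ∈ (List.range (k + 1)).map fun v => 2 * v + 1 := by
        rcases lt_or_gt_of_ne hv with h1 | h1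
        · exact hcG v h1
        · exact hcF v h1
      obtain ⟨w, hw, rfl⟩ := List.mem_map.1 this
      exact ⟨w, by rw [List.mem_range] at hw; omega, rfl⟩
    rw [lc_pair, Prod.mk_eq_zero, lc_eq, lc_eq] at h0
    obtain ⟨h1, h2⟩ := h0
    simp only [smul_eq_mul, mul_one] at h2
    have h3 : ∀ i : Fin d, c (2 * (i + 1) + 1) = 0 := by
      intro i
      have h4 := congrFun h1 i
      rw [Finset.sum_apply] at h4
      simp only [Pi.smul_apply, smul_eq_mul, Pi.zero_apply] at h4
      have h5 : ∑ v ∈ c.support, c v * f' v i =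
          ∑ v ∈ c.support, (c v * (if i = ⟨0, hd⟩ then R + 1 else 0) +
            (if v = 2 * (i + 1) + 1 then c v else 0)) := by
        refine sum_congr rfl fun v hv => ?_
        obtain ⟨w, hw, rfl⟩ := hsup v (Finsupp.mem_support_iff.1 hv)
        rw [ho]
        simp only [P]
        rw [mul_add]
        congr 1
        by_cases hwi : w = (i : ℕ) + 1
        · rw [if_pos hwi, if_pos (by omega), mul_one]
        · rw [if_neg hwi, if_neg (by omega), mul_zero]
      rw [h5, sum_add_distrib, ← sum_mul, h2, zero_mul, zero_add, sum_ite_eq'] at h4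
      by_contra hn
      rw [if_pos (Finsupp.mem_support_iff.2 hn)] at h4
      exact hn h4
    have h6 : ∀ v, v ≠ 1 → c v = 0 := by
      intro v hv
      by_contra hn
      obtain ⟨w, hw, rfl⟩ := hsup v hn
      obtain ⟨i, rfl⟩ : ∃ i, w = i + 1 := ⟨w - 1, by omega⟩
      exact hn (h3 ⟨i, by omega⟩)
    have h7 : c 1 = 0 := by
      rw [sum_eq_single 1 (fun v _ hv => h6 v hv) (fun h => Finsupp.notMem_support_iff.1 h)] at h2
      exact h2
    ext v
    by_cases hv : v = 1
    · rw [hv, h7]; rfl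
    · rw [h6 v hv]; rfl
  · intro F hF v hv
    obtain ⟨G, hG, rfl⟩ := List.mem_map.1 hF
    obtain ⟨w, hw, rfl⟩ := List.mem_map.1 hv
    rw [hφ, he]
    have := hR w (mem_verts.2 ⟨G, hG, hw⟩)
    linarith
  · intro F hF v hv
    rw [List.mem_singleton] at hF
    subst hF
    obtain ⟨w, hw, rfl⟩ := List.mem_map.1 hv
    rw [hφ, ho]
    have := hP0 w
    linarith

/-! ### The complex in dimension `d` -/

/-- The complex of the matrix `M` for the dimension `d`. -/
def KD (d : ℕ) (M : List (List Bool)) : List (List ℕ) :=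
  if d % 2 = 0 then upK ((d - 4) / 2) (KM M) else joinN 2 (upK ((d - 5) / 2) (KM M))

/-- The final complex. -/
def KF (k d : ℕ) (M : List (List Bool)) : List (List ℕ) := addS k (KD d M)

theorem KF_yes {k d m : ℕ} (hd : 4 ≤ d) (hk : k ≤ d) {M : List (List Bool)} (hM : Rect m M)
    (h : SRN 4 M) : ∃ f : ℕ → Fin d → ℝ, AffEmb (KF k d M) f := by
  have h1 := affEmb_of_SRN hM h
  have h2 : ∃ f : ℕ → Fin d → ℝ, AffEmb (KD d M) f := by
    unfold KD
    split_ifs with hpar
    · obtain ⟨f, hf⟩ := upK_yes ((d - 4) / 2) h1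
      exact hf.to_fin (by rw [Module.finrank_fin_fun]; omega)
    · obtain ⟨f, hf⟩ := upK_yes ((d - 5) / 2) h1
      exact hf.susp.to_fin (by
        rw [Module.finrank_prod, Module.finrank_fin_fun, Module.finrank_self]; omega)
  obtain ⟨f, hf⟩ := h2
  exact addS_yes (by omega) hk hf

theorem KF_no {k d m : ℕ} (hd : 4 ≤ d) {M : List (List Bool)} (hM : Rect m M)
    {f : ℕ → Fin d → ℝ} (h : AffEmb (KF k d M) f) : SR 5 M := by
  have h1 : LinEmb (KD d M) ((fun v => (f v, (1 : ℝ))) ∘ fun v => 2 * v) := addS_no h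
  have h2 : ∃ g : ℕ → Fin 5 → ℝ, LinEmb (KM M) g := by
    unfold KD at h1
    split_ifs at h1 with hpar
    · obtain ⟨g, hg⟩ := h1.to_fin (D := 5 + 2 * ((d - 4) / 2)) (by
        rw [Module.finrank_prod, Module.finrank_fin_fun, Module.finrank_self]; omega)
      exact upK_no _ Ex.length_KM ⟨g, hg⟩
    · have h3 := linEmb_of_susp h1 (D := 5 + 2 * ((d - 5) / 2)) (by
        rw [Module.finrank_prod, Module.finrank_fin_fun, Module.finrank_self]; omega)
      exact upK_no _ Ex.length_KM h3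
  obtain ⟨g, hg⟩ := h2
  exact SR_of_linEmb hM hg

end Pool.Agent.H728
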