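import Pool.Agent.H728.Cells

/-!
# Separated configurations
-/

namespace Pool.Agent.H728

open Finset Filter Topology

/-- Disjoint simplices are strictly separated. -/
def Sep {D : ℕ} (L : List (List ℕ)) (g : ℕ → Fin D → ℝ) : Prop :=
  ∀ F ∈ L, ∀ G ∈ L, (∀ v ∈ F, v ∉ G) → ∃ φ : (Fin D → ℝ) →ₗ[ℝ] ℝ,
    (∀ v ∈ F, 0 < φ (g v)) ∧ (∀ v ∈ G, φ (g v) < 0)

theorem eventually_list {α β : Type*} {l : Filter α} {p : β → α → Prop} (L : List β)
    (h : ∀ b ∈ L, ∀ᶠ a in l, p b a) : ∀ᶠ a in l, ∀ b ∈ L, p b a := by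
  induction L with
  | nil => simp
  | cons b L ih =>
    have h1 := h b List.mem_cons_self
    have h2 := ih fun b hb => h b (List.mem_cons_of_mem _ hb)
    filter_upwards [h1, h2] with a ha1 ha2
    intro b' hb'
    rcases List.mem_cons.1 hb' with rfl | hb'
    · exact ha1
    · exact ha2 b' hb'

theorem continuous_lin {D : ℕ} (φ : (Fin D → ℝ) →ₗ[ℝ] ℝ) : Continuous φ :=
  LinearMap.continuous_of_finiteDimensional φ

theorem Sep.eventually {D : ℕ} {L : List (List ℕ)} {g : ℕ → Fin D → ℝ} (h : Sep L g) :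
    ∀ᶠ g' in 𝓝 g, Sep L g' := by
  refine eventually_list L fun F hF => eventually_list L fun G hG => ?_
  by_cases hFG : ∀ v ∈ F, v ∉ G
  · obtain ⟨φ, h1, h2⟩ := h F hF G hG hFG
    have e1 : ∀ᶠ g' : ℕ → Fin D → ℝ in 𝓝 g, ∀ v ∈ F, 0 < φ (g' v) := by
      refine eventually_list F fun v hv => ?_
      have hc : Continuous fun g' : ℕ → Fin D → ℝ => φ (g' v) :=
        (continuous_lin φ).comp (continuous_apply v)
      exact (hc.continuousAt (x := g)).eventually_const_lt (h1 v hv)
    have e2 : ∀ᶠ g' : ℕ → Fin D → ℝ in 𝓝 g, ∀ v ∈ G, φ (g' v) < 0 := by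
      refine eventually_list G fun v hv => ?_
      have hc : Continuous fun g' : ℕ → Fin D → ℝ => φ (g' v) :=
        (continuous_lin φ).comp (continuous_apply v)
      exact (hc.continuousAt (x := g)).eventually_lt_const (h2 v hv)
    filter_upwards [e1, e2] with g' h3 h4 _
    exact ⟨φ, h3, h4⟩
  · exact Eventually.of_forall fun g' h3 => absurd h3 hFG

/-- General position and separation give an embedding. -/
theorem linEmb_of_sep {N : ℕ} {L : List (List ℕ)} {g : ℕ → Fin 5 → ℝ} (hsep : Sep L g)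
    (hgen : Gen g N) (hN : 5 ≤ N) (hL : ∀ F ∈ L, F.length ≤ 3) (hv : ∀ F ∈ L, ∀ v ∈ F, v < N) :
    LinEmb L g := by
  rintro c ⟨F, hF, hcF⟩ ⟨G, hG, hcG⟩ h0
  have hsup : ∀ v, c v ≠ 0 → v ∈ F.toFinset ∪ G.toFinset := by
    intro v hv
    rw [mem_union, List.mem_toFinset, List.mem_toFinset]
    rcases lt_or_gt_of_ne hv with h1 | h1
    · exact Or.inr (hcG v h1)
    · exact Or.inl (hcF v h1)
  by_cases hFG : ∀ v ∈ F, v ∉ G
  · obtain ⟨φ, h1, h2⟩ := hsep F hF G hG hFG
    rw [lc_eq] at h0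
    have h3 := congrArg φ h0
    rw [map_sum, map_zero] at h3
    simp only [map_smul, smul_eq_mul] at h3
    have hnn : ∀ v ∈ c.support, 0 < c v * φ (g v) := by
      intro v hv
      rw [Finsupp.mem_support_iff] at hv
      rcases lt_or_gt_of_ne hv with h4 | h4
      · exact mul_pos_of_neg_of_neg h4 (h2 v (hcG v h4))
      · exact mul_pos h4 (h1 v (hcF v h4))
    by_contra hc
    have : 0 < ∑ v ∈ c.support, c v * φ (g v) :=
      sum_pos hnn (by rwa [Finsupp.support_nonempty_iff])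
    linarith
  · push Not at hFG
    obtain ⟨u, hu1, hu2⟩ := hFG
    have hcard : (F.toFinset ∪ G.toFinset).card ≤ 5 := by
      have h1 := card_union_add_card_inter F.toFinset G.toFinset
      have h2 : 0 < (F.toFinset ∩ G.toFinset).card :=
        card_pos.2 ⟨u, by rw [mem_inter, List.mem_toFinset, List.mem_toFinset]; exact ⟨hu1, hu2⟩⟩
      have h3 := F.toFinset_card_le
      have h4 := G.toFinset_card_le
      have h5 := hL F hF
      have h6 := hL G hG
      omega
    have hli := hgen.finset hcard (fun v hv' => by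
      rw [mem_union, List.mem_toFinset, List.mem_toFinset] at hv'
      rcases hv' with h | h
      · exact hv F hF v h
      · exact hv G hG v h) hN
    rw [Fintype.linearIndependent_iff] at hli
    have h1 := hli (fun v => c v) (by
      rw [sum_coe_sort (F.toFinset ∪ G.toFinset) (fun v => c v • g v), ← lc_eq_of_subset g c hsup]
      exact h0)
    ext v
    by_contra hv
    exact hv (h1 ⟨v, hsup v hv⟩)

/-- A functional with prescribed signs on vectors in general position. -/
theorem Gen.sep {D N : ℕ} {g : ℕ → Fin D → ℝ} (hgen : Gen g N) (hN : D ≤ N) {A A' : Finset ℕ}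
    (hA : Disjoint A A') (hcard : (A ∪ A').card ≤ D) (hlt : ∀ v ∈ A ∪ A', v < N) :
    ∃ φ : (Fin D → ℝ) →ₗ[ℝ] ℝ, (∀ v ∈ A, 0 < φ (g v)) ∧ (∀ v ∈ A', φ (g v) < 0) := by
  have hli := hgen.finset hcard hlt hN
  obtain ⟨f, hf⟩ := LinearMap.exists_extend
    ((Finsupp.linearCombination ℝ (fun v : (A ∪ A' : Finset ℕ) =>
      if (v : ℕ) ∈ A then (1 : ℝ) else -1)).comp hli.repr)
  have hval : ∀ v (hv : v ∈ A ∪ A'), f (g v) = if v ∈ A then (1 : ℝ) else -1 := by
    intro v hv
    have h1 : g v ∈ Submodule.span ℝ (Set.range fun v : (A ∪ A' : Finset ℕ) => g v) :=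
      Submodule.subset_span ⟨⟨v, hv⟩, rfl⟩
    have h2 := LinearMap.congr_fun hf ⟨g v, h1⟩
    rw [LinearMap.comp_apply, Submodule.subtype_apply] at h2
    rw [h2, LinearMap.comp_apply, hli.repr_eq_single ⟨v, hv⟩ ⟨g v, h1⟩ rfl,
      Finsupp.linearCombination_single, one_smul]
  refine ⟨f, fun v hv => ?_, fun v hv => ?_⟩
  · rw [hval v (mem_union_left _ hv), if_pos hv]
    exact one_pos
  · rw [hval v (mem_union_right _ hv), if_neg (disjoint_right.1 hA hv)]
    norm_num

/-! ### Scaling -/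

section

variable {E : Type*} [AddCommGroup E] [Module ℝ E]

theorem LinEmb.scale {L : List (List ℕ)} {g g' : ℕ → E} (h : LinEmb L g) (r : ℕ → ℝ)
    (hr : ∀ v ∈ verts L, 0 < r v) (hg : ∀ v ∈ verts L, g' v = r v • g v) : LinEmb L g' := by
  rintro c ⟨F, hF, hcF⟩ ⟨G, hG, hcG⟩ h0
  have hsup : ∀ v, c v ≠ 0 → v ∈ verts L := by
    intro v hv
    rcases lt_or_gt_of_ne hv with h1 | h1
    · exact mem_verts.2 ⟨G, hG, hcG v h1⟩
    · exact mem_verts.2 ⟨F, hF, hcF v h1⟩
  let c' : ℕ →₀ ℝ := Finsupp.onFinset c.support (fun v => c v * r v) (by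
    intro v hv
    rw [Finsupp.mem_support_iff]
    intro h; exact hv (by rw [h, zero_mul]))
  have hc' : ∀ v, c' v = c v * r v := fun v => rfl
  have h1 := h c' ⟨F, hF, fun v hv => ?_⟩ ⟨G, hG, fun v hv => ?_⟩ ?_
  · ext v
    by_contra hv
    have h2 := DFunLike.congr_fun h1 v
    rw [hc'] at h2
    rcases mul_eq_zero.1 h2 with h3 | h3
    · exact hv h3
    · exact absurd h3 (hr v (hsup v hv)).ne'
  · have hcv : c v ≠ 0 := by
      intro h; rw [hc', h, zero_mul] at hv; exact lt_irrefl _ hv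
    rw [hc'] at hv
    exact hcF v ((mul_pos_iff_of_pos_right (hr v (hsup v hcv))).1 hv)
  · have hcv : c v ≠ 0 := by
      intro h; rw [hc', h, zero_mul] at hv; exact lt_irrefl _ hv
    rw [hc'] at hv
    have h2 := hr v (hsup v hcv)
    refine hcG v ?_
    by_contra hn
    exact absurd hv (not_lt.2 (mul_nonneg (not_lt.1 hn) h2.le))
  · rw [lc_eq_of_subset g c' (s := c.support) (fun v hv => by
      rw [Finsupp.mem_support_iff]
      intro h; exact hv (by rw [hc', h, zero_mul])), ← h0, lc_eq]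
    refine sum_congr rfl fun v hv => ?_
    rw [hc', hg v (hsup v (Finsupp.mem_support_iff.1 hv)), mul_smul]

end

/-- From vectors with a positive last coordinate to points. -/
theorem LinEmb.toAff {D : ℕ} {L : List (List ℕ)} {g : ℕ → Fin (D + 1) → ℝ} (h : LinEmb L g)
    (hpos : ∀ v ∈ verts L, 0 < g v (Fin.last D)) : ∃ f : ℕ → Fin D → ℝ, AffEmb L f := by
  refine ⟨fun v k => (g v (Fin.last D))⁻¹ * g v k.castSucc, ?_⟩
  let T : (Fin D → ℝ) × ℝ →ₗ[ℝ] (Fin (D + 1) → ℝ) :=
    { toFun := fun x => Fin.snoc x.1 x.2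
      map_add' := fun x y => by
        funext i
        refine Fin.lastCases ?_ (fun k => ?_) i
        · simp
        · simp
      map_smul' := fun r x => by
        funext i
        refine Fin.lastCases ?_ (fun k => ?_) i
        · simp
        · simp }
  refine LinEmb.of_map T ?_
  refine h.scale (fun v => (g v (Fin.last D))⁻¹) (fun v hv => inv_pos.2 (hpos v hv))
    fun v hv => ?_
  funext i
  refine Fin.lastCases ?_ (fun k => ?_) i
  · have := (hpos v hv).ne'
    change Fin.snoc (α := fun _ => ℝ) _ _ (Fin.last D) = _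
    rw [Fin.snoc_last, Pi.smul_apply, smul_eq_mul, inv_mul_cancel₀ this]
  · change Fin.snoc (α := fun _ => ℝ) _ _ k.castSucc = _
    rw [Fin.snoc_castSucc, Pi.smul_apply, smul_eq_mul]

end Pool.Agent.H728
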