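import Pool.Agent.H728.Cells

/-!
# Seven vectors in a space of dimension five

The parity statement behind the van Kampen obstruction of the complete two-dimensional complex on
seven vertices.
-/

namespace Pool.Agent.H728

open Finset

namespace VK

/-- The elements of `Fin 7`. -/
def vs : List (Fin 7) := [0, 1, 2, 3, 4, 5, 6]

/-- The sign at `u` of the dependency which omits `v`. -/
def pat (e : Fin 7 → Bool) (v u : Fin 7) : Bool := xor (e u) (decide (u < v))

/-- The dependency which omits `v` splits according to `a`. -/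
def eqA (e a : Fin 7 → Bool) (v : Fin 7) : Bool :=
  (vs.all fun u => u == v || pat e v u == a u) || (vs.all fun u => u == v || pat e v u == !a u)

/-- The number of positive coefficients. -/
def cntT (e : Fin 7 → Bool) (v : Fin 7) : ℕ := (vs.filter fun u => u != v && pat e v u).length

/-- The finite check. -/
def chk (e a : Fin 7 → Bool) : Bool :=
  ((vs.filter a).length != 3) ||
  !(vs.all fun v => cntT e v != 3 || (!a v && eqA e a v)) ||
  (vs.filter fun v => a v && eqA e a v).length % 2 == 1

theorem chk_vec : ∀ a0 a1 a2 a3 a4 a5 a6 e0 e1 e2 e3 e4 e5 e6 : Bool,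
    chk ![e0, e1, e2, e3, e4, e5, e6] ![a0, a1, a2, a3, a4, a5, a6] = true := by
  decide +kernel

theorem chk_true (e a : Fin 7 → Bool) : chk e a = true := by
  have h := chk_vec (a 0) (a 1) (a 2) (a 3) (a 4) (a 5) (a 6) (e 0) (e 1) (e 2) (e 3) (e 4) (e 5)
    (e 6)
  have e1 : ![e 0, e 1, e 2, e 3, e 4, e 5, e 6] = e := by
    funext i; fin_cases i <;> rfl
  have e2 : ![a 0, a 1, a 2, a 3, a 4, a 5, a 6] = a := by
    funext i; fin_cases i <;> rfl
  rwa [e1, e2] at h

theorem mem_vs (v : Fin 7) : v ∈ vs := by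
  fin_cases v <;> decide

theorem card_eq (p : Fin 7 → Bool) : (univ.filter fun v => p v = true).card =
    (vs.filter p).length := by
  have e : (univ.filter fun v => p v = true) = (vs.filter p).toFinset := by
    ext v
    simp [mem_vs]
  rw [e]
  exact List.toFinset_card_of_nodup (List.Nodup.filter _ (by decide))

theorem eqA_iff (e a : Fin 7 → Bool) (v : Fin 7) : eqA e a v = true ↔
    (∀ u, u ≠ v → pat e v u = a u) ∨ (∀ u, u ≠ v → pat e v u = !a u) := by
  unfold eqA
  simp only [Bool.or_eq_true, List.all_eq_true, mem_vs, true_imp_iff, beq_iff_eq,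
    or_iff_not_imp_left (a := (_ : Fin 7) = _)]

theorem odd_of (e a : Fin 7 → Bool) (ha : (univ.filter fun v => a v = true).card = 3)
    (h : ∀ v, (univ.filter fun u => u ≠ v ∧ pat e v u = true).card = 3 → a v = false ∧
      ((∀ u, u ≠ v → pat e v u = a u) ∨ (∀ u, u ≠ v → pat e v u = !a u))) :
    Odd (univ.filter fun v => a v = true ∧
      ((∀ u, u ≠ v → pat e v u = a u) ∨ (∀ u, u ≠ v → pat e v u = !a u))).card := by
  have hc := chk_true e a
  unfold chk at hc
  rw [Bool.or_eq_true, Bool.or_eq_true] at hc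
  rcases hc with (hc | hc) | hc
  · rw [card_eq] at ha
    simp [ha] at hc
  · exfalso
    rw [Bool.not_eq_true', ← Bool.not_eq_true, List.all_eq_true] at hc
    apply hc
    intro v _
    rw [Bool.or_eq_true]
    by_cases h3 : cntT e v = 3
    · right
      have h4 := h v (by
        rw [← h3, cntT, ← card_eq]
        congr 1
        ext u
        simp)
      rw [← eqA_iff] at h4
      simp [h4.1, h4.2]
    · left
      simpa using h3
  · have e1 : (univ.filter fun v => a v = true ∧
      ((∀ u, u ≠ v → pat e v u = a u) ∨ (∀ u, u ≠ v → pat e v u = !a u))) =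
        univ.filter fun v => (a v && eqA e a v) = true := by
      ext v
      simp only [mem_filter, mem_univ, true_and, Bool.and_eq_true, eqA_iff]
    rw [e1, card_eq, Nat.odd_iff]
    simpa using hc

variable {V : Type*} [AddCommGroup V] [Module ℝ V]

theorem exists_dep (hV : Module.finrank ℝ V = 5) (x : Fin 7 → V)
    (hgen : ∀ c : Fin 7 → ℝ, ∑ v, c v • x v = 0 → ∀ u w, u ≠ w → c u = 0 → c w = 0 → c = 0)
    (w : Fin 7) : ∃ c : Fin 7 → ℝ, ∑ v, c v • x v = 0 ∧ c w = 0 ∧ ∀ v, v ≠ w → c v ≠ 0 := by
  have : Module.Finite ℝ V := Module.finite_of_finrank_pos (by rw [hV]; norm_num)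
  have hdep : ¬ LinearIndependent ℝ fun i : Fin 6 => x (w.succAbove i) := by
    intro hli
    have := hli.fintype_card_le_finrank
    rw [hV, Fintype.card_fin] at this
    omega
  rw [Fintype.not_linearIndependent_iff] at hdep
  obtain ⟨g, hg, i, hi⟩ := hdep
  have hsum : ∑ v, (w.insertNth (0 : ℝ) g : Fin 7 → ℝ) v • x v = 0 := by
    rw [Fin.sum_univ_succAbove _ w]
    simp only [Fin.insertNth_apply_same, zero_smul, Fin.insertNth_apply_succAbove, zero_add]
    exact hg
  refine ⟨(w.insertNth (0 : ℝ) g : Fin 7 → ℝ), hsum, by simp, fun v hv h0 => hi ?_⟩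
  have := hgen _ hsum v w hv h0 (by simp)
  have := congrFun this (w.succAbove i)
  simpa using this

theorem exists_dr (hV : Module.finrank ℝ V = 5) (x : Fin 7 → V)
    (hgen : ∀ c : Fin 7 → ℝ, ∑ v, c v • x v = 0 → ∀ u w, u ≠ w → c u = 0 → c w = 0 → c = 0) :
    ∃ d r : Fin 7 → ℝ, (∀ v, d v ≠ 0) ∧ Function.Injective r ∧
      ∀ v, ∑ u, (d u * (r u - r v)) • x u = 0 := by
  obtain ⟨c0, h0, h0', h0''⟩ := exists_dep hV x hgen 0
  obtain ⟨c1, h1, h1', h1''⟩ := exists_dep hV x hgen 1
  obtain ⟨t, ht⟩ := Infinite.exists_notMem_finset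
    (insert (0 : ℝ) (univ.image fun v => - c0 v / c1 v))
  rw [mem_insert, not_or] at ht
  have hd : ∀ v, c0 v + t * c1 v ≠ 0 := by
    intro v hv
    by_cases hc : c1 v = 0
    · rw [hc, mul_zero, add_zero] at hv
      by_cases hv1 : v = 1
      · exact h0'' v (by rw [hv1]; decide) hv
      · exact h1'' v hv1 hc
    · refine ht.2 (mem_image.2 ⟨v, mem_univ _, ?_⟩)
      rw [div_eq_iff hc]
      linarith
  have hsum : ∀ v, ∑ u, ((c0 u + t * c1 u) * (c1 u / (c0 u + t * c1 u) -
      c1 v / (c0 v + t * c1 v))) • x u = 0 := by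
    intro v
    have e : ∀ u, (c0 u + t * c1 u) * (c1 u / (c0 u + t * c1 u) -
        c1 v / (c0 v + t * c1 v)) = c1 u - (c1 v / (c0 v + t * c1 v)) * (c0 u + t * c1 u) := by
      intro u
      rw [mul_sub, mul_div_cancel₀ _ (hd u)]
      ring
    simp only [e, sub_smul, mul_smul, add_smul]
    rw [sum_sub_distrib, h1, ← smul_sum, sum_add_distrib, h0, ← smul_sum, h1]
    simp
  refine ⟨fun v => c0 v + t * c1 v, fun v => c1 v / (c0 v + t * c1 v), hd, ?_, hsum⟩
  intro u w huw
  by_contra hne
  have hz := hgen _ (hsum u) u w hne (by simp) (by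
    simp only at huw ⊢
    rw [huw, sub_self, mul_zero])
  have e0 := congrFun hz 0
  have e1 := congrFun hz 1
  simp only [Pi.zero_apply, mul_eq_zero, hd, false_or, h1', zero_div] at e0 e1
  have e3 : c0 1 + t * 0 ≠ 0 := by
    rw [mul_zero, add_zero]
    exact h0'' 1 (by decide)
  replace e1 := e1.resolve_left e3
  have e2 : c1 0 / (c0 0 + t * c1 0) = 0 := by linarith
  rw [div_eq_zero_iff] at e2
  rcases e2 with e2 | e2
  · exact h1'' 0 (by decide) e2
  · exact hd 0 e2

open Classical in
/-- The parity statement. -/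
theorem parity (hV : Module.finrank ℝ V = 5) (x : Fin 7 → V)
    (hgen : ∀ c : Fin 7 → ℝ, ∑ v, c v • x v = 0 → ∀ u w, u ≠ w → c u = 0 → c w = 0 → c = 0)
    (a : Fin 7 → Bool) (ha : (univ.filter fun v => a v = true).card = 3)
    (hemb : ∀ c : Fin 7 → ℝ, ∑ v, c v • x v = 0 → ∀ w, c w = 0 → (∀ v, v ≠ w → c v ≠ 0) →
      (univ.filter fun v => 0 < c v).card = 3 → a w = false ∧
        ((∀ v, v ≠ w → (0 < c v ↔ a v = true)) ∨ (∀ v, v ≠ w → (0 < c v ↔ a v = false)))) :
    Odd (univ.filter fun w => a w = true ∧ ∃ c : Fin 7 → ℝ, ∑ v, c v • x v = 0 ∧ c w = 0 ∧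
      ∀ v, v ≠ w → c v ≠ 0 ∧ (0 < c v ↔ a v = true)).card := by
  obtain ⟨d, r, hd, hr, hdr⟩ := exists_dr hV x hgen
  set σ : Equiv.Perm (Fin 7) := Tuple.sort r with hσ
  have hmono : StrictMono (r ∘ σ) :=
    (Tuple.monotone_sort r).strictMono_of_injective (hr.comp σ.injective)
  set ε : Fin 7 → Bool := fun i => decide (0 < d (σ i)) with hε
  set a' : Fin 7 → Bool := fun i => a (σ i) with ha'
  have hne : ∀ w v, v ≠ w → d v * (r v - r w) ≠ 0 := fun w v hvw =>
    mul_ne_zero (hd v) (sub_ne_zero.2 fun h => hvw (hr h))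
  have hpat : ∀ i u, u ≠ i → (pat ε i u = true ↔ 0 < d (σ u) * (r (σ u) - r (σ i))) := by
    intro i u hui
    unfold pat
    have h1 : r (σ u) - r (σ i) ≠ 0 := sub_ne_zero.2 fun h => hui (σ.injective (hr h))
    rcases lt_or_gt_of_ne hui with h | h
    · have h2 : r (σ u) - r (σ i) < 0 := sub_neg.2 (hmono h)
      simp only [hε, h, decide_true, Bool.xor_true, Bool.not_eq_true', decide_eq_false_iff_not]
      rw [mul_pos_iff]
      constructor
      · intro h3
        exact Or.inr ⟨lt_of_le_of_ne (not_lt.1 h3) (hd _), h2⟩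
      · rintro (h3 | h3)
        · exact absurd h3.2 (not_lt.2 h2.le)
        · exact not_lt.2 h3.1.le
    · have h2 : 0 < r (σ u) - r (σ i) := sub_pos.2 (hmono h)
      simp only [hε, not_lt.2 h.le, decide_false, Bool.xor_false, decide_eq_true_eq]
      exact (mul_pos_iff_of_pos_right h2).symm
  -- uniqueness of the dependency
  have huniq : ∀ (c : Fin 7 → ℝ) (w : Fin 7), ∑ v, c v • x v = 0 → c w = 0 →
      ∃ q : ℝ, ∀ v, c v = q * (d v * (r v - r w)) := by
    intro c w hc hcw
    obtain ⟨u, hu⟩ : ∃ u : Fin 7, u ≠ w := exists_ne w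
    refine ⟨c u / (d u * (r u - r w)), fun v => ?_⟩
    have := hgen (fun v => c v - c u / (d u * (r u - r w)) * (d v * (r v - r w))) (by
      have e : ∀ v, (c v - c u / (d u * (r u - r w)) * (d v * (r v - r w))) • x v =
          c v • x v - (c u / (d u * (r u - r w))) • ((d v * (r v - r w)) • x v) := fun v => by
        rw [sub_smul, smul_smul]
      simp only [e]
      rw [sum_sub_distrib, hc, ← smul_sum, hdr w, smul_zero, sub_zero]) u w hu (by
      rw [div_mul_cancel₀ _ (hne w u hu), sub_self]) (by simp [hcw])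
    have h2 := congrFun this v
    simp only [Pi.zero_apply] at h2
    linarith
  have hodd := odd_of ε a' (by
    rw [← ha]
    refine card_bij (fun i _ => σ i) (fun i hi => ?_) (fun i _ j _ h => σ.injective h)
      fun v hv => ⟨σ.symm v, ?_, by simp⟩
    · simpa [ha'] using hi
    · simpa [ha'] using hv) (fun i hi => by
    have h1 := hemb (fun u => d u * (r u - r (σ i))) (hdr (σ i)) (σ i) (by simp)
      (fun v hv => hne _ v hv) (by
        rw [← hi]
        refine (card_bij (fun i _ => σ i) (fun u hu => ?_) (fun i _ j _ h => σ.injective h)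
          fun v hv => ⟨σ.symm v, ?_, by simp⟩).symm
        · rw [mem_filter] at hu ⊢
          exact ⟨mem_univ _, (hpat i u hu.2.1).1 hu.2.2⟩
        · rw [mem_filter] at hv ⊢
          have hvi : σ.symm v ≠ i := by
            rintro rfl
            have := hv.2
            simp at this
          refine ⟨mem_univ _, hvi, (hpat i _ hvi).2 ?_⟩
          simpa using hv.2)
    refine ⟨h1.1, h1.2.imp (fun h u hu => ?_) fun h u hu => ?_⟩
    · have := h (σ u) (fun h => hu (σ.injective h))
      rw [← hpat i u hu] at this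
      rw [Bool.eq_iff_iff]
      exact this
    · have := h (σ u) (fun h => hu (σ.injective h))
      rw [← hpat i u hu] at this
      rw [Bool.eq_iff_iff, Bool.not_eq_true']
      exact this)
  convert hodd using 1
  refine (card_bij (fun i _ => σ i) (fun u hu => ?_) (fun i _ j _ h => σ.injective h)
          fun v hv => ⟨σ.symm v, ?_, by simp⟩).symm
  · rw [mem_filter] at hu ⊢
    refine ⟨mem_univ _, hu.2.1, ?_⟩
    rcases hu.2.2 with h | h
    · refine ⟨fun v => d v * (r v - r (σ u)), hdr _, by simp, fun v hv => ⟨hne _ v hv, ?_⟩⟩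
      have h1 : σ.symm v ≠ u := by rintro rfl; simp at hv
      have h2 := h _ h1
      have h3 := hpat u _ h1
      rw [Equiv.apply_symm_apply] at h3
      rw [← h3, h2, ha']
      simp
    · refine ⟨fun v => - (d v * (r v - r (σ u))), ?_, by simp, fun v hv =>
        ⟨neg_ne_zero.2 (hne _ v hv), ?_⟩⟩
      · simp only [neg_smul]
        rw [sum_neg_distrib, hdr, neg_zero]
      · have h1 : σ.symm v ≠ u := by rintro rfl; simp at hv
        have h2 := h _ h1
        have h3 := hpat u _ h1
        rw [Equiv.apply_symm_apply] at h3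
        have h4 : 0 < - (d v * (r v - r (σ u))) ↔ ¬ 0 < d v * (r v - r (σ u)) := by
          constructor
          · intro h5; linarith
          · intro h5
            have := hne (σ u) v hv
            have : d v * (r v - r (σ u)) < 0 := lt_of_le_of_ne (not_lt.1 h5) this
            linarith
        rw [h4, ← h3, h2, ha']
        simp
  · rw [mem_filter] at hv ⊢
    obtain ⟨-, h1, c, h2, h3, h4⟩ := hv
    refine ⟨mem_univ _, by simpa [ha'] using h1, ?_⟩
    obtain ⟨q, hq⟩ := huniq c v h2 h3
    have hq0 : q ≠ 0 := by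
      rintro rfl
      obtain ⟨u, hu⟩ : ∃ u : Fin 7, u ≠ v := exists_ne v
      exact (h4 u hu).1 (by rw [hq]; ring)
    rcases lt_or_gt_of_ne hq0 with hq1 | hq1
    · right
      intro u hu
      have hu' : σ u ≠ v := by rintro rfl; simp at hu
      have h5 := (h4 (σ u) hu').2
      have h5' : ∀ z : ℝ, 0 < q * z ↔ z < 0 := fun z => by
        constructor
        · intro h; by_contra hn; nlinarith [mul_nonneg (not_lt.1 hn) (neg_pos.2 hq1).le]
        · intro h; exact mul_pos_of_neg_of_neg hq1 h
      rw [hq, h5'] at h5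
      have h6 := hpat _ u hu
      rw [Equiv.apply_symm_apply] at h6
      rw [Bool.eq_iff_iff, h6, Bool.not_eq_true', ← Bool.not_eq_true, ha', ← h5]
      have := hne v (σ u) hu'
      constructor
      · intro h7; linarith
      · intro h7
        exact lt_of_le_of_ne (not_lt.1 h7) this.symm
    · left
      intro u hu
      have hu' : σ u ≠ v := by rintro rfl; simp at hu
      have h5 := (h4 (σ u) hu').2
      rw [hq, mul_pos_iff_of_pos_left hq1] at h5
      have h6 := hpat _ u hu
      rw [Equiv.apply_symm_apply] at h6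
      rw [Bool.eq_iff_iff, h6, ha', ← h5]

end VK

end Pool.Agent.H728
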