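import Pool.Agent.H728.Raise

/-!
# The constructed lists are complexes
-/

namespace Pool.Agent.H728

/-- Neither list is contained in the other one. -/
def Anti (F G : List ℕ) : Prop := ¬ F ⊆ G ∧ ¬ G ⊆ F

/-- A list of simplices with `a` vertices. -/
structure IsPure (a : ℕ) (L : List (List ℕ)) : Prop where
  len : ∀ F ∈ L, F.length = a
  nodup : ∀ F ∈ L, F.Nodup
  anti : L.Pairwise Anti

theorem toFinset_sub {F G : List ℕ} : F.toFinset ⊆ G.toFinset ↔ F ⊆ G := by
  constructor
  · intro h v hv
    exact List.mem_toFinset.1 (h (List.mem_toFinset.2 hv))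
  · intro h v hv
    exact List.mem_toFinset.2 (h (List.mem_toFinset.1 hv))

theorem sub_of_map {e : ℕ → ℕ} (he : Function.Injective e) {F G : List ℕ}
    (h : F.map e ⊆ G.map e) : F ⊆ G := by
  intro v hv
  obtain ⟨w, hw, hwv⟩ := List.mem_map.1 (h (List.mem_map_of_mem hv))
  rwa [← he hwv]

theorem Anti.map {e : ℕ → ℕ} (he : Function.Injective e) {F G : List ℕ} (h : Anti F G) :
    Anti (F.map e) (G.map e) :=
  ⟨fun h1 => h.1 (sub_of_map he h1), fun h1 => h.2 (sub_of_map he h1)⟩

theorem IsPure.join {a m : ℕ} {L : List (List ℕ)} (h : IsPure a L) : IsPure (a + 1) (joinN m L) := by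
  refine ⟨joinN_length h.len, fun F hF => ?_, ?_⟩
  · obtain ⟨G, hG, u, hu, rfl⟩ := mem_joinN.1 hF
    rw [List.nodup_cons]
    refine ⟨fun hn => ?_, (h.nodup G hG).map two_mul_injective⟩
    obtain ⟨w, hw, hwu⟩ := List.mem_map.1 hn
    omega
  · unfold joinN
    have hsub : ∀ (F G : List ℕ) (u w : ℕ), ((2 * u + 1) :: F.map fun v => 2 * v) ⊆
        ((2 * w + 1) :: G.map fun v => 2 * v) → u = w ∧ F ⊆ G := by
      intro F G u w hs
      constructor
      · have := hs List.mem_cons_self
        rw [List.mem_cons, List.mem_map] at this
        rcases this with h1 | ⟨x, -, h1⟩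
        · omega
        · omega
      · intro v hv
        have := hs (List.mem_cons_of_mem _ (List.mem_map_of_mem (f := fun v => 2 * v) hv))
        rw [List.mem_cons, List.mem_map] at this
        rcases this with h1 | ⟨x, hx, h1⟩
        · omega
        · have : x = v := by omega
          rwa [← this]
    rw [List.pairwise_flatMap]
    constructor
    · intro F hF
      rw [List.pairwise_map]
      refine List.Pairwise.imp ?_ List.pairwise_lt_range
      intro u w huw
      exact ⟨fun h1 => by have := (hsub _ _ _ _ h1).1; omega,
        fun h1 => by have := (hsub _ _ _ _ h1).1; omega⟩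
    · refine h.anti.imp ?_
      intro F G hFG x hx y hy
      obtain ⟨u, -, rfl⟩ := List.mem_map.1 hx
      obtain ⟨w, -, rfl⟩ := List.mem_map.1 hy
      exact ⟨fun h1 => hFG.1 (hsub _ _ _ _ h1).2, fun h1 => hFG.2 (hsub _ _ _ _ h1).2⟩

theorem IsPure.upK {a : ℕ} {L : List (List ℕ)} (h : IsPure a L) (n : ℕ) :
    IsPure (a + n) (upK n L) := by
  induction n with
  | zero => exact h
  | succ n ih => exact ih.join

instance decAnti (F G : List ℕ) : Decidable (Anti F G) := by
  unfold Anti; infer_instance

theorem loc_nodup : ∀ F ∈ loc, F.Nodup := by decide +kernel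

theorem loc_anti : loc.Pairwise Anti := by decide +kernel

theorem loc_page : ∀ F ∈ loc, (∃ q ∈ F, q ≠ 5 ∧ q ≠ 10) ∧ (∃ q ∈ F, q ≠ 5 ∧ q ≠ 11) ∧
    (∃ q ∈ F, q ≠ 6 ∧ q ≠ 10) := by decide +kernel

theorem loc_ne_nil : ∀ F ∈ loc, F ≠ [] := by decide +kernel

/-- The shape of the pages. -/
theorem mem_pagesAt {M : List (List Bool)} {i j : ℕ} {F : List ℕ} (h : F ∈ pagesAt M i j) :
    ∃ p q, F = [2 * i, enc j p, enc j q] ∧ p < 16 ∧ q < 16 ∧ p ≠ q ∧
      ((p = 5 ∧ q = 10) ∨ (p = 5 ∧ q = 11) ∨ (p = 6 ∧ q = 10)) := by
  unfold pagesAt at h
  rcases List.mem_cons.1 h with rfl | h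
  · exact ⟨5, 10, rfl, by norm_num, by norm_num, by norm_num, Or.inl ⟨rfl, rfl⟩⟩
  · rw [List.mem_singleton] at h
    split_ifs at h
    · exact ⟨5, 11, h, by norm_num, by norm_num, by norm_num, Or.inr (Or.inl ⟨rfl, rfl⟩)⟩
    · exact ⟨6, 10, h, by norm_num, by norm_num, by norm_num, Or.inr (Or.inr ⟨rfl, rfl⟩)⟩

/-- The facets of a column. -/
theorem isPure_KM (M : List (List Bool)) : IsPure 3 (KM M) := by
  have hcol : ∀ j, ∀ F ∈ loc.map (List.map (enc j)) ++
      (List.range M.length).flatMap (fun i => pagesAt M i j),
      ∃ q < 16, enc j q ∈ F ∧ ∀ v ∈ F, v % 2 = 1 → ∃ q < 16, v = enc j q := by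
    intro j F hF
    rcases List.mem_append.1 hF with h | h
    · obtain ⟨G, hG, rfl⟩ := List.mem_map.1 h
      obtain ⟨q, hq⟩ := List.exists_mem_of_ne_nil G (loc_ne_nil G hG)
      refine ⟨q, loc_lt G hG q hq, List.mem_map_of_mem hq, fun v hv _ => ?_⟩
      obtain ⟨w, hw, rfl⟩ := List.mem_map.1 hv
      exact ⟨w, loc_lt G hG w hw, rfl⟩
    · obtain ⟨i, hi, h⟩ := List.mem_flatMap.1 h
      obtain ⟨p, q, rfl, hp, hq, -, -⟩ := mem_pagesAt h
      refine ⟨p, hp, by simp, fun v hv hodd => ?_⟩
      simp only [List.mem_cons, List.not_mem_nil, or_false] at hv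
      rcases hv with rfl | rfl | rfl
      · omega
      · exact ⟨p, hp, rfl⟩
      · exact ⟨q, hq, rfl⟩
  refine ⟨Ex.length_KM, fun F hF => ?_, ?_⟩
  · obtain ⟨j, hj, ⟨G, hG, rfl⟩ | ⟨i, hi, hF⟩⟩ := mem_KM.1 hF
    · exact (loc_nodup G hG).map (enc_injective j)
    · obtain ⟨p, q, rfl, hp, hq, hpq, -⟩ := mem_pagesAt hF
      simp only [List.nodup_cons, List.mem_cons, List.not_mem_nil, or_false, not_or, not_false_iff,
        List.nodup_nil, and_true]
      unfold enc
      omega
  · unfold KM
    rw [List.pairwise_flatMap]
    constructor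
    · intro j _
      rw [List.pairwise_append]
      refine ⟨?_, ?_, ?_⟩
      · rw [List.pairwise_map]
        exact loc_anti.imp fun h => h.map (enc_injective j)
      · rw [List.pairwise_flatMap]
        constructor
        · intro i _
          unfold pagesAt
          rw [List.pairwise_pair]
          split_ifs
          · constructor
            · intro h
              have := h (a := enc j 10) (by simp)
              simp [enc] at this
              omega
            · intro h
              have := h (a := enc j 11) (by simp)
              simp [enc] at this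
              omega
          · constructor
            · intro h
              have := h (a := enc j 5) (by simp)
              simp [enc] at this
              omega
            · intro h
              have := h (a := enc j 6) (by simp)
              simp [enc] at this
              omega
        · refine List.Pairwise.imp ?_ List.pairwise_lt_range
          intro i i' hii x hx y hy
          obtain ⟨p, q, rfl, -⟩ := mem_pagesAt hx
          obtain ⟨p', q', rfl, -⟩ := mem_pagesAt hy
          constructor
          · intro h
            have := h (a := 2 * i) (by simp)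
            simp [enc] at this
            omega
          · intro h
            have := h (a := 2 * i') (by simp)
            simp [enc] at this
            omega
      · intro x hx y hy
        obtain ⟨G, hG, rfl⟩ := List.mem_map.1 hx
        obtain ⟨i, hi, hy⟩ := List.mem_flatMap.1 hy
        obtain ⟨p, q, rfl, hp, hq, hpq, hcase⟩ := mem_pagesAt hy
        constructor
        · intro h
          have h1 : ∃ r ∈ G, r ≠ p ∧ r ≠ q := by
            obtain ⟨a, b, c⟩ := loc_page G hG
            rcases hcase with ⟨rfl, rfl⟩ | ⟨rfl, rfl⟩ | ⟨rfl, rfl⟩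
            · exact a
            · exact b
            · exact c
          obtain ⟨r, hr, hrp, hrq⟩ := h1
          have := h (List.mem_map_of_mem (f := enc j) hr)
          simp only [List.mem_cons, List.not_mem_nil, or_false] at this
          rcases this with h2 | h2 | h2
          · unfold enc at h2; omega
          · exact hrp (enc_injective j h2)
          · exact hrq (enc_injective j h2)
        · intro h
          have := h (a := 2 * i) (by simp)
          obtain ⟨r, -, hr⟩ := List.mem_map.1 this
          unfold enc at hr
          omega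
    · refine List.Pairwise.imp ?_ List.pairwise_lt_range
      intro j j' hjj x hx y hy
      obtain ⟨q, hq, hqx, hx'⟩ := hcol j x hx
      obtain ⟨q', hq', hqy, hy'⟩ := hcol j' y hy
      constructor
      · intro h
        obtain ⟨r, hr, hr'⟩ := hy' _ (h hqx) (by unfold enc; omega)
        have := (enc_inj hq hr hr').1
        omega
      · intro h
        obtain ⟨r, hr, hr'⟩ := hx' _ (h hqy) (by unfold enc; omega)
        have := (enc_inj hq' hr hr').1
        omega

theorem isComplex_addS {a k : ℕ} {L : List (List ℕ)} (h : IsPure a L) (ha : 0 < a)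
    (hak : a ≤ k + 1) : IsComplex k (addS k L) := by
  have hlast : ((List.range (k + 1)).map fun v => 2 * v + 1).length = k + 1 := by simp
  refine ⟨fun F hF => ?_, fun F hF => ?_, ?_, fun F hF => ?_, ?_⟩
  · rcases List.mem_append.1 hF with h1 | h1
    · obtain ⟨G, hG, rfl⟩ := List.mem_map.1 h1
      intro h2
      rw [List.map_eq_nil_iff] at h2
      have := h.len G hG
      rw [h2] at this
      simp at this
      omega
    · rw [List.mem_singleton] at h1
      rw [h1]
      intro h2
      rw [h2] at hlast
      simp at hlast
  · rcases List.mem_append.1 hF with h1 | h1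
    · obtain ⟨G, hG, rfl⟩ := List.mem_map.1 h1
      exact (h.nodup G hG).map two_mul_injective
    · rw [List.mem_singleton] at h1
      rw [h1]
      exact List.nodup_range.map fun a b hab => by simpa using hab
  · have h3 : (addS k L).Pairwise Anti := by
      unfold addS
      rw [List.pairwise_append]
      refine ⟨?_, List.pairwise_singleton _ _, ?_⟩
      · rw [List.pairwise_map]
        exact h.anti.imp fun h => h.map two_mul_injective
      · intro x hx y hy
        obtain ⟨G, hG, rfl⟩ := List.mem_map.1 hx
        rw [List.mem_singleton] at hy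
        subst hy
        constructor
        · intro h4
          have hne : G ≠ [] := by
            intro h5
            have := h.len G hG
            rw [h5] at this
            simp at this
            omega
          obtain ⟨v, hv⟩ := List.exists_mem_of_ne_nil G hne
          obtain ⟨w, -, hw⟩ := List.mem_map.1 (h4 (List.mem_map_of_mem (f := fun v => 2 * v) hv))
          omega
        · intro h4
          obtain ⟨w, -, hw⟩ := List.mem_map.1 (h4 (List.mem_map_of_mem (f := fun v => 2 * v + 1)
            (List.mem_range.2 (Nat.succ_pos k))))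
          omega
    refine h3.imp fun h => ?_
    rw [toFinset_sub, toFinset_sub]
    exact h
  · rcases List.mem_append.1 hF with h1 | h1
    · obtain ⟨G, hG, rfl⟩ := List.mem_map.1 h1
      rw [List.length_map, h.len G hG]
      exact hak
    · rw [List.mem_singleton] at h1
      rw [h1, hlast]
  · exact ⟨_, List.mem_append_right _ (List.mem_singleton_self _), hlast⟩

theorem isComplex_KF {k d : ℕ} (hd : 4 ≤ d) (hdk : d ≤ 2 * k) (M : List (List Bool)) :
    IsComplex k (KF k d M) := by
  unfold KF KD
  split_ifs with hpar
  · exact isComplex_addS ((isPure_KM M).upK _) (by omega) (by omega)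
  · exact isComplex_addS ((isPure_KM M).upK _).join (by omega) (by omega)

end Pool.Agent.H728
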